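import Pool.Agent.MP_1ba41f_an.S2.FL.Spec

/-! Elementary facts on admissible data. -/

noncomputable section
open Set Complex
open scoped ComplexConjugate

namespace Pool.Agent.MP_1ba41f_an.S2.FL

namespace Adm

theorem sec_pos {z : ℂ} (h : Sec z) : 0 < z.re :=
  lt_of_le_of_lt (by positivity) h

theorem sec_slit {z : ℂ} (h : Sec z) : z ∈ slitPlane := Or.inl (sec_pos h)

theorem sec_ne {z : ℂ} (h : Sec z) : z ≠ 0 := slitPlane_ne_zero (sec_slit h)

theorem sq_sq (z : ℂ) : sq z ^ 2 = z := by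
  have := Complex.cpow_nat_inv_pow z (n := 2) (by norm_num)
  simpa [sq] using this

theorem sq_re_pos {z : ℂ} (h : 0 < z.re) : 0 < (sq z).re := by
  have h1 : sq z = z ^ (2⁻¹ : ℂ) := by simp [sq]
  rw [h1, Complex.cpow_inv_two_re]
  apply Real.sqrt_pos.2
  have := norm_nonneg z
  linarith

theorem sq_ne {z : ℂ} (h : 0 < z.re) : sq z ≠ 0 := by
  intro h0
  have := sq_re_pos h
  rw [h0] at this
  simp at this

theorem sq_im_lt {z : ℂ} (h : 0 < z.re) : |(sq z).im| < (sq z).re := by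
  have h1 := congrArg Complex.re (sq_sq z)
  rw [pow_two, Complex.mul_re] at h1
  exact abs_lt_of_sq_lt_sq (by nlinarith) (sq_re_pos h).le

theorem sq_real {z : ℂ} (h : 0 < z.re) (hi : z.im = 0) : sq z = ((sq z).re : ℂ) := by
  have h1 := congrArg Complex.im (sq_sq z)
  rw [pow_two, Complex.mul_im, hi] at h1
  have h2 := sq_re_pos h
  have h3 : (sq z).im = 0 := by
    have : (sq z).re * (sq z).im = 0 := by linarith
    rcases mul_eq_zero.1 this with h4 | h4
    · exact absurd h4 h2.ne'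
    · exact h4
  apply Complex.ext <;> simp [h3]

theorem mul_sec {z w : ℂ} (hz : Sec z) (hw : Sec w) : |(z * w).im| < (z * w).re := by
  have h1 := sec_pos hz
  have h2 := sec_pos hw
  unfold Sec at hz hw
  rw [Complex.mul_im, Complex.mul_re]
  have a1 : |z.re * w.im + z.im * w.re| ≤ z.re * |w.im| + |z.im| * w.re := by
    refine (abs_add_le _ _).trans ?_
    rw [abs_mul, abs_mul, abs_of_pos h1, abs_of_pos h2]
  have a2 : z.im * w.im ≤ |z.im| * |w.im| := by
    rw [← abs_mul]; exact le_abs_self _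
  have a3 := abs_nonneg z.im
  have a4 := abs_nonneg w.im
  have a5 : 4 * (z.re * |w.im|) ≤ z.re * w.re := by nlinarith
  have a6 : 4 * (|z.im| * w.re) ≤ z.re * w.re := by nlinarith
  have a7 : 4 * (|z.im| * |w.im|) ≤ |z.im| * w.re := by nlinarith
  have a8 := mul_pos h1 h2
  linarith

theorem mul_re_pos {p s : ℂ} (hp : |p.im| < p.re) (hs : |s.im| < s.re) : 0 < (p * s).re := by
  rw [Complex.mul_re]
  have a2 : p.im * s.im ≤ |p.im| * |s.im| := by
    rw [← abs_mul]; exact le_abs_self _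
  have a3 := abs_nonneg p.im
  have a4 := abs_nonneg s.im
  nlinarith

theorem am_eq (a : ℝ) (x : Xi) : am a x = 1 / (sq (cB x) * sq (e2 a x)) := rfl

theorem dD_coll (a : ℝ) (x : Xi) (h : 0 < (x 2).re) :
    dD (coll a x) = x 2 * sq (e2 a x) * x 4 ^ 2 / 2 := by
  have h0 := sq_ne h
  have h1 := sq_sq (x 2)
  simp only [dD, nn, rr2, rr3, coll, uu, Matrix.cons_val]
  generalize sq (x 2) = ρ at h0 h1 ⊢
  rw [← h1]
  have h2 : ρ * ρ + ρ * ρ ≠ 0 := by
    rw [← two_mul]; exact mul_ne_zero two_ne_zero (mul_ne_zero h0 h0)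
  rw [div_eq_iff h2]
  ring

theorem dDt_coll (a : ℝ) (x : Xi) (h : 0 < (x 2).re) :
    dDt (coll a x) = x 2 * (sq (e2 a x) / x 4 ^ 2) / 2 := by
  have h0 := sq_ne h
  have h1 := sq_sq (x 2)
  simp only [dDt, nn, rr2, rr3, coll, ut, Matrix.cons_val]
  generalize sq (x 2) = ρ at h0 h1 ⊢
  rw [← h1]
  have h2 : ρ * ρ + ρ * ρ ≠ 0 := by
    rw [← two_mul]; exact mul_ne_zero two_ne_zero (mul_ne_zero h0 h0)
  rw [div_eq_iff h2]
  ring

abbrev K : Type := ℝ × Xi × ℂ

theorem c_x (i : Fin 6) : ContinuousOn (fun k : K => k.2.1 i) {k | Adm k} :=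
  Continuous.continuousOn (by fun_prop)

theorem c_a : ContinuousOn (fun k : K => (k.1 : ℂ)) {k | Adm k} :=
  Continuous.continuousOn (by fun_prop)

theorem c_yy : ContinuousOn (fun k : K => yy k.2.1) {k | Adm k} :=
  ((c_x 3).add (continuousOn_const.mul (c_x 0))).div (c_x 2) fun _ hk => sec_ne hk.2.2.1

theorem c_yt : ContinuousOn (fun k : K => yt k.2.1) {k | Adm k} :=
  ((c_x 3).sub (continuousOn_const.mul (c_x 0))).div (c_x 2) fun _ hk => sec_ne hk.2.2.1

theorem c_e2 : ContinuousOn (fun k : K => e2 k.1 k.2.1) {k | Adm k} := by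
  refine (continuousOn_const.mul (((c_x 1).sub ((c_yy.mul c_yt).div_const 2)).add
    (continuousOn_const.div (c_x 2) fun _ hk => sec_ne hk.2.2.1))).div
    (c_a.mul (continuousOn_const.sub c_a)) fun k hk => ?_
  refine mul_ne_zero (by exact_mod_cast hk.1.ne') (sub_ne_zero.2 ?_)
  exact_mod_cast hk.2.1.ne'

theorem c_cB : ContinuousOn (fun k : K => cB k.2.1) {k | Adm k} :=
  ((c_x 4).div (c_x 5) fun _ hk => hk.2.2.2.2.2.1).add
    ((c_x 5).div (c_x 4) fun _ hk => hk.2.2.2.2.1)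

theorem c_sqe : ContinuousOn (fun k : K => sq (e2 k.1 k.2.1)) {k | Adm k} :=
  c_e2.cpow_const fun _ hk => sec_slit hk.2.2.2.1

theorem c_sqr : ContinuousOn (fun k : K => sq (k.2.1 2)) {k | Adm k} :=
  (c_x 2).cpow_const fun _ hk => sec_slit hk.2.2.1

theorem c_sqB : ContinuousOn (fun k : K => sq (cB k.2.1)) {k | Adm k} :=
  c_cB.cpow_const fun _ hk => sec_slit hk.2.2.2.2.2.2.1

theorem c_uu : ContinuousOn (fun k : K => uu k.1 k.2.1) {k | Adm k} :=
  c_sqe.mul ((c_x 4).pow 2)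

theorem c_ut : ContinuousOn (fun k : K => ut k.1 k.2.1) {k | Adm k} :=
  c_sqe.div ((c_x 4).pow 2) fun _ hk => pow_ne_zero 2 hk.2.2.2.2.1

theorem cB_real {x : Xi} (h : RealXi x) : (cB x).im = 0 := by
  obtain ⟨-, -, -, -, h4, h5⟩ := h
  have hn : ‖x 4 / x 5‖ = 1 := by rw [norm_div, h4, h5, div_one]
  have h1 : x 5 / x 4 = conj (x 4 / x 5) := by
    rw [← Complex.inv_eq_conj hn, inv_div]
  rw [cB, h1, Complex.add_im, Complex.conj_im, add_neg_cancel]

theorem e2_real (a : ℝ) {x : Xi} (h : RealXi x) : (e2 a x).im = 0 := by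
  obtain ⟨h0, h1, h2, h3, -, -⟩ := h
  obtain ⟨r0, e0⟩ : ∃ r : ℝ, x 0 = r := ⟨(x 0).re, Complex.ext (by simp) (by simp [h0])⟩
  obtain ⟨r1, e1⟩ : ∃ r : ℝ, x 1 = r := ⟨(x 1).re, Complex.ext (by simp) (by simp [h1])⟩
  obtain ⟨r2, e2'⟩ : ∃ r : ℝ, x 2 = r := ⟨(x 2).re, Complex.ext (by simp) (by simp [h2])⟩
  obtain ⟨r3, e3⟩ : ∃ r : ℝ, x 3 = r := ⟨(x 3).re, Complex.ext (by simp) (by simp [h3])⟩
  have hy : yy x * yt x = ((r3 ^ 2 + r0 ^ 2) / r2 ^ 2 : ℝ) := by
    rw [yy, yt, e0, e2', e3, div_mul_div_comm]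
    push_cast
    congr 1
    · linear_combination (-(r0 : ℂ) ^ 2) * Complex.I_sq
    · ring
  have : e2 a x = ((2 * (r1 - (r3 ^ 2 + r0 ^ 2) / r2 ^ 2 / 2 + 1 / r2) / (a * (1 - a)) : ℝ) : ℂ) := by
    rw [e2, hy, e1, e2']
    push_cast
    ring
  rw [this, Complex.ofReal_im]

end Adm

open Adm in
theorem admS : AdmStmt := by
  refine ⟨?_, ?_, ?_, ?_⟩
  · exact continuousOn_const.div (c_sqB.mul c_sqe) fun _ hk =>
      mul_ne_zero (sq_ne (sec_pos hk.2.2.2.2.2.2.1)) (sq_ne (sec_pos hk.2.2.2.1))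
  · refine continuousOn_pi.2 fun i => ?_
    fin_cases i
    · exact c_sqe.div_const 2
    · exact c_yy
    · exact c_yt
    · exact c_sqr
    · exact c_sqr
    · exact c_sqr
    · exact c_sqr
    · exact continuousOn_const
    · exact c_a
    · exact continuousOn_const
  · refine continuousOn_pi.2 fun i => ?_
    fin_cases i
    · exact c_sqr
    · exact c_sqr
    · exact c_sqr.mul (c_yy.sub ((continuousOn_const.sub c_a).mul c_uu))
    · exact c_sqr.mul (c_yt.sub ((continuousOn_const.sub c_a).mul c_ut))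
    · exact c_sqr
    · exact c_sqr
    · exact c_sqr.mul (c_yy.add (c_a.mul c_uu))
    · exact c_sqr.mul (c_yt.add (c_a.mul c_ut))
    · exact continuousOn_const
  · rintro ⟨a, x, T⟩ ⟨-, -, hr, he, h4, -, hB, hT, -⟩
    simp only at hr he h4 hB hT ⊢
    have hB' : Sec (cB x) := hB
    have hr0 := sq_ne (sec_pos hr)
    have hmain : 0 < (T * x 2 * sq (e2 a x) / 2).re := by
      have := mul_re_pos (mul_sec hT hr) (sq_im_lt (sec_pos he))
      have h2 : (T * x 2 * sq (e2 a x) / 2).re = (T * x 2 * sq (e2 a x)).re / 2 := by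
        simp
      rw [h2]
      linarith
    refine ⟨⟨div_ne_zero (sq_ne (sec_pos he)) two_ne_zero, hr0, hr0, hr0, hr0⟩, ?_, ?_, ?_, ?_, ?_,
      ?_⟩
    · rw [am_eq, div_pow, mul_pow, sq_sq, sq_sq, one_pow, one_div, Complex.inv_re]
      have h1 : 0 < (cB x * e2 a x).re := lt_of_le_of_lt (abs_nonneg _) (mul_sec hB' he)
      exact div_pos h1 (Complex.normSq_pos.2 (mul_ne_zero (sec_ne hB') (sec_ne he)))
    · rw [dD_coll a x (sec_pos hr)]
      convert hmain using 2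
      field_simp
    · rw [dDt_coll a x (sec_pos hr)]
      convert hmain using 2
      field_simp
    · simp [dd, coll]
    · simp [ddt, coll]
    · intro hx
      refine ⟨1 / ((sq (cB x)).re * (sq (e2 a x)).re),
        one_div_pos.2 (mul_pos (sq_re_pos (sec_pos hB')) (sq_re_pos (sec_pos he))), ?_⟩
      rw [am_eq]
      push_cast
      rw [← sq_real (sec_pos hB') (cB_real hx), ← sq_real (sec_pos he) (e2_real a hx)]

end Pool.Agent.MP_1ba41f_an.S2.FL
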