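import Mathlib

/-! Soft compactness lemmas. -/

noncomputable section
open Set Metric Filter Topology

namespace Pool.Agent.MP_1ba41f_an.S2

/-- If the zeros of `g` in a compact set lie in an open set, so do the points where `g` is small. -/
theorem soft_zero {E F : Type*} [TopologicalSpace E] [NormedAddCommGroup F] {K U : Set E}
    (hK : IsCompact K) (hU : IsOpen U) {g : E → F} (hg : ContinuousOn g K)
    (h0 : ∀ z ∈ K, g z = 0 → z ∈ U) : ∃ d > 0, ∀ z ∈ K, ‖g z‖ ≤ d → z ∈ U := by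
  have hc : IsCompact (K \ U) := hK.diff hU
  rcases (K \ U).eq_empty_or_nonempty with he | hne
  · refine ⟨1, one_pos, fun z hz _ => ?_⟩
    by_contra hn
    have : z ∈ K \ U := ⟨hz, hn⟩
    simp [he] at this
  · obtain ⟨z0, hz0, hmin⟩ := hc.exists_isMinOn hne (hg.norm.mono sdiff_subset)
    have hp : 0 < ‖g z0‖ := norm_pos_iff.2 fun h => hz0.2 (h0 z0 hz0.1 h)
    refine ⟨‖g z0‖ / 2, half_pos hp, fun z hz hd => ?_⟩
    by_contra hn
    have : ‖g z0‖ ≤ ‖g z‖ := hmin (show z ∈ K \ U from ⟨hz, hn⟩)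
    linarith

/-- Uniform continuity near a compact set, for a map continuous on an open neighbourhood. -/
theorem soft_unif {E F : Type*} [PseudoMetricSpace E] [PseudoMetricSpace F] {K V : Set E}
    (hK : IsCompact K) (hV : IsOpen V) (hKV : K ⊆ V) {f : E → F} (hf : ContinuousOn f V)
    {η : ℝ} (hη : 0 < η) : ∃ d > 0, cthickening d K ⊆ V ∧
      ∀ x ∈ K, ∀ y, dist y x ≤ d → y ∈ V ∧ dist (f y) (f x) ≤ η := by
  obtain ⟨d1, hd1, h1⟩ := hK.exists_cthickening_subset_open hV hKV
  have hat : ∀ x ∈ K, ContinuousAt f x := fun x hx => hf.continuousAt (hV.mem_nhds (hKV hx))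
  have hu := hK.uniformContinuousAt_of_continuousAt f hat (dist_mem_uniformity hη)
  obtain ⟨d2, hd2, h2⟩ := Metric.mem_uniformity_dist.1 hu
  refine ⟨min d1 (d2 / 2), lt_min hd1 (half_pos hd2),
    (cthickening_mono (min_le_left _ _) K).trans h1, fun x hx y hy => ⟨?_, ?_⟩⟩
  · exact h1 (mem_cthickening_of_dist_le y x d1 K hx (hy.trans (min_le_left _ _)))
  · have hxy : dist x y < d2 := by
      rw [dist_comm]; linarith [hy.trans (min_le_right _ _)]
    have := h2 hxy hx
    rw [dist_comm]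
    exact le_of_lt this

/-- A bound near a compact set, for a map continuous on an open neighbourhood. -/
theorem soft_bound {E F : Type*} [PseudoMetricSpace E] [NormedAddCommGroup F] {K V : Set E}
    (hK : IsCompact K) (hV : IsOpen V) (hKV : K ⊆ V) {f : E → F} (hf : ContinuousOn f V) :
    ∃ d > 0, ∃ M > 0, cthickening d K ⊆ V ∧ ∀ x ∈ K, ∀ y, dist y x ≤ d → y ∈ V ∧ ‖f y‖ ≤ M := by
  obtain ⟨d, hd, h1, h2⟩ := soft_unif hK hV hKV hf one_pos
  obtain ⟨M, hM⟩ := hK.exists_bound_of_continuousOn (hf.mono hKV)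
  refine ⟨d, hd, |M| + 1, by positivity, h1, fun x hx y hy => ⟨(h2 x hx y hy).1, ?_⟩⟩
  have h3 := (h2 x hx y hy).2
  rw [dist_eq_norm] at h3
  linarith [norm_le_norm_add_norm_sub' (f y) (f x), hM x hx, le_abs_self M]

end Pool.Agent.MP_1ba41f_an.S2
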