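import Pool.Agent.MP_1ba41f_an.S2.FL.Spec
import Pool.Agent.MP_1ba41f_an.S2.FL.Soft

/-! The arcs for small values of the mass parameter. -/

noncomputable section
open Set Complex Metric

namespace Pool.Agent.MP_1ba41f_an.S2.FL

namespace Arc

theorem cdd : Continuous dd := by unfold dd; fun_prop

theorem cddt : Continuous ddt := by unfold ddt; fun_prop

theorem cpt (hA : AdmStmt) {K : Set (ℝ × Xi × ℂ)} (hK : IsCompact K) (hKA : ∀ k ∈ K, Adm k)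
    (d R : ℝ) : IsCompact {q : (ℝ × Xi × ℂ) × Az × ℂ × ℝ |
      q.1 ∈ K ∧ Start d R q.1 q.2.1 q.2.2.1 ∧ q.2.2.2 ∈ Icc (0 : ℝ) 1} := by
  obtain ⟨h1, -, h2, -⟩ := hA
  obtain ⟨M, hM⟩ := hK.exists_bound_of_continuousOn (h2.mono hKA)
  obtain ⟨N, hN⟩ := (isCompact_closedBall (0 : Az) (M + d)).exists_bound_of_continuousOn
    (cdd.mul cddt).continuousOn
  refine (hK.prod ((isCompact_closedBall (0 : Az) (M + d)).prod
    ((isCompact_closedBall (0 : ℂ) (N + 1)).prod (isCompact_Icc (a := (0 : ℝ)) (b := 1))))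
    ).of_isClosed_subset ?_ ?_
  · have a1 : ContinuousOn (fun q : (ℝ × Xi × ℂ) × Az × ℂ × ℝ => am q.1.1 q.1.2.1)
        (Prod.fst ⁻¹' K) := h1.comp continuousOn_fst fun q hq => hKA _ hq
    have a2 : ContinuousOn (fun q : (ℝ × Xi × ℂ) × Az × ℂ × ℝ => coll q.1.1 q.1.2.1)
        (Prod.fst ⁻¹' K) := h2.comp continuousOn_fst fun q hq => hKA _ hq
    have a3 : Continuous fun q : (ℝ × Xi × ℂ) × Az × ℂ × ℝ => dd q.2.1 :=
      cdd.comp (by fun_prop)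
    have a4 : Continuous fun q : (ℝ × Xi × ℂ) × Az × ℂ × ℝ => ddt q.2.1 :=
      cddt.comp (by fun_prop)
    have a5 : Continuous fun q : (ℝ × Xi × ℂ) × Az × ℂ × ℝ => q.1.2.1 4 ^ 2 := by fun_prop
    have a6 : ContinuousOn (fun q : (ℝ × Xi × ℂ) × Az × ℂ × ℝ =>
        (‖q.2.1 - coll q.1.1 q.1.2.1‖, q.2.2.1 ^ 2 - dd q.2.1 * ddt q.2.1,
          ‖dd q.2.1 - R * am q.1.1 q.1.2.1 ^ 2 * q.1.2.1 4 ^ 2‖,
          ‖ddt q.2.1 - R * am q.1.1 q.1.2.1 ^ 2 / q.1.2.1 4 ^ 2‖, q.2.2.2)) (Prod.fst ⁻¹' K) := by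
      refine (ContinuousOn.sub (by fun_prop) a2).norm.prodMk (ContinuousOn.prodMk
        (Continuous.continuousOn (Continuous.sub (by fun_prop) (a3.mul a4))) ?_)
      refine (a3.continuousOn.sub ((continuousOn_const.mul (a1.pow 2)).mul
        a5.continuousOn)).norm.prodMk (ContinuousOn.prodMk ?_ (by fun_prop))
      exact (a4.continuousOn.sub ((continuousOn_const.mul (a1.pow 2)).div a5.continuousOn
        fun q hq => pow_ne_zero 2 (hKA _ hq).2.2.2.2.1)).norm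
    convert a6.preimage_isClosed_of_isClosed (hK.isClosed.preimage continuous_fst)
      ((isClosed_Iic (a := d)).prod ((isClosed_singleton (x := (0 : ℂ))).prod
        ((isClosed_Iic (a := d * R)).prod ((isClosed_Iic (a := d * R)).prod
          (isClosed_Icc (a := (0 : ℝ)) (b := 1)))))) using 1
    ext q
    simp only [Start, mem_ofPred_eq, mem_inter_iff, mem_preimage, mem_prod, mem_Iic,
      mem_singleton_iff, sub_eq_zero, and_assoc]
  · rintro ⟨k, z, l, u⟩ ⟨b1, ⟨b2, b3, -⟩, b4⟩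
    have b5 : z ∈ closedBall (0 : Az) (M + d) := by
      rw [mem_closedBall_zero_iff]
      linarith [norm_le_insert' z (coll k.1 k.2.1), hM k b1]
    refine ⟨b1, b5, mem_closedBall_zero_iff.2 ?_, b4⟩
    have b6 : ‖l‖ ^ 2 ≤ N := by
      rw [← norm_pow, b3]
      exact hN z b5
    show ‖l‖ ≤ N + 1
    nlinarith [norm_nonneg l]

end Arc

theorem arcS (hF : FlowsStmt) (hA : AdmStmt) (h0 : Arc0Stmt) : ArcStmt := by
  intro K hK hKA η hη
  obtain ⟨d, hd, h1⟩ := h0 K hK hKA (η / 2) (half_pos hη)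
  refine ⟨d, hd, fun R hR hRd => ?_⟩
  have hc : Continuous fun q : (ℝ × Xi × ℂ) × Az × ℂ × ℝ =>
      (((q.2.1, q.2.2.1, q.1.2.1 1, (q.1.1 : ℂ), (0 : ℂ)), (q.2.2.2 : ℂ) * q.1.2.2) : Yz × ℂ) := by
    fun_prop
  obtain ⟨e0, he0, -, h2⟩ := soft_unif ((Arc.cpt hA hK hKA d R).image hc) hF.1.op
    (by
      rintro _ ⟨q, ⟨a1, a2, a3⟩, rfl⟩
      exact (h1 R hR hRd _ a1 _ _ a2 _ a3).1) hF.1.hol.continuousOn (half_pos hη)
  refine ⟨e0, he0, fun e he k hk z l hs u hu => ?_⟩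
  obtain ⟨h3, h4⟩ := h2 _ ⟨(k, z, l, u), ⟨hk, hs, hu⟩, rfl⟩
    ((z, l, k.2.1 1, (k.1 : ℂ), e), (u : ℂ) * k.2.2) (by simp [Prod.dist_eq, he])
  refine ⟨h3, fun g hg => ?_⟩
  have h5 := (h1 R hR hRd k hk z l hs u hu).2 g hg
  have h6 := (le_max_left _ _).trans ((Prod.dist_eq ..).symm.trans_le h4)
  rw [dist_eq_norm] at h6
  have h7 := norm_sub_le_norm_sub_add_norm_sub
    (FY ((z, l, k.2.1 1, (k.1 : ℂ), e), (u : ℂ) * k.2.2)).1
    (FY ((z, l, k.2.1 1, (k.1 : ℂ), (0 : ℂ)), (u : ℂ) * k.2.2)).1 (g u)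
  linarith

end Pool.Agent.MP_1ba41f_an.S2.FL
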