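import Pool.Agent.MP_1ba41f_an.S2.FL.Spec
import Pool.Agent.MP_1ba41f_an.S2.FL.Soft
import Pool.Agent.MP_1ba41f_an.S2.OD.Sym

/-! The arcs of the full field at `e = 0`. -/

noncomputable section
open Set Complex Metric

namespace Pool.Agent.MP_1ba41f_an.S2.FL

namespace Arc0

/-- Forget `l` and `e`. -/
def pr : Yz →L[ℝ] Rz :=
  (ContinuousLinearMap.fst ℝ Az (ℂ × ℂ × ℂ × ℂ)).prod
    (((ContinuousLinearMap.fst ℝ ℂ (ℂ × ℂ)).comp ((ContinuousLinearMap.snd ℝ ℂ (ℂ × ℂ × ℂ)).comp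
      (ContinuousLinearMap.snd ℝ Az (ℂ × ℂ × ℂ × ℂ)))).prod
    ((ContinuousLinearMap.fst ℝ ℂ ℂ).comp ((ContinuousLinearMap.snd ℝ ℂ (ℂ × ℂ)).comp
      ((ContinuousLinearMap.snd ℝ ℂ (ℂ × ℂ × ℂ)).comp
        (ContinuousLinearMap.snd ℝ Az (ℂ × ℂ × ℂ × ℂ))))))

theorem pr_apply (y : Yz) : pr y = (y.1, y.2.2.1, y.2.2.2.1) := rfl

theorem XA_zero (l h a : ℂ) (z : Az) : XA l h a 0 z = XA 1 h a 0 z := by
  simp [XA]

/-- The constants stay constant along the unperturbed flow. -/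
theorem snd_FR (hF : FlowsStmt) (y : Rz) (τ : ℂ) (hy : (y, τ) ∈ OR) : (FR (y, τ)).2 = y.2 :=
  (symS Rz (ℂ × ℂ) XR DR OR FR hF.2.1).2 (fun y => y.2) y τ hy fun s _ =>
    ⟨ContinuousLinearMap.snd ℂ Az (ℂ × ℂ), hasFDerivAt_snd, rfl⟩

/-- At `e = 0` the full flow projects to the unperturbed flow. -/
theorem proj (hF : FlowsStmt) (hI : IntYStmt) (z : Az) (l h a τ : ℂ)
    (hy : ((z, l, h, a, (0 : ℂ)), τ) ∈ OY) :
    (FY ((z, l, h, a, (0 : ℂ)), τ)).1 = (FR ((z, h, a), τ)).1 := by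
  have key := (symS Yz Rz XY DY OY FY hF.1).1 XR DR OR FR hF.2.1 pr (z, l, h, a, (0 : ℂ)) τ τ hy
    fun s hs => by
      have hm := hF.1.star _ hy s hs
      have hD := (hF.1.mem _ hm).2
      have hc := (hI _ _ hm).1
      generalize FY ((z, l, h, a, (0 : ℂ)), (s : ℂ) * τ) = y at hD hc
      refine ⟨⟨hD.1, hD.2.2.1, hD.2.2.2⟩, pr, pr.hasFDerivAt, ?_⟩
      have he : y.2.2.2.2 = 0 := by rw [hc]
      rw [pr_apply, pr_apply]
      simp only [XY, XR, Prod.smul_mk, he, XA_zero y.2.1]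
  have h2 := congrArg Prod.fst key.2
  exact h2.symm

/-- The full flow at `e = 0` exists as long as the unperturbed orbit has no collision. -/
theorem lift (hF : FlowsStmt) (hX : ExtCStmt) (hI : IntYStmt) (z : Az) (l h a T : ℂ)
    (hT : ((z, h, a), T) ∈ OR) (hl : l ^ 2 = dd z * ddt z)
    (hne : ∀ u ∈ Icc (0 : ℝ) 1, dd (FR ((z, h, a), (u : ℂ) * T)).1 ≠ 0 ∧
      ddt (FR ((z, h, a), (u : ℂ) * T)).1 ≠ 0) :
    ((z, l, h, a, (0 : ℂ)), T) ∈ OY := by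
  have tr := hF.2.1.traj hT
  set γ : ℝ → Az := fun u => (FR ((z, h, a), (u : ℂ) * T)).1 with hγ
  have hγc : ContinuousOn γ (Icc 0 1) :=
    continuous_fst.comp_continuousOn fun u hu => (tr.2 u hu).2.continuousWithinAt
  have hγ0 : γ 0 = z := congrArg Prod.fst tr.1
  have hz := (hF.2.1.mem _ hT).1
  have hq : Continuous fun w : Az => dd w * ddt w := by
    unfold dd ddt
    fun_prop
  have hΓ : IsCompact (γ '' Icc 0 1) := isCompact_Icc.image_of_continuousOn hγc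
  have hQ : IsCompact ((fun w : Az => dd w * ddt w) '' (γ '' Icc 0 1)) := hΓ.image hq
  have hA : IsCompact {m : ℂ | m ^ 2 ∈ (fun w : Az => dd w * ddt w) '' (γ '' Icc 0 1)} := by
    obtain ⟨M, hM⟩ := hQ.isBounded.exists_norm_le
    refine isCompact_of_isClosed_isBounded (hQ.isClosed.preimage (continuous_pow 2)) ?_
    refine (isBounded_closedBall (x := (0 : ℂ)) (r := M + 1)).subset fun m hm => ?_
    have h1 := hM _ hm
    rw [norm_pow] at h1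
    rw [mem_closedBall, dist_zero_right]
    nlinarith [sq_nonneg (‖m‖ - 1), norm_nonneg m]
  have hsub : (γ '' Icc 0 1) ×ˢ ({m : ℂ | m ^ 2 ∈ (fun w : Az => dd w * ddt w) '' (γ '' Icc 0 1)} ×ˢ
      ({(h, a, (0 : ℂ))} : Set (ℂ × ℂ × ℂ))) ⊆ DY := by
    rintro ⟨w, m, c⟩ ⟨⟨u, hu, rfl⟩, ⟨_, ⟨v, hv, rfl⟩, hm⟩, rfl⟩
    refine ⟨(tr.2 u hu).1.1, fun h0 => ?_, hz.2.1, hz.2.2⟩
    have h0' : m = 0 := h0
    have h1 : dd (γ v) * ddt (γ v) = m ^ 2 := hm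
    rw [h0'] at h1
    exact mul_ne_zero (hne v hv).1 (hne v hv).2 (by simpa using h1)
  have h01 : (0 : ℝ) ∈ Icc (0 : ℝ) 1 := ⟨le_rfl, zero_le_one⟩
  refine hX Yz XY DY OY FY hF.1 _ (hΓ.prod (hA.prod isCompact_singleton)) hsub
    (z, l, h, a, (0 : ℂ)) (hsub ⟨⟨0, h01, hγ0⟩, ⟨z, ⟨0, h01, hγ0⟩, hl.symm⟩, rfl⟩) T fun s hs hm => ?_
  have h1 : (FY ((z, l, h, a, (0 : ℂ)), (s : ℂ) * T)).1 = γ s := proj hF hI z l h a _ hm
  obtain ⟨h2, h3, -⟩ := hI _ _ hm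
  refine ⟨⟨s, hs, h1.symm⟩, ⟨γ s, ⟨s, hs, rfl⟩, ?_⟩, h2⟩
  rw [h1] at h3
  simp only [hl, sub_self] at h3
  exact (sub_eq_zero.1 h3).symm

theorem ne_zero_of {c R u d : ℝ} {x x0 y b : ℂ} (hc : 0 < c) (hR : 0 < R) (hu : 0 ≤ u)
    (hd : d ≤ c / 4) (h1 : ‖x - x0 - y‖ ≤ c / 4 * u) (h2 : ‖x0 - b‖ ≤ d * R)
    (h3 : c * (R + u) ≤ ‖b + y‖) : x ≠ 0 := by
  rintro rfl
  have h4 : b + y = -(0 - x0 - y) - (x0 - b) := by ring
  have h5 : ‖b + y‖ ≤ c / 4 * u + d * R := by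
    rw [h4]
    refine (norm_sub_le _ _).trans ?_
    rw [norm_neg]
    exact add_le_add h1 h2
  nlinarith [mul_pos hc hR, mul_nonneg hc.le hu, mul_le_mul_of_nonneg_right hd hR.le]

end Arc0

open Arc0 in
theorem arc0S (hF : FlowsStmt) (hX : ExtCStmt) (hI : IntYStmt) (hA : AdmStmt) (hB : BaseStmt)
    (hD : DirStmt) (hL : LowStmt) : Arc0Stmt := by
  intro K hK hKA η hη
  obtain ⟨c, hc, R1, hR1, hlow⟩ := hL K hK hKA
  obtain ⟨d2, hd2, hdir⟩ := hD K hK hKA (c / 4) (by positivity)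
  let φ : (ℝ × Xi × ℂ) × ℝ → Rz × ℂ := fun p =>
    ((coll p.1.1 p.1.2.1, p.1.2.1 1, (p.1.1 : ℂ)), (p.2 : ℂ) * p.1.2.2)
  have hφ : ContinuousOn φ (K ×ˢ Icc 0 1) := by
    have h1 : ContinuousOn (fun p : (ℝ × Xi × ℂ) × ℝ => coll p.1.1 p.1.2.1) (K ×ˢ Icc 0 1) :=
      hA.2.2.1.comp continuousOn_fst fun p hp => hKA _ hp.1
    refine (h1.prodMk ?_).prodMk ?_
    · exact Continuous.continuousOn (by fun_prop)
    · exact Continuous.continuousOn (by fun_prop)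
  have hC : IsCompact (φ '' (K ×ˢ Icc 0 1)) := (hK.prod isCompact_Icc).image_of_continuousOn hφ
  have hCO : φ '' (K ×ˢ Icc 0 1) ⊆ OR := by
    rintro _ ⟨p, hp, rfl⟩
    obtain ⟨g, hg⟩ := (hKA _ hp.1).2.2.2.2.2.2.2.2
    exact (hB p.1 (hKA _ hp.1) g hg p.2 hp.2).1
  obtain ⟨d1, hd1, -, hnear⟩ := soft_unif hC hF.2.1.op hCO hF.2.1.hol.continuousOn
    (lt_min hη hd2)
  refine ⟨min d1 (min R1 (c / 4)), lt_min hd1 (lt_min hR1 (by positivity)),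
    fun R hR hRd k hk z l hS => ?_⟩
  have hk1 := hKA k hk
  have hγ : ∀ u ∈ Icc (0 : ℝ) 1, ((z, k.2.1 1, (k.1 : ℂ)), (u : ℂ) * k.2.2) ∈ OR ∧
      ∀ g, BaseArc k.1 k.2.1 k.2.2 g →
        ‖(FR ((z, k.2.1 1, (k.1 : ℂ)), (u : ℂ) * k.2.2)).1 - g u‖ ≤ min η d2 := by
    intro u hu
    have h1 := hnear (φ (k, u)) ⟨(k, u), ⟨hk, hu⟩, rfl⟩
      ((z, k.2.1 1, (k.1 : ℂ)), (u : ℂ) * k.2.2) (by
        simp only [φ, Prod.dist_eq, dist_self]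
        refine max_le (max_le ?_ hd1.le) hd1.le
        rw [dist_eq_norm]
        exact hS.1.trans (min_le_left _ _))
    refine ⟨h1.1, fun g hg => ?_⟩
    have h2 := (hB k hk1 g hg u hu).2
    have h3 := h1.2
    simp only [φ] at h3
    rw [h2, Prod.dist_eq] at h3
    rw [← dist_eq_norm]
    exact (le_max_left _ _).trans h3
  have hT : ((z, k.2.1 1, (k.1 : ℂ)), k.2.2) ∈ OR := by
    simpa using (hγ 1 ⟨zero_le_one, le_rfl⟩).1
  have tr := hF.2.1.traj hT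
  obtain ⟨g0, hg0⟩ := hk1.2.2.2.2.2.2.2.2
  have hinc := hdir k hk g0 hg0 (fun u => (FR ((z, k.2.1 1, (k.1 : ℂ)), (u : ℂ) * k.2.2)).1)
    (fun _ => 1) (k.2.1 1) (k.1 : ℂ) 0 fun u hu => by
      refine ⟨((hγ u hu).2 g0 hg0).trans (min_le_right _ _), ?_⟩
      have h1 := (ContinuousLinearMap.fst ℝ Az (ℂ × ℂ)).hasFDerivAt.comp_hasDerivWithinAt u
        (tr.2 u hu).2
      have h2 := snd_FR hF _ _ (hγ u hu).1
      have h3 : (FR ((z, k.2.1 1, (k.1 : ℂ)), (u : ℂ) * k.2.2)).2.1 = k.2.1 1 := by rw [h2]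
      have h4 : (FR ((z, k.2.1 1, (k.1 : ℂ)), (u : ℂ) * k.2.2)).2.2 = (k.1 : ℂ) := by rw [h2]
      simpa only [XR, Prod.smul_mk, ContinuousLinearMap.coe_fst', Function.comp_def, h3, h4]
        using h1
  have h0 : (FR ((z, k.2.1 1, (k.1 : ℂ)), ((0 : ℝ) : ℂ) * k.2.2)).1 = z := congrArg Prod.fst tr.1
  have hRR : R ≤ R1 := hRd.trans ((min_le_right _ _).trans (min_le_left _ _))
  have hdc : min d1 (min R1 (c / 4)) ≤ c / 4 := (min_le_right _ _).trans (min_le_right _ _)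
  have hY : ((z, l, k.2.1 1, (k.1 : ℂ), (0 : ℂ)), k.2.2) ∈ OY := by
    refine lift hF hX hI z l _ _ _ hT hS.2.1 fun u hu => ?_
    have h1 := hinc u hu
    have h2 := hlow k hk g0 hg0 u hu R hR hRR
    simp only [h0] at h1
    exact ⟨ne_zero_of hc hR hu.1 hdc h1.1 hS.2.2.1 h2.1,
      ne_zero_of hc hR hu.1 hdc h1.2 hS.2.2.2 h2.2⟩
  intro u hu
  have hm := hF.1.star _ hY u hu
  refine ⟨hm, fun g hg => ?_⟩
  rw [proj hF hI z l _ _ _ hm]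
  exact ((hγ u hu).2 g hg).trans (min_le_left _ _)

end Pool.Agent.MP_1ba41f_an.S2.FL
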