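import Pool.Agent.MP_1ba41f_an.S2.FL.Spec

/-! Assembly of the half arcs. -/

noncomputable section
open Set Complex Filter Topology
open scoped ComplexConjugate

namespace Pool.Agent.MP_1ba41f_an.S2.FL

namespace Asm

def encF (a e : ℝ) (x : Xi × ℂ) : En := projE (FLc (cen1 a e x.1, x.2))
def exP (a e S : ℝ) (x : Xi) : Yz := exY (x 1) (FLc (cen1 a e x, (S : ℂ)))
def arcF (a e S : ℝ) (x : Xi × ℂ) : Az := (FY (exP a e S x.1, x.2)).1

def G0 (a e : ℝ) : Set Xi := {x | ((a : ℂ), (e : ℂ), x) ∈ Gd}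

theorem G0_open (hC : CenAStmt) (a e : ℝ) : IsOpen (G0 a e) :=
  hC.1.preimage (f := fun x : Xi => ((a : ℂ), (e : ℂ), x)) (by fun_prop)

theorem sc_diff (l : ℝ) : Differentiable ℂ (sc l) := by
  have : sc l = fun p : Lc => ((l : ℂ) • p.1, (l : ℂ) • p.2.1, p.2.2) := by
    funext p; simp [sc]
  rw [this]; fun_prop

theorem cen1_diff (hC : CenAStmt) (a e : ℝ) : DifferentiableOn ℂ (cen1 a e) (G0 a e) := by
  have h1 : DifferentiableOn ℂ (fun x : Xi => cen ((a : ℂ), (e : ℂ), x)) (G0 a e) :=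
    hC.2.1.comp (f := fun x : Xi => ((a : ℂ), (e : ℂ), x)) (by fun_prop) fun x hx => hx
  exact (sc_diff _).comp_differentiableOn h1

def UU (a e : ℝ) : Set (Xi × ℂ) := {x | x.1 ∈ G0 a e ∧ (cen1 a e x.1, x.2) ∈ OL}

theorem in_diff (hC : CenAStmt) (a e : ℝ) :
    DifferentiableOn ℂ (fun x : Xi × ℂ => (cen1 a e x.1, x.2)) {x | x.1 ∈ G0 a e} :=
  ((cen1_diff hC a e).comp (f := fun x : Xi × ℂ => x.1) (by fun_prop) fun _ hx => hx).prodMk
    (by fun_prop)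

theorem UU_open (hF : FlowsStmt) (hC : CenAStmt) (a e : ℝ) : IsOpen (UU a e) :=
  (in_diff hC a e).continuousOn.isOpen_inter_preimage
    ((G0_open hC a e).preimage continuous_fst) hF.2.2.op

theorem fl_diff (hF : FlowsStmt) (hC : CenAStmt) (a e : ℝ) :
    DifferentiableOn ℂ (fun x : Xi × ℂ => FLc (cen1 a e x.1, x.2)) (UU a e) :=
  hF.2.2.hol.comp ((in_diff hC a e).mono fun _ hx => hx.1) fun _ hx => hx.2

theorem encF_diff (hF : FlowsStmt) (hC : CenAStmt) (hH : ChartStmt) (a e : ℝ) :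
    DifferentiableOn ℂ (encF a e) (UU a e) :=
  hH.1.comp_differentiableOn (fl_diff hF hC a e)

def W1 (a e S : ℝ) : Set (Xi × ℂ) := {x | (x.1, (S : ℂ)) ∈ UU a e}
def pS (a e S : ℝ) (x : Xi × ℂ) : ℂ × Lc := (x.1 1, FLc (cen1 a e x.1, (S : ℂ)))
def W2 (a e S : ℝ) : Set (Xi × ℂ) :=
  W1 a e S ∩ pS a e S ⁻¹' {x | lw x.2 ≠ 0 ∧ lwt x.2 ≠ 0}
def VV (a e S : ℝ) : Set (Xi × ℂ) :=
  W2 a e S ∩ (fun x : Xi × ℂ => (exP a e S x.1, x.2)) ⁻¹' OY

theorem W1_open (hF : FlowsStmt) (hC : CenAStmt) (a e S : ℝ) : IsOpen (W1 a e S) :=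
  (UU_open hF hC a e).preimage (f := fun x : Xi × ℂ => (x.1, (S : ℂ))) (by fun_prop)

theorem pS_diff (hF : FlowsStmt) (hC : CenAStmt) (a e S : ℝ) :
    DifferentiableOn ℂ (pS a e S) (W1 a e S) := by
  refine DifferentiableOn.prodMk (by fun_prop) ?_
  exact (fl_diff hF hC a e).comp (f := fun x : Xi × ℂ => (x.1, (S : ℂ))) (by fun_prop)
    fun _ hx => hx

theorem W2_open (hF : FlowsStmt) (hC : CenAStmt) (hH : ChartStmt) (a e S : ℝ) :
    IsOpen (W2 a e S) := by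
  refine (pS_diff hF hC a e S).continuousOn.isOpen_inter_preimage (W1_open hF hC a e S) ?_
  exact (isOpen_ne_fun (hH.2.1.continuous.comp continuous_snd) continuous_const).inter
    (isOpen_ne_fun (hH.2.2.1.continuous.comp continuous_snd) continuous_const)

theorem ex_diff (hF : FlowsStmt) (hC : CenAStmt) (hH : ChartStmt) (a e S : ℝ) :
    DifferentiableOn ℂ (fun x : Xi × ℂ => (exP a e S x.1, x.2)) (W2 a e S) := by
  refine DifferentiableOn.prodMk ?_ (by fun_prop)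
  exact hH.2.2.2.1.comp ((pS_diff hF hC a e S).mono inter_subset_left) fun _ hx => hx.2

theorem VV_open (hF : FlowsStmt) (hC : CenAStmt) (hH : ChartStmt) (a e S : ℝ) :
    IsOpen (VV a e S) :=
  (ex_diff hF hC hH a e S).continuousOn.isOpen_inter_preimage (W2_open hF hC hH a e S) hF.1.op

theorem arcF_diff (hF : FlowsStmt) (hC : CenAStmt) (hH : ChartStmt) (a e S : ℝ) :
    DifferentiableOn ℂ (arcF a e S) (VV a e S) :=
  (hF.1.hol.comp ((ex_diff hF hC hH a e S).mono inter_subset_left) fun _ hx => hx.2).fst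

theorem re_eq {z : ℂ} (h : z.im = 0) : ((z.re : ℝ) : ℂ) = z := Complex.ext (by simp) (by simp [h])

/-- positive lower and upper bounds on a compact set of admissible data -/
theorem consts (hA : AdmStmt) {K : Set (ℝ × Xi × ℂ)} (hK : IsCompact K) (hd : ∀ k ∈ K, Adm k) :
    ∃ m > 0, m ≤ 1 ∧ ∃ M > 0, ∀ k ∈ K, m ≤ ‖am k.1 k.2.1‖ ∧ m ≤ k.2.2.re ∧ ‖am k.1 k.2.1‖ ≤ M := by
  have c1 : ContinuousOn (fun k : ℝ × Xi × ℂ => ‖am k.1 k.2.1‖) K := (hA.1.mono hd).norm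
  have c2 : ContinuousOn (fun k : ℝ × Xi × ℂ => k.2.2.re) K := by fun_prop
  obtain ⟨M, hM⟩ := hK.exists_bound_of_continuousOn (hA.1.mono hd)
  obtain ⟨m, m0, hm⟩ := hK.exists_forall_le' (a := (0 : ℝ)) (c1.inf c2) fun k hk => by
    have h1 := (hA.2.2.2 k (hd k hk)).2.1
    have h2 : am k.1 k.2.1 ≠ 0 := fun h => by simp [h] at h1
    have h3 := (hd k hk).2.2.2.2.2.2.2.1
    have h4 : 0 < k.2.2.re := lt_of_le_of_lt (by positivity) h3
    exact lt_min (norm_pos_iff.2 h2) h4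
  refine ⟨min m 1, lt_min m0 one_pos, min_le_right _ _, |M| + 1, by positivity, fun k hk => ?_⟩
  have := hm k hk
  refine ⟨(min_le_left _ _).trans (this.trans (min_le_left _ _)),
    (min_le_left _ _).trans (this.trans (min_le_right _ _)), ?_⟩
  linarith [hM k hk, le_abs_self M]

/-- the physical part of the encounter -/
theorem enc_phys (hF : FlowsStmt) (hR : RealStmt) (hI : IntLStmt) (hP : PhysLStmt)
    (hB : CenBStmt) {a e : ℝ} {x : Xi} (he : 0 < e) (hG : ((a : ℂ), (e : ℂ), x) ∈ Gd)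
    (hx : RealXi x) {s : ℝ} (hs : (cen1 a e x, (s : ℂ)) ∈ OL) :
    RealZ (encF a e (x, s)) ∧ (encF a e (x, s) 2 ≠ 0 → ∃ g : ℝ, 0 < g ∧
      HasDerivAt (fun s : ℝ => encF a e (x, s) 8) g s ∧
      HasDerivAt (fun s : ℝ => physE a (encF a e (x, s)))
        (g • NF (e * a) (e * (1 - a)) (physE a (encF a e (x, s)))) s) := by
  obtain ⟨-, hL, -, hr⟩ := hB a e x he.le hG
  obtain ⟨hr1, hr2⟩ := hr hx
  obtain ⟨h1, h2⟩ := hR.2 _ s hr1 hs
  have hL' := hI _ _ _ _ _ _ hs hL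
  rw [← re_eq hx.2.1, ← re_eq hx.1] at hL'
  obtain ⟨h3, h4⟩ := hP _ _ _ _ _ (hF.2.2.mem _ hs).2 h1 hL' (h2 hr2)
  refine ⟨h3, fun hw => ?_⟩
  obtain ⟨g, g0, hg, hd⟩ := h4 hw
  have hder : HasDerivAt (fun t : ℝ => FLc (cen1 a e x, (t : ℂ)))
      (XL (FLc (cen1 a e x, (s : ℂ)))) s :=
    hasDerivAt_ofReal (F := fun t : ℂ => FLc (cen1 a e x, t)) (hF.2.2.der _ hs)
  refine ⟨g, g0, ?_, hd _ s rfl hder⟩
  have := hasDerivAt_pi.1 hder.snd.snd 7
  rw [hg] at this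
  exact this

/-- the physical part of the arc -/
theorem arc_phys (hF : FlowsStmt) (hR : RealStmt) (hI : IntYStmt) (hP : PhysYStmt)
    {a e h c : ℝ} {y : Yz} (hy : RealY y) (hL : LevY h c a e y) (hl : 0 < y.2.1.re) {s : ℝ}
    (hs : (y, (s : ℂ)) ∈ OY) :
    RealZ (FY (y, s)).1 ∧ nn (FY (y, s)).1 ≠ 0 ∧ dd (FY (y, s)).1 ≠ 0 ∧
    ((FY (y, s)).1 0 = 0 → deriv (fun τ : ℂ => (FY (y, τ)).1 0) s ≠ 0) ∧
    ((FY (y, s)).1 4 = 0 → deriv (fun τ : ℂ => (FY (y, τ)).1 4) s ≠ 0) ∧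
    ((FY (y, s)).1 0 ≠ 0 → (FY (y, s)).1 4 ≠ 0 →
      ham a e (physA (FY (y, s)).1) = h ∧ ang a (physA (FY (y, s)).1) = c ∧
      ∃ g : ℝ, 0 < g ∧ HasDerivAt (fun s : ℝ => (FY (y, s)).1 8) g s ∧
        HasDerivAt (fun s : ℝ => physA (FY (y, s)).1)
          (g • NF (e * a) (e * (1 - a)) (physA (FY (y, s)).1)) s) := by
  obtain ⟨h1, h2⟩ := hR.1 _ s hy hs
  have hD := (hF.1.mem _ hs).2
  obtain ⟨h3, h4, h5, h6⟩ := hP h c a e _ hD h1 ((hI _ _ hs).2.2 _ _ _ _ hL) (h2 hl)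
  have hc : HasDerivAt (fun t : ℂ => FY (y, t)) (XY (FY (y, (s : ℂ)))) (s : ℂ) := hF.1.der _ hs
  have hder : HasDerivAt (fun t : ℝ => FY (y, (t : ℂ))) (XY (FY (y, (s : ℂ)))) s :=
    hasDerivAt_ofReal (F := fun t : ℂ => FY (y, t)) hc
  refine ⟨h1.1, hD.1, h3, fun h0 => ?_, fun h0 => ?_, fun h0 h0' => ?_⟩
  · rw [(hasDerivAt_pi.1 hc.fst 0).deriv]; exact h4 h0
  · rw [(hasDerivAt_pi.1 hc.fst 4).deriv]; exact h5 h0
  · obtain ⟨h7, h8, g, g0, hg, hd⟩ := h6 h0 h0'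
    refine ⟨h7, h8, g, g0, ?_, hd _ s rfl hder.fst⟩
    have := hasDerivAt_pi.1 hder.fst 8
    rw [hg] at this
    exact this

end Asm

open Asm in
theorem halfOf (hF : FlowsStmt) (hIY : IntYStmt) (hR : RealStmt) (hPY : PhysYStmt)
    (hIL : IntLStmt) (hPL : PhysLStmt) (hH : ChartStmt) (hCA : CenAStmt) (hA : AdmStmt)
    (hCB : CenBStmt) (hCC : CenCStmt) (hDir : DirStmt) (hArc : ArcStmt) (hEnc : EncStmt)
    (hEx : ExitStmt) : HalfStmt := by
  intro K hK hd η hη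
  obtain ⟨m, m0, m1, M, M0, hm⟩ := consts hA hK hd
  set η1 := η * m ^ 2 with hη1
  have η10 : 0 < η1 := by positivity
  have hmm : m ^ 2 ≤ m := by nlinarith
  have η1m : η1 ≤ η * m := mul_le_mul_of_nonneg_left hmm hη.le
  have η1η : η1 ≤ η := η1m.trans (by nlinarith)
  obtain ⟨dD, dD0, hD⟩ := hDir K hK hd η1 η10
  obtain ⟨d, d0, hAr⟩ := hArc K hK hd (min η dD) (lt_min hη dD0)
  obtain ⟨η2, η20, hE⟩ := hEx K hK hd (min d η1) (lt_min d0 η10)
  obtain ⟨r1, r10, hEn⟩ := hEnc K hK hd (min η2 η1) (lt_min η20 η10)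
  set r := min r1 (min 1 (min d (η / (M ^ 2 + 1)))) with hr
  have r0 : 0 < r := lt_min r10 (lt_min one_pos (lt_min d0 (by positivity)))
  have rr1 : r ≤ r1 := min_le_left _ _
  have r1' : r ≤ 1 := (min_le_right _ _).trans (min_le_left _ _)
  have rd : r ≤ d := (min_le_right _ _).trans ((min_le_right _ _).trans (min_le_left _ _))
  have rη : r ≤ η / (M ^ 2 + 1) :=
    (min_le_right _ _).trans ((min_le_right _ _).trans (min_le_right _ _))
  have r2 : r ^ 2 ≤ r := by nlinarith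
  obtain ⟨eA, eA0, hAr⟩ := hAr (r ^ 2) (by positivity) (r2.trans rd)
  obtain ⟨eE, eE0, hEn⟩ := hEn r r0 rr1
  refine ⟨min eA eE, lt_min eA0 eE0, fun e e0 he a => ?_⟩
  obtain ⟨hsq, hEn⟩ := hEn e e0 (he.trans_le (min_le_right _ _))
  have heA : ‖(e : ℂ)‖ ≤ eA := by
    rw [Complex.norm_real, Real.norm_eq_abs, abs_of_pos e0]
    exact he.le.trans (min_le_left _ _)
  have sq0 : 0 < Real.sqrt e := Real.sqrt_pos.2 e0
  set S := Real.log (r / Real.sqrt e) with hS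
  have S0 : 0 < S := Real.log_pos ((one_lt_div sq0).2 hsq)
  have key : ∀ k : Xi × ℂ, (a, k) ∈ K →
      lw (FLc (cen1 a e k.1, (S : ℂ))) ≠ 0 ∧ lwt (FLc (cen1 a e k.1, (S : ℂ))) ≠ 0 ∧
      LevL (k.1 1) (k.1 0) a e (FLc (cen1 a e k.1, (S : ℂ))) ∧
      ‖dd (exP a e S k.1).1 - (r ^ 2 : ℝ) * am a k.1 ^ 2 * k.1 4 ^ 2‖ ≤ η1 * r ^ 2 ∧
      ∀ u ∈ Icc (0 : ℝ) 1, (exP a e S k.1, (u : ℂ) * k.2) ∈ OY ∧ ∀ g, BaseArc a k.1 k.2 g →
        ‖arcF a e S (k.1, (u : ℂ) * k.2) - g u‖ ≤ min η dD := by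
    intro k hk
    obtain ⟨hG, h1, h2, h3⟩ := hEn _ hk
    obtain ⟨hO, h4, -⟩ := h1 S ⟨S0.le, le_rfl⟩
    have hL := hIL _ _ _ _ _ _ hO (hCB a e k.1 e0.le hG).2.1
    obtain ⟨w0, w1, h5, h6, h7⟩ := hE _ hk r _ r0 (h4.trans (min_le_left _ _))
      (h2.trans (mul_le_mul_of_nonneg_right (min_le_left _ _) r0.le))
      (h3.trans (mul_le_mul_of_nonneg_right (min_le_left _ _) r0.le))
    obtain ⟨hY, h8, h9, -⟩ := hH.2.2.2.2 _ _ _ _ _ (hF.2.2.mem _ hO).2 hL w0 w1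
    have hle : min d η1 * r ^ 2 ≤ d * r ^ 2 :=
      mul_le_mul_of_nonneg_right (min_le_left _ _) (by positivity)
    have hSt : Start d (r ^ 2) (a, k) (exZ (FLc (cen1 a e k.1, (S : ℂ))))
        (lw (FLc (cen1 a e k.1, (S : ℂ))) * lwt (FLc (cen1 a e k.1, (S : ℂ)))) := by
      refine ⟨h5.trans (min_le_left _ _), hY.2.2.2.1, ?_, ?_⟩
      · rw [h8]; exact h6.trans hle
      · rw [h9]; exact h7.trans hle
    have hP : exP a e S k.1 = (exZ (FLc (cen1 a e k.1, (S : ℂ))),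
        lw (FLc (cen1 a e k.1, (S : ℂ))) * lwt (FLc (cen1 a e k.1, (S : ℂ))), k.1 1, (a : ℂ),
        (e : ℂ)) := by
      simp only [exP, exY, hL.1, hL.2.1]
    refine ⟨w0, w1, hL, ?_, fun u hu => ?_⟩
    · have : dd (exP a e S k.1).1 = lw (FLc (cen1 a e k.1, (S : ℂ))) ^ 2 := h8
      rw [this]
      exact h6.trans (mul_le_mul_of_nonneg_right (min_le_right _ _) (by positivity))
    · have := hAr (e : ℂ) heA _ hk _ _ hSt u hu
      simp only [arcF, hP]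
      exact this
  have zero : ∀ k : Xi × ℂ, (a, k) ∈ K → FY (exP a e S k.1, 0) = exP a e S k.1 := by
    intro k hk
    have := ((key k hk).2.2.2.2 0 ⟨le_rfl, zero_le_one⟩).1
    exact (hF.1.zero _ (hF.1.mem _ this).1).2
  refine ⟨S, encF a e, arcF a e S, S0, ⟨UU a e, VV a e S, UU_open hF hCA a e,
    VV_open hF hCA hH a e S, encF_diff hF hCA hH a e, arcF_diff hF hCA hH a e S,
    fun k hk => ?_⟩, fun k hk g hg u hu => ?_, fun k hk hx => ?_, fun k hk hx => ?_,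
    fun k hk k' hk' hx hne s hs hk1 => ?_, fun k hk hx T hT s hs => ?_, fun k hk hx T hT => ?_⟩
  · obtain ⟨hG, h1, -⟩ := hEn _ hk
    obtain ⟨w0, w1, -, -, h2⟩ := key k hk
    exact ⟨fun s hs => ⟨hG, (h1 s hs).1⟩, fun u hu =>
      ⟨⟨⟨hG, (h1 S ⟨S0.le, le_rfl⟩).1⟩, w0, w1⟩, (h2 u hu).1⟩⟩
  · exact (((key k hk).2.2.2.2 u hu).2 g hg).trans (min_le_left _ _)
  · obtain ⟨hG, h1, -⟩ := hEn _ hk
    obtain ⟨A, A0, hA'⟩ := (hA.2.2.2 _ (hd _ hk)).2.2.2.2.2.2 hx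
    have hmA : m ≤ A := by
      have := (hm _ hk).1
      rwa [hA', Complex.norm_real, Real.norm_eq_abs, abs_of_pos A0] at this
    refine ⟨Real.sqrt e * A, by positivity, fun s hs => ?_⟩
    obtain ⟨hO, -, h2, h3, h4⟩ := h1 s hs
    obtain ⟨h5, h6⟩ := enc_phys hF hR hIL hPL hCB e0 hG hx hO
    have hle : min η2 η1 ≤ η := (min_le_right _ _).trans η1η
    refine ⟨h5, h2.trans hle, h3.trans hle, ?_, h6⟩
    have hsh : 0 ≤ Real.sinh s := Real.sinh_nonneg_iff.2 hs.1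
    have e1 : ((Real.sqrt e * A : ℝ) : ℂ) = Real.sqrt e * am a k.1 := by
      rw [show am a k.1 = A from hA']; push_cast; ring
    rw [e1]
    refine le_trans h4 (mul_le_mul_of_nonneg_right ?_ hsh)
    have : min η2 η1 ≤ η * A :=
      (min_le_right _ _).trans (η1m.trans (mul_le_mul_of_nonneg_left hmA hη.le))
    nlinarith
  · obtain ⟨hG, h1, -⟩ := hEn _ hk
    obtain ⟨w0, w1, hL, -⟩ := key k hk
    have hO := (h1 S ⟨S0.le, le_rfl⟩).1
    have := (hH.2.2.2.2 _ _ _ _ _ (hF.2.2.mem _ hO).2 hL w0 w1).2.2.2.1 a rfl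
    simp only [arcF, zero k hk]
    exact this
  · have hG := (hEn _ hk).1
    have hG' := (hEn _ hk').1
    have z1 := (hF.2.2.zero _ (hCB a e k.1 e0.le hG).1).2
    have z2 := (hF.2.2.zero _ (hCB a e k'.1 e0.le hG').1).2
    simp only [encF]
    rw [z1, z2, hk1]
    exact hCC a e k.1 s e0 hG hx hne hs
  · obtain ⟨hG, h1, -⟩ := hEn _ hk
    obtain ⟨w0, w1, hL, -, h2⟩ := key k hk
    have hO := (h1 S ⟨S0.le, le_rfl⟩).1
    have T0 : 0 < T := by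
      have := (hm _ hk).2.1
      simp only [hT, Complex.ofReal_re] at this
      exact m0.trans_le this
    have hRe := (hR.2 _ S ((hCB a e k.1 e0.le hG).2.2.2 hx).1 hO).1
    obtain ⟨hY, -, -, -, h3⟩ := hH.2.2.2.2 _ _ _ _ _ (hF.2.2.mem _ hO).2 hL w0 w1
    obtain ⟨h4, h5⟩ := h3 hRe hx.2.1
    have hO2 : (exP a e S k.1, (s : ℂ)) ∈ OY := by
      have := (h2 (s / T) ⟨div_nonneg hs.1 T0.le, (div_le_one T0).2 hs.2⟩).1
      have e1 : ((s / T : ℝ) : ℂ) * k.2 = s := by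
        rw [hT]; push_cast; field_simp [Complex.ofReal_ne_zero.2 T0.ne']
      rwa [e1] at this
    have hY' : LevY ((k.1 1).re : ℝ) ((k.1 0).re : ℝ) a e (exP a e S k.1) := by
      rw [re_eq hx.2.1, re_eq hx.1]; exact hY
    exact arc_phys hF hR hIY hPY h4 hY' h5 hO2
  · obtain ⟨-, -, -, h1, h2⟩ := key k hk
    obtain ⟨A, A0, hA'⟩ := (hA.2.2.2 _ (hd _ hk)).2.2.2.2.2.2 hx
    have hA'' : am a k.1 = A := hA'
    have hn : ‖am a k.1‖ = A := by
      rw [hA'', Complex.norm_real, Real.norm_eq_abs, abs_of_pos A0]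
    have hmA : m ≤ A := hn ▸ (hm _ hk).1
    have hMA : A ≤ M := hn ▸ (hm _ hk).2.2
    have hmT : m ≤ T := by
      have := (hm _ hk).2.1
      simpa only [hT, Complex.ofReal_re] using this
    refine ⟨r ^ 2 * A ^ 2, by positivity, ?_, fun g hg u hu => ?_⟩
    · have h3 : r * (M ^ 2 + 1) ≤ η := (le_div_iff₀ (by positivity)).1 rη
      have h4 : A ^ 2 ≤ M ^ 2 := pow_le_pow_left₀ A0.le hMA 2
      calc r ^ 2 * A ^ 2 ≤ r * M ^ 2 := mul_le_mul r2 h4 (by positivity) r0.le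
        _ ≤ η := by nlinarith
    · have hO1 : (exP a e S k.1, k.2) ∈ OY := by
        simpa using (h2 1 ⟨zero_le_one, le_rfl⟩).1
      have htr := (hF.1.traj hO1).2
      have h3 := (hD _ hk g hg (fun u : ℝ => (FY (exP a e S k.1, (u : ℂ) * k.2)).1)
        (fun u : ℝ => (FY (exP a e S k.1, (u : ℂ) * k.2)).2.1) (exP a e S k.1).2.2.1
        (exP a e S k.1).2.2.2.1 (exP a e S k.1).2.2.2.2 (fun v hv => by
          refine ⟨((h2 v hv).2 g hg).trans (min_le_right _ _), ?_⟩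
          have h4 := (htr v hv).2.fst
          have h5 := (hIY _ _ (h2 v hv).1).1
          simp only [XY, h5] at h4
          exact h4) u hu).1
      simp only [Complex.ofReal_zero, zero_mul, zero k hk] at h3
      have e1 : dd (arcF a e S (k.1, (u : ℂ) * k.2)) - ((r ^ 2 * A ^ 2 : ℝ) : ℂ) * k.1 4 ^ 2 -
          dd (g u) = (dd (FY (exP a e S k.1, (u : ℂ) * k.2)).1 - dd (exP a e S k.1).1 - dd (g u)) +
          (dd (exP a e S k.1).1 - (r ^ 2 : ℝ) * am a k.1 ^ 2 * k.1 4 ^ 2) := by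
        rw [hA'']; simp only [arcF]; push_cast; ring
      rw [e1]
      refine (norm_add_le _ _).trans ((add_le_add h3 h1).trans ?_)
      have h5 : m ^ 2 ≤ A ^ 2 := pow_le_pow_left₀ m0.le hmA 2
      have h6 : η1 * u ≤ η * (u * T) := by
        have := mul_le_mul_of_nonneg_right (η1m.trans (mul_le_mul_of_nonneg_left hmT hη.le)) hu.1
        linarith
      have h7 : η1 * r ^ 2 ≤ η * (r ^ 2 * A ^ 2) := by
        have := mul_le_mul_of_nonneg_left h5 (show 0 ≤ η * r ^ 2 by positivity)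
        rw [hη1]; linarith
      linarith

end Pool.Agent.MP_1ba41f_an.S2.FL
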