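import Pool.Agent.MP_1ba41f_an.S2.FL.Spec

/-! The base arcs are orbits of the unperturbed flow. -/

noncomputable section
open Set Complex

namespace Pool.Agent.MP_1ba41f_an.S2.FL

theorem ddS : DdStmt := by
  intro γ v T J u hn hv h
  have c := hasDerivWithinAt_pi.mp h
  have d1 := ((c 4).mul (c 4)).sub ((c 0).mul (c 0))
  have d2 := ((c 5).mul (c 5)).sub ((c 1).mul (c 1))
  constructor
  · refine (d1.congr_deriv ?_).congr (fun _ _ => ?_) ?_
    · rcases hv with ⟨l, h, a, e, rfl⟩ | ⟨k2, k3, rfl⟩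
      · simp only [XA, dD, Pi.smul_apply, smul_eq_mul, Matrix.cons_val]
        field_simp
        simp only [rr2, rr3]
        ring
      · simp only [X0, dD, Pi.smul_apply, smul_eq_mul, Matrix.cons_val]
        field_simp
        ring
    · simp only [dd, pow_two, Pi.sub_apply, Pi.mul_apply]
    · simp only [dd, pow_two, Pi.sub_apply, Pi.mul_apply]
  · refine (d2.congr_deriv ?_).congr (fun _ _ => ?_) ?_
    · rcases hv with ⟨l, h, a, e, rfl⟩ | ⟨k2, k3, rfl⟩
      · simp only [XA, dDt, Pi.smul_apply, smul_eq_mul, Matrix.cons_val]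
        field_simp
        simp only [rr2, rr3]
        ring
      · simp only [X0, dDt, Pi.smul_apply, smul_eq_mul, Matrix.cons_val]
        field_simp
        ring
    · simp only [ddt, pow_two, Pi.sub_apply, Pi.mul_apply]
    · simp only [ddt, pow_two, Pi.sub_apply, Pi.mul_apply]

namespace Base

lemma sq_sq {z : ℂ} (h : Sec z) : sq z * sq z = z := by
  have hz : z ≠ 0 := by
    rintro rfl
    simp [Sec] at h
  rw [sq, ← cpow_add _ _ hz]
  norm_num

lemma const {F : ℝ → ℂ} (h : ∀ u ∈ Icc (0 : ℝ) 1, HasDerivWithinAt F 0 (Icc 0 1) u) :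
    ∀ u ∈ Icc (0 : ℝ) 1, F u = F 0 := fun u hu =>
  (convex_Icc (0 : ℝ) 1).is_const_of_fderivWithin_eq_zero (𝕜 := ℝ)
    (fun x hx => (h x hx).differentiableWithinAt) (fun x hx => by
      rw [(h x hx).hasFDerivWithinAt.fderivWithin (uniqueDiffOn_Icc_zero_one x hx)]
      simp) hu (left_mem_Icc.mpr zero_le_one)

lemma field {k2 k3 h a : ℂ} {z : Az} (ha : a ≠ 0) (ha' : a ≠ 1) (hn : nn z ≠ 0)
    (h2 : z 2 * z 3 + k2 * (z 0 * z 1) = 2) (h3 : z 6 * z 7 + k3 * (z 4 * z 5) = 2)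
    (hh : h = -(a * k2 + (1 - a) * k3) / 2) : XA 1 h a 0 z = X0 k2 k3 z := by
  have hb : 1 - a ≠ 0 := sub_ne_zero.mpr ha'.symm
  have e2 : (1 + 0 * a) * z 2 * z 3 / 2 - 1 = -k2 * rr2 z / 2 := by
    rw [rr2]; linear_combination h2 / 2
  have e3 : (1 + 0 * (1 - a)) * z 6 * z 7 / 2 - 1 = -k3 * rr3 z / 2 := by
    rw [rr3]; linear_combination h3 / 2
  rw [XA, X0, e2, e3, hh]
  funext i
  fin_cases i <;> simp <;> field_simp <;> ring

lemma energy {k : ℝ × Xi × ℂ} (hk : Adm k) : rr2 (coll k.1 k.2.1) ≠ 0 ∧ rr3 (coll k.1 k.2.1) ≠ 0 ∧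
    k.2.1 1 = -(k.1 * kk2 (coll k.1 k.2.1) + (1 - k.1) * kk3 (coll k.1 k.2.1)) / 2 := by
  obtain ⟨a, x, T⟩ := k
  obtain ⟨a0, a1, s2, se, x4, -⟩ := hk
  dsimp only at *
  have q2 := sq_sq s2
  have qe := sq_sq se
  have x2 : x 2 ≠ 0 := by
    intro h
    simp [Sec, h] at s2
  have ha : (a : ℂ) ≠ 0 := by exact_mod_cast a0.ne'
  have hb : (1 : ℂ) - a ≠ 0 := by exact_mod_cast (sub_pos.mpr a1).ne'
  have r2 : rr2 (coll a x) = x 2 := by simpa [rr2, coll] using q2
  have r3 : rr3 (coll a x) = x 2 := by simpa [rr3, coll] using q2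
  have u : (a : ℂ) * (1 - a) * (uu a x * ut a x) = 2 * (x 1 - yy x * yt x / 2 + 1 / x 2) := by
    have : uu a x * ut a x = e2 a x := by
      rw [uu, ut]
      refine Eq.trans ?_ qe
      field_simp
    rw [this, e2]; field_simp
  refine ⟨r2 ▸ x2, r3 ▸ x2, ?_⟩
  have p2 : coll a x 2 * coll a x 3 =
      x 2 * ((yy x - (1 - a) * uu a x) * (yt x - (1 - a) * ut a x)) := by
    simp only [coll, Matrix.cons_val]
    linear_combination ((yy x - (1 - a) * uu a x) * (yt x - (1 - a) * ut a x)) * q2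
  have p3 : coll a x 6 * coll a x 7 = x 2 * ((yy x + a * uu a x) * (yt x + a * ut a x)) := by
    simp only [coll, Matrix.cons_val]
    linear_combination ((yy x + a * uu a x) * (yt x + a * ut a x)) * q2
  rw [kk2, kk3, r2, r3, p2, p3, sub_div, sub_div, mul_div_cancel_left₀ _ x2,
    mul_div_cancel_left₀ _ x2]
  linear_combination (-1 / 2) * u

end Base

theorem baseS (hF : FlowsStmt) : BaseStmt := by
  intro k hk g hg u hu
  obtain ⟨r2, r3, en⟩ := Base.energy hk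
  obtain ⟨g0, hg⟩ := hg
  have ha : (k.1 : ℂ) ≠ 0 := by exact_mod_cast hk.1.ne'
  have ha' : (k.1 : ℂ) ≠ 1 := by exact_mod_cast hk.2.1.ne
  set k2 := kk2 (coll k.1 k.2.1) with hk2
  set k3 := kk3 (coll k.1 k.2.1) with hk3
  have i2 : ∀ s ∈ Icc (0 : ℝ) 1, g s 2 * g s 3 + k2 * (g s 0 * g s 1) = 2 := by
    intro s hs
    rw [Base.const (F := fun s => g s 2 * g s 3 + k2 * (g s 0 * g s 1)) (fun t ht => ?_) s hs]
    · simp only [g0, hk2, kk2]
      rw [← rr2, div_mul_cancel₀ _ r2]; ring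
    · have c := hasDerivWithinAt_pi.mp (hg t ht).2.2
      refine (((c 2).mul (c 3)).add (((c 0).mul (c 1)).const_mul k2)).congr_deriv ?_
      simp only [X0, Pi.smul_apply, smul_eq_mul, Matrix.cons_val]
      ring
  have i3 : ∀ s ∈ Icc (0 : ℝ) 1, g s 6 * g s 7 + k3 * (g s 4 * g s 5) = 2 := by
    intro s hs
    rw [Base.const (F := fun s => g s 6 * g s 7 + k3 * (g s 4 * g s 5)) (fun t ht => ?_) s hs]
    · simp only [g0, hk3, kk3]
      rw [← rr3, div_mul_cancel₀ _ r3]; ring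
    · have c := hasDerivWithinAt_pi.mp (hg t ht).2.2
      refine (((c 6).mul (c 7)).add (((c 4).mul (c 5)).const_mul k3)).congr_deriv ?_
      simp only [X0, Pi.smul_apply, smul_eq_mul, Matrix.cons_val]
      ring
  have mp : MapsTo (fun s : ℝ => u * s) (Icc 0 1) (Icc 0 1) := fun s hs =>
    ⟨mul_nonneg hu.1 hs.1, mul_le_one₀ hu.2 hs.1 hs.2⟩
  have := hF.2.1.max ((u : ℂ) * k.2.2) (fun s => (g (u * s), k.2.1 1, (k.1 : ℂ))) fun s hs =>
    ⟨⟨(hg _ (mp hs)).1, ha, ha'⟩, by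
      have d : HasDerivWithinAt (fun s : ℝ => u * s) u (Icc 0 1) s := by
        simpa using ((hasDerivAt_id s).const_mul u).hasDerivWithinAt
      have e := HasDerivWithinAt.scomp s (hg _ (mp hs)).2.2 d mp
      refine (e.prodMk (hasDerivWithinAt_const s _ (k.2.1 1, (k.1 : ℂ)))).congr_deriv ?_
      simp only [XR]
      rw [Base.field ha ha' (hg _ (mp hs)).1 (i2 _ (mp hs)) (i3 _ (mp hs)) en, Prod.smul_mk,
        mul_smul, ← Complex.coe_algebraMap, algebraMap_smul]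
      simp [Prod.ext_iff]⟩
  simpa [g0] using this

theorem tubeS (hF : FlowsStmt) (hA : AdmStmt) (hB : BaseStmt) : TubeStmt := by
  refine ⟨fun p => (FR ((coll p.1.1 p.1.2.1, p.1.2.1 1, (p.1.1 : ℂ)), (p.2 : ℂ) * p.1.2.2)).1, ?_,
    fun k hk g hg u hu => (congrArg Prod.fst (hB k hk g hg u hu).2).symm⟩
  refine continuous_fst.comp_continuousOn (hF.2.1.hol.continuousOn.comp ?_ ?_)
  · refine ContinuousOn.prodMk (ContinuousOn.prodMk ?_ (by fun_prop)) (by fun_prop)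
    exact hA.2.2.1.comp continuousOn_fst fun p hp => hp.1
  · rintro ⟨k, u⟩ ⟨hk, hu⟩
    obtain ⟨g, hg⟩ := hk.2.2.2.2.2.2.2.2
    exact (hB k hk g hg u hu).1

end Pool.Agent.MP_1ba41f_an.S2.FL
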