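import Pool.Agent.MP_1ba41f_an.S2.FL.Spec

/-! The nonlinear terms at an encounter are quadratic in the fast variables. -/

noncomputable section
open Set Metric

namespace Pool.Agent.MP_1ba41f_an.S2.FL

namespace Bnd

/-- Complex scaling of the fast variables. -/
def scC (t : ℂ) (p : Lc) : Lc := (t • p.1, t • p.2.1, p.2.2)

lemma ln_sc (t : ℂ) (p : Lc) : ln (scC t p) = t ^ 3 • ln p := by
  refine Prod.ext ?_ ?_ <;>
  · simp only [ln, scC, lk, lw, lwt, lm, lmt, lF, lFt, Prod.smul_fst, Prod.smul_snd, smul_eq_mul]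
    ring

lemma lN_sc (t : ℂ) (p : Lc) : lN (scC t p) = t ^ 2 • lN p := by
  funext i
  fin_cases i <;>
    simp [lN, scC, lk, lw, lwt, lm, lmt, lF, lFt] <;> ring

lemma isOpen_DZ : IsOpen DZ :=
  (isOpen_ne_fun (by fun_prop) continuous_const).inter
    ((isOpen_ne_fun (by fun_prop) continuous_const).inter
      ((isOpen_ne_fun (by fun_prop) continuous_const).inter
        ((isOpen_ne_fun (by fun_prop) continuous_const).inter
          (isOpen_ne_fun (by fun_prop) continuous_const))))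

lemma cont_ln {p : Lc} (hp : p ∈ DL) : ContinuousAt ln p := by
  obtain ⟨h0, h3, h4, h5, h6⟩ := hp
  unfold ln lk lw lwt lm lmt lF lFt
  fun_prop (disch := simp [h0, h3, h4, h5, h6])

lemma cont_lN {p : Lc} (hp : p ∈ DL) : ContinuousAt lN p := by
  obtain ⟨h0, h3, h4, h5, h6⟩ := hp
  refine continuousAt_pi.2 fun i => ?_
  fin_cases i <;> simp only [lN, lk, lw, lwt, lm, lmt, lF, lFt, Fin.zero_eta, Fin.mk_one,
    Fin.reduceFinMk, Matrix.cons_val] <;> fun_prop (disch := simp [h0, h3, h4, h5, h6])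

lemma norm_sc {m : ℝ} {v : ℂ × ℂ} (h : ‖v‖ ≤ m) : ‖((m : ℂ)⁻¹) • v‖ ≤ 1 := by
  have hm : 0 ≤ m := (norm_nonneg _).trans h
  rw [norm_smul, norm_inv, Complex.norm_real, Real.norm_of_nonneg hm]
  exact inv_mul_le_one_of_le₀ h hm

lemma sc_sc {m : ℝ} {v : ℂ × ℂ} (h : ‖v‖ ≤ m) : (m : ℂ) • ((m : ℂ)⁻¹) • v = v := by
  rcases eq_or_ne m 0 with rfl | hm
  · rw [norm_le_zero_iff.1 h, smul_zero, smul_zero]
  · rw [smul_smul, mul_inv_cancel₀ (Complex.ofReal_ne_zero.2 hm), one_smul]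

end Bnd

open Bnd in
theorem bndS : BndStmt := by
  intro K hK hKD
  obtain ⟨d, hd, hdK⟩ := hK.exists_cthickening_subset_open isOpen_DZ hKD
  let Q : Set Lc := closedBall 0 1 ×ˢ closedBall 0 1 ×ˢ cthickening d K
  have hQ : IsCompact Q :=
    (isCompact_closedBall _ _).prod ((isCompact_closedBall _ _).prod hK.cthickening)
  have hQD : Q ⊆ DL := fun p hp => hdK hp.2.2
  obtain ⟨c1, h1⟩ := hQ.exists_bound_of_continuousOn (f := ln)
    fun p hp => (cont_ln (hQD hp)).continuousWithinAt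
  obtain ⟨c2, h2⟩ := hQ.exists_bound_of_continuousOn (f := lN)
    fun p hp => (cont_lN (hQD hp)).continuousWithinAt
  refine ⟨max 1 (max c1 c2), lt_max_of_lt_left one_pos, d, hd, 1, one_pos,
    fun ζ hζ p a1 a2 a3 => ?_⟩
  have hz : p.2.2 ∈ cthickening d K := mem_cthickening_of_dist_le _ ζ d K hζ (by rwa [dist_eq_norm])
  set m := max ‖p.1‖ ‖p.2.1‖ with hm
  have m0 : 0 ≤ m := le_max_of_le_left (norm_nonneg _)
  have m1 : m ≤ 1 := max_le a1 a2
  have hp' : scC ((m : ℂ)⁻¹) p ∈ Q :=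
    ⟨mem_closedBall_zero_iff.2 (norm_sc (le_max_left _ _)),
      mem_closedBall_zero_iff.2 (norm_sc (le_max_right _ _)), hz⟩
  have e : scC m (scC ((m : ℂ)⁻¹) p) = p :=
    Prod.ext (sc_sc (le_max_left _ _)) (Prod.ext (sc_sc (le_max_right _ _)) rfl)
  have b1 := (h1 _ hp').trans ((le_max_left c1 c2).trans (le_max_right 1 _))
  have b2 := (h2 _ hp').trans ((le_max_right c1 c2).trans (le_max_right 1 _))
  refine ⟨hdK hz, ?_, ?_⟩
  · have e1 := ln_sc m (scC ((m : ℂ)⁻¹) p)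
    rw [e] at e1
    rw [e1, norm_smul, norm_pow, Complex.norm_real, Real.norm_of_nonneg m0, mul_comm]
    exact mul_le_mul b1 (pow_le_pow_of_le_one m0 m1 (by norm_num)) (by positivity) (by positivity)
  · have e1 := lN_sc m (scC ((m : ℂ)⁻¹) p)
    rw [e] at e1
    rw [e1, norm_smul, norm_pow, Complex.norm_real, Real.norm_of_nonneg m0, mul_comm]
    exact mul_le_mul_of_nonneg_right b2 (by positivity)

end Pool.Agent.MP_1ba41f_an.S2.FL
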