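import Pool.Agent.MP_1ba41f_an.S2.FL.Spec

/-! The centre of an encounter is holomorphic; its value at `e = 0`. -/

noncomputable section
open Set Complex Filter Topology

namespace Pool.Agent.MP_1ba41f_an.S2.FL

namespace CenA

theorem dsq {z : ℂ} (h : z ∈ slitPlane) : DifferentiableAt ℂ sq z :=
  differentiableAt_id.cpow_const h

theorem sq_ne {z : ℂ} (h : z ∈ slitPlane) : sq z ≠ 0 := by
  unfold sq
  rw [Ne, cpow_eq_zero_iff]
  exact fun h' => slitPlane_ne_zero h h'.1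

theorem sq_mul (z : ℂ) : sq z * sq z = z := by
  have := cpow_nat_inv_pow z two_ne_zero
  unfold sq
  rw [← pow_two, one_div]
  exact_mod_cast this

theorem dv {f g : Cq → ℂ} {q : Cq} (hf : DifferentiableAt ℂ f q)
    (hg : DifferentiableAt ℂ g q) (h : g q ≠ 0) : DifferentiableAt ℂ (fun q => f q / g q) q := by
  simp only [div_eq_mul_inv]
  exact hf.mul (hg.inv h)

/-- All functions of the construction are differentiable at a point. -/
structure Df (q : Cq) : Prop where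
  B : DifferentiableAt ℂ (fun q : Cq => cB q.2.2) q
  E : DifferentiableAt ℂ cE q
  A : DifferentiableAt ℂ cA q
  q2 : DifferentiableAt ℂ cq2 q
  q2t : DifferentiableAt ℂ cq2t q
  q3 : DifferentiableAt ℂ cq3 q
  q3t : DifferentiableAt ℂ cq3t q
  a2 : DifferentiableAt ℂ ca2 q
  di : DifferentiableAt ℂ cdi q
  Q : DifferentiableAt ℂ ccQ q
  kk : DifferentiableAt ℂ ckk q
  nu : DifferentiableAt ℂ cnu q

theorem df {q : Cq} (h : q ∈ Gd) : Df q := by
  obtain ⟨h1, h2, h3, h4, h5, h6, h7, h8, h9, h10, h11, h12, h13, h14⟩ := h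
  have n1 : q.1 * (1 - q.1) ≠ 0 := mul_ne_zero h1 (sub_ne_zero.2 h2.symm)
  have n2 : q.2.2 2 ^ 2 ≠ 0 := pow_ne_zero _ h3
  have n3 : 2 * q.2.2 2 ^ 2 ≠ 0 := mul_ne_zero two_ne_zero n2
  have n4 : sq (cB q.2.2) * sq (cE q) ≠ 0 := mul_ne_zero (sq_ne h6) (sq_ne h7)
  have n5 : cB q.2.2 * cE q ≠ 0 := mul_ne_zero (slitPlane_ne_zero h6) (slitPlane_ne_zero h7)
  have n6 : sq (cq2 q) * sq (cq2t q) ≠ 0 := mul_ne_zero (sq_ne h8) (sq_ne h9)
  have n7 : sq (cq3 q) * sq (cq3t q) ≠ 0 := mul_ne_zero (sq_ne h10) (sq_ne h11)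
  have x : ∀ i, DifferentiableAt ℂ (fun q : Cq => q.2.2 i) q := fun i => by fun_prop
  have a : DifferentiableAt ℂ (fun q : Cq => q.1) q := by fun_prop
  have e : DifferentiableAt ℂ (fun q : Cq => q.2.1) q := by fun_prop
  have c : ∀ z : ℂ, DifferentiableAt ℂ (fun _ : Cq => z) q := fun z => differentiableAt_const z
  have b := (c 1).sub a
  have e1 := (c 1).add e
  have B : DifferentiableAt ℂ (fun q : Cq => cB q.2.2) q :=
    (dv (x 4) (x 5) h5).add (dv (x 5) (x 4) h4)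
  have J : DifferentiableAt ℂ (fun q : Cq => cJ q.2.2) q :=
    dv ((dv (x 5) (x 4) h4).sub (dv (x 4) (x 5) h5)) (c I) I_ne_zero
  have E : DifferentiableAt ℂ cE q :=
    dv ((c 2).mul (((x 1).sub (dv ((dv ((x 3).add ((c I).mul (x 0))) (x 2) h3).mul
      (dv ((x 3).sub ((c I).mul (x 0))) (x 2) h3)) (c 2) two_ne_zero)).add
      (dv (c 1) (x 2) h3))) (a.mul b) n1
  have A : DifferentiableAt ℂ cA q :=
    dv (c 1) (((dsq h6).comp q B).mul ((dsq h7).comp q E)) n4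
  have AA : DifferentiableAt ℂ cAA q := dv e (B.mul E) n5
  have D : DifferentiableAt ℂ cD q := AA.mul (((x 4).sub (x 5)).pow 2)
  have Dt : DifferentiableAt ℂ cDt q :=
    AA.mul (((dv (c 1) (x 4) h4).sub (dv (c 1) (x 5) h5)).pow 2)
  have q2 : DifferentiableAt ℂ cq2 q := (x 2).sub (b.mul D)
  have q2t : DifferentiableAt ℂ cq2t q := (x 2).sub (b.mul Dt)
  have q3 : DifferentiableAt ℂ cq3 q := (x 2).add (a.mul D)
  have q3t : DifferentiableAt ℂ cq3t q := (x 2).add (a.mul Dt)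
  have K : ∀ f : Cq → ℂ, DifferentiableAt ℂ f q → DifferentiableAt ℂ (fun q => cK q (f q)) q :=
    fun f hf => dv ((c 2).mul ((((x 1).sub (dv (e1.mul (((x 3).pow 2).add (hf.pow 2)))
      ((c 2).mul ((x 2).pow 2)) n3)).add
      (dv a (((dsq h8).comp q q2).mul ((dsq h9).comp q q2t)) n6)).add
      (dv b (((dsq h10).comp q q3).mul ((dsq h11).comp q q3t)) n7))) (a.mul b) n1
  have al : DifferentiableAt ℂ cal q := dv (((e1.mul (x 0)).mul AA).mul J) ((x 2).pow 2) n2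
  have ga : DifferentiableAt ℂ cga q :=
    dv (((e1.mul a).mul b).mul ((AA.mul J).pow 2)) ((x 2).pow 2) n2
  have B2 := (c 2).sub B
  have a2 : DifferentiableAt ℂ ca2 q := ((c 2).add B).add (B2.mul ga)
  have m : DifferentiableAt ℂ cm q := dv (B2.mul al) a2 h12
  have di : DifferentiableAt ℂ cdi q :=
    (m.pow 2).add (dv ((((c 2).mul B).mul E).add (B2.mul (K _ (x 0)))) a2 h12)
  have xx : DifferentiableAt ℂ cx q := m.add ((dsq h13).comp q di)
  have Q : DifferentiableAt ℂ ccQ q := (x 0).sub ((((a.mul b).mul AA).mul J).mul xx)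
  have kk : DifferentiableAt ℂ ckk q := K _ Q
  have nu : DifferentiableAt ℂ cnu q := dv xx ((dsq h14).comp q kk) (sq_ne h14)
  exact ⟨B, E, A, q2, q2t, q3, q3t, a2, di, Q, kk, nu⟩

theorem isOpen_Gd : IsOpen Gd := by
  refine isOpen_iff_mem_nhds.2 fun q h => ?_
  have d := df h
  obtain ⟨h1, h2, h3, h4, h5, h6, h7, h8, h9, h10, h11, h12, h13, h14⟩ := h
  have s : ∀ {f : Cq → ℂ}, DifferentiableAt ℂ f q → f q ∈ slitPlane →
      ∀ᶠ p in 𝓝 q, f p ∈ slitPlane := fun hf hq =>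
    hf.continuousAt.preimage_mem_nhds (isOpen_slitPlane.mem_nhds hq)
  have x : ∀ i, ContinuousAt (fun q : Cq => q.2.2 i) q := fun i => by fun_prop
  have a : ContinuousAt (fun q : Cq => q.1) q := by fun_prop
  filter_upwards [a.eventually_ne h1, a.eventually_ne h2, (x 2).eventually_ne h3,
    (x 4).eventually_ne h4, (x 5).eventually_ne h5, s d.B h6, s d.E h7, s d.q2 h8, s d.q2t h9,
    s d.q3 h10, s d.q3t h11, d.a2.continuousAt.eventually_ne h12, s d.di h13, s d.kk h14]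
    with p g1 g2 g3 g4 g5 g6 g7 g8 g9 g10 g11 g12 g13 g14
  exact ⟨g1, g2, g3, g4, g5, g6, g7, g8, g9, g10, g11, g12, g13, g14⟩

theorem d_cen {q : Cq} (h : q ∈ Gd) : DifferentiableAt ℂ cen q := by
  have d := df h
  obtain ⟨h1, h2, h3, h4, h5, h6, h7, h8, h9, h10, h11, h12, h13, h14⟩ := h
  have x : ∀ i, DifferentiableAt ℂ (fun q : Cq => q.2.2 i) q := fun i => by fun_prop
  have c : ∀ z : ℂ, DifferentiableAt ℂ (fun _ : Cq => z) q := fun z => differentiableAt_const z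
  have i4 := dv (c 1) (x 4) h4
  have i5 := dv (c 1) (x 5) h5
  refine DifferentiableAt.prodMk (DifferentiableAt.prodMk ?_ ?_)
    (DifferentiableAt.prodMk (DifferentiableAt.prodMk ?_ ?_) ?_)
  · exact d.A.mul (((x 4).sub (x 5)).add (d.nu.mul ((x 4).add (x 5))))
  · exact d.A.mul ((i4.sub i5).add (d.nu.mul (i4.add i5)))
  · exact d.A.mul (((x 4).sub (x 5)).sub (d.nu.mul ((x 4).add (x 5))))
  · exact d.A.mul ((i4.sub i5).sub (d.nu.mul (i4.add i5)))
  · refine differentiableAt_pi.2 fun i => ?_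
    fin_cases i
    · exact dv ((dsq h14).comp q d.kk) (c 2) two_ne_zero
    · exact dv ((x 3).add ((c I).mul d.Q)) (x 2) h3
    · exact dv ((x 3).sub ((c I).mul d.Q)) (x 2) h3
    · exact (dsq h8).comp q d.q2
    · exact (dsq h9).comp q d.q2t
    · exact (dsq h10).comp q d.q3
    · exact (dsq h11).comp q d.q3t
    · exact c 0
    · exact differentiableAt_fst
    · exact differentiableAt_snd.fst

theorem sec_pos {z : ℂ} (h : Sec z) : 0 < z.re := by
  unfold Sec at h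
  linarith [abs_nonneg z.im]

theorem sec_slit {z : ℂ} (h : Sec z) : z ∈ slitPlane := Or.inl (sec_pos h)

end CenA

open CenA in
theorem cenAS : CenAStmt := by
  refine ⟨isOpen_Gd, fun q hq => (d_cen hq).differentiableWithinAt, ?_⟩
  rintro ⟨a, x, T⟩ ⟨h1, h2, h3, h4, h5, h6, h7, -, -⟩
  dsimp only at h1 h2 h3 h4 h5 h6 h7 ⊢
  have a0 : (a : ℂ) ≠ 0 := by exact_mod_cast h1.ne'
  have a1 : (a : ℂ) ≠ 1 := by exact_mod_cast h2.ne
  have a2 : (1 : ℂ) - a ≠ 0 := sub_ne_zero.2 a1.symm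
  have x2 : x 2 ≠ 0 := slitPlane_ne_zero (sec_slit h3)
  have B2 : 2 + cB x ≠ 0 := by
    intro h
    have h' := congrArg re h
    have := sec_pos h7
    simp only [add_re, zero_re, re_ofNat, cB] at h' this
    linarith
  have vE : cE ((a : ℂ), 0, x) = e2 a x := rfl
  have vAA : cAA ((a : ℂ), 0, x) = 0 := by simp [cAA]
  have v2 : cq2 ((a : ℂ), 0, x) = x 2 := by simp [cq2, cD, vAA]
  have v2t : cq2t ((a : ℂ), 0, x) = x 2 := by simp [cq2t, cDt, vAA]
  have v3 : cq3 ((a : ℂ), 0, x) = x 2 := by simp [cq3, cD, vAA]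
  have v3t : cq3t ((a : ℂ), 0, x) = x 2 := by simp [cq3t, cDt, vAA]
  have vK : cK ((a : ℂ), 0, x) (x 0) = e2 a x := by
    simp only [cK, v2, v2t, v3, v3t, sq_mul, e2, yy, yt]
    field_simp
    linear_combination (-(x 0 ^ 2)) * I_sq
  have va : ca2 ((a : ℂ), 0, x) = 2 + cB x := by simp [ca2, cga, vAA]
  have vm : cm ((a : ℂ), 0, x) = 0 := by simp [cm, cal, vAA]
  have vd : cdi ((a : ℂ), 0, x) = e2 a x := by
    simp only [cdi, vm, va, vK, vE]
    field_simp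
    ring
  have vQ : ccQ ((a : ℂ), 0, x) = x 0 := by simp [ccQ, vAA]
  have vk : ckk ((a : ℂ), 0, x) = e2 a x := by rw [ckk, vQ, vK]
  have vn : cnu ((a : ℂ), 0, x) = 1 := by
    rw [cnu, cx, vm, vd, vk, zero_add, div_self (sq_ne (sec_slit h4))]
  refine ⟨⟨a0, a1, x2, h5, h6, sec_slit h7, sec_slit h4, v2 ▸ sec_slit h3, v2t ▸ sec_slit h3,
    v3 ▸ sec_slit h3, v3t ▸ sec_slit h3, va ▸ B2, vd ▸ sec_slit h4, vk ▸ sec_slit h4⟩, ?_⟩
  simp only [cen, vn, vk, vQ, v2, v2t, v3, v3t, ze, yy, yt, am]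
  refine Prod.ext (Prod.ext ?_ ?_) (Prod.ext (Prod.ext ?_ ?_) rfl) <;> dsimp only <;> ring

end Pool.Agent.MP_1ba41f_an.S2.FL
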