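import Pool.Agent.MP_1ba41f_an.S2.FL.Spec

/-! The centre of an encounter: level set, reality, mirror symmetry. -/

noncomputable section
open Set Complex
open scoped ComplexConjugate

namespace Pool.Agent.MP_1ba41f_an.S2.FL

namespace CenB

theorem sq_sq (z : ℂ) : sq z ^ 2 = z := by
  rw [sq, one_div]; exact cpow_ofNat_inv_pow z 2

theorem sq_ne {z : ℂ} (h : z ∈ slitPlane) : sq z ≠ 0 := fun e =>
  slitPlane_ne_zero h (by rw [← sq_sq z, e]; simp)

theorem conj_sq {z : ℂ} (h : z ∈ slitPlane) : conj (sq z) = sq (conj z) := by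
  rw [sq, sq, conj_cpow _ _ (slitPlane_arg_ne_pi h), map_div₀, map_one, map_ofNat]

theorem sq_re {z : ℂ} (h : z ∈ slitPlane) : 0 < (sq z).re := by
  rw [sq, cpow_def_of_ne_zero (slitPlane_ne_zero h), exp_re]
  refine mul_pos (Real.exp_pos _) (Real.cos_pos_of_mem_Ioo ?_)
  have e : (log z * (1 / 2)).im = z.arg / 2 := by simp [log_im]; ring
  have h1 := neg_pi_lt_arg z
  have h2 := lt_of_le_of_ne (arg_le_pi z) (slitPlane_arg_ne_pi h)
  rw [e]
  constructor <;> linarith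

variable {a e : ℝ} {x : Xi}

theorem lw_eq (l : ℝ) (q : Cq) : lw (sc l (cen q)) = l * cA q * (q.2.2 4 - q.2.2 5) := by
  simp only [lw, sc, cen, Prod.smul_fst, real_smul]; ring

theorem lwt_eq (l : ℝ) (q : Cq) :
    lwt (sc l (cen q)) = l * cA q * (1 / q.2.2 4 - 1 / q.2.2 5) := by
  simp only [lwt, sc, cen, Prod.smul_snd, real_smul]; ring

theorem lm_eq (l : ℝ) (q : Cq) : lm (sc l (cen q)) = l * cA q * cnu q * (q.2.2 4 + q.2.2 5) := by
  simp only [lm, sc, cen, Prod.smul_fst, real_smul]; ring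

theorem lmt_eq (l : ℝ) (q : Cq) :
    lmt (sc l (cen q)) = l * cA q * cnu q * (1 / q.2.2 4 + 1 / q.2.2 5) := by
  simp only [lmt, sc, cen, Prod.smul_snd, real_smul]; ring

theorem amp (he : 0 ≤ e) :
    ((Real.sqrt e : ℝ) * cA ((a : ℂ), (e : ℂ), x)) ^ 2 = cAA ((a : ℂ), (e : ℂ), x) := by
  rw [mul_pow, ← ofReal_pow, Real.sq_sqrt he, cA, div_pow, mul_pow, sq_sq, sq_sq, cAA]
  ring

theorem ckk_eq {q : Cq} (h : q ∈ Gd) :
    ckk q = cK q (q.2.2 0) + 2 * cal q * cx q - cga q * cx q ^ 2 := by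
  obtain ⟨h0, h1, h2, -⟩ := h
  have h1' : 1 - q.1 ≠ 0 := sub_ne_zero.2 h1.symm
  simp only [ckk, cK, ccQ, cal, cga]
  generalize q.1 / (sq (cq2 q) * sq (cq2t q)) = u
  generalize (1 - q.1) / (sq (cq3 q) * sq (cq3t q)) = v
  field_simp
  ring

theorem key {q : Cq} (h : q ∈ Gd) :
    cx q ^ 2 * (2 + cB q.2.2) - ckk q * (2 - cB q.2.2) = 2 * cB q.2.2 * cE q := by
  have h2 : ca2 q ≠ 0 := h.2.2.2.2.2.2.2.2.2.2.2.1
  have e1 : (cx q - cm q) ^ 2 = cdi q := by rw [cx, add_sub_cancel_left, sq_sq]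
  have e2 : cm q * ca2 q = (2 - cB q.2.2) * cal q := by rw [cm]; field_simp
  have e3 : (cdi q - cm q ^ 2) * ca2 q =
      2 * cB q.2.2 * cE q + (2 - cB q.2.2) * cK q (q.2.2 0) := by rw [cdi]; field_simp; ring
  have e4 : ca2 q = 2 + cB q.2.2 + (2 - cB q.2.2) * cga q := rfl
  rw [ckk_eq h]
  linear_combination ca2 q * e1 + e3 + 2 * cx q * e2 - cx q ^ 2 * e4

theorem lev (l : ℝ) {q : Cq} (h : q ∈ Gd) (hl : (l * cA q) ^ 2 = cAA q) :
    LevL (q.2.2 1) (q.2.2 0) q.1 q.2.1 (sc l (cen q)) := by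
  have hk := key h
  obtain ⟨h0, h1, h2, h4, h5, hB, hE, -, -, -, -, -, -, hkk⟩ := h
  have h1' : 1 - q.1 ≠ 0 := sub_ne_zero.2 h1.symm
  have k0 := sq_ne hkk
  have n : cnu q * sq (ckk q) = cx q := by rw [cnu]; field_simp
  have s := sq_sq (ckk q)
  have b1 : (q.2.2 4 + q.2.2 5) * (1 / q.2.2 4 + 1 / q.2.2 5) = 2 + cB q.2.2 := by
    rw [cB]; field_simp; ring
  have b2 : (q.2.2 4 - q.2.2 5) * (1 / q.2.2 4 - 1 / q.2.2 5) = 2 - cB q.2.2 := by
    rw [cB]; field_simp; ring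
  have b3 : (1 / q.2.2 4 - 1 / q.2.2 5) * (q.2.2 4 + q.2.2 5) -
      (q.2.2 4 - q.2.2 5) * (1 / q.2.2 4 + 1 / q.2.2 5) = 2 * I * cJ q.2.2 := by
    rw [cJ]; field_simp; ring
  have b4 : cAA q * (cB q.2.2 * cE q) = q.2.1 := by
    rw [cAA, div_mul_cancel₀ _ (mul_ne_zero (slitPlane_ne_zero hB) (slitPlane_ne_zero hE))]
  refine ⟨rfl, rfl, ?_, ?_, ?_, ?_, ?_⟩
  · rw [CL, lw_eq, lwt_eq, lm_eq, lmt_eq]
    change 2 * (sq (ckk q) / 2) ^ 2 * _ = _
    have e : 2 * (sq (ckk q) / 2) ^ 2 * (l * cA q * cnu q * (q.2.2 4 + q.2.2 5) *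
        (l * cA q * cnu q * (1 / q.2.2 4 + 1 / q.2.2 5)) - l * cA q * (q.2.2 4 - q.2.2 5) *
        (l * cA q * (1 / q.2.2 4 - 1 / q.2.2 5))) = (l * cA q) ^ 2 / 2 *
        ((cnu q * sq (ckk q)) ^ 2 * ((q.2.2 4 + q.2.2 5) * (1 / q.2.2 4 + 1 / q.2.2 5)) -
          sq (ckk q) ^ 2 * ((q.2.2 4 - q.2.2 5) * (1 / q.2.2 4 - 1 / q.2.2 5))) := by ring
    rw [e, hl, n, s, b1, b2, hk]
    linear_combination b4
  · rw [lw_eq]
    change sq (cq3 q) ^ 2 - sq (cq2 q) ^ 2 = _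
    rw [sq_sq, sq_sq, mul_pow, hl, cq3, cq2, cD]
    ring
  · rw [lwt_eq]
    change sq (cq3t q) ^ 2 - sq (cq2t q) ^ 2 = _
    rw [sq_sq, sq_sq, mul_pow, hl, cq3t, cq2t, cDt]
    ring
  · change (1 + q.2.1) * ((q.2.2 3 + I * ccQ q) / q.2.2 2) * ((q.2.2 3 - I * ccQ q) / q.2.2 2) / 2 +
      2 * q.1 * (1 - q.1) * (sq (ckk q) / 2) ^ 2 - q.1 / (sq (cq2 q) * sq (cq2t q)) -
      (1 - q.1) / (sq (cq3 q) * sq (cq3t q)) = _
    rw [div_pow, s, ckk, cK]
    generalize q.1 / (sq (cq2 q) * sq (cq2t q)) = u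
    generalize (1 - q.1) / (sq (cq3 q) * sq (cq3t q)) = v
    field_simp
    linear_combination (-(1 + q.2.1) * ccQ q ^ 2) * I_sq
  · rw [AL, lw_eq, lwt_eq, lm_eq, lmt_eq]
    change ((q.1 * sq (cq2t q) ^ 2 + (1 - q.1) * sq (cq3t q) ^ 2) *
      ((q.2.2 3 + I * ccQ q) / q.2.2 2) - (q.1 * sq (cq2 q) ^ 2 + (1 - q.1) * sq (cq3 q) ^ 2) *
      ((q.2.2 3 - I * ccQ q) / q.2.2 2) + 2 * q.1 * (1 - q.1) * (sq (ckk q) / 2) * _) / _ = _
    have r1 : q.1 * cq2t q + (1 - q.1) * cq3t q = q.2.2 2 := by rw [cq2t, cq3t]; ring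
    have r2 : q.1 * cq2 q + (1 - q.1) * cq3 q = q.2.2 2 := by rw [cq2, cq3]; ring
    have r3 : ccQ q = q.2.2 0 - q.1 * (1 - q.1) * cAA q * cJ q.2.2 * cx q := rfl
    rw [sq_sq, sq_sq, sq_sq, sq_sq, r1, r2, mul_div_cancel₀ _ h2, mul_div_cancel₀ _ h2,
      div_eq_iff (mul_ne_zero two_ne_zero I_ne_zero)]
    linear_combination 2 * I * r3 + q.1 * (1 - q.1) * (sq (ckk q) * cnu q * (l * cA q) ^ 2 * b3 +
      2 * I * cJ q.2.2 * (l * cA q) ^ 2 * n + 2 * I * cJ q.2.2 * cx q * hl)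

/-- Reality of the centre data. -/
structure Re (q : Cq) : Prop where
  a : conj q.1 = q.1
  x2 : conj (q.2.2 2) = q.2.2 2
  x3 : conj (q.2.2 3) = q.2.2 3
  x4 : conj (q.2.2 4) = 1 / q.2.2 4
  x5 : conj (q.2.2 5) = 1 / q.2.2 5
  q2 : conj (cq2 q) = cq2t q
  q3 : conj (cq3 q) = cq3t q
  d : conj (cD q) = cDt q
  cQ : conj (ccQ q) = ccQ q
  kk : conj (sq (ckk q)) = sq (ckk q)
  nu : conj (cnu q) = cnu q
  cA : conj (cA q) = cA q

theorem re (h : ((a : ℂ), (e : ℂ), x) ∈ Gd) (hx : RealXi x) : Re ((a : ℂ), (e : ℂ), x) := by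
  obtain ⟨r0, r1, r2, r3, r4, r5⟩ := hx
  rw [← conj_eq_iff_im] at r0 r1 r2 r3
  have x4 : conj (x 4) = 1 / x 4 := by rw [one_div, inv_eq_conj r4]
  have x5 : conj (x 5) = 1 / x 5 := by rw [one_div, inv_eq_conj r5]
  have ra : conj ((a : ℂ), (e : ℂ), x).1 = ((a : ℂ), (e : ℂ), x).1 := conj_ofReal a
  have re : conj ((a : ℂ), (e : ℂ), x).2.1 = ((a : ℂ), (e : ℂ), x).2.1 := conj_ofReal e
  have hq : ((a : ℂ), (e : ℂ), x).2.2 = x := rfl
  generalize ((a : ℂ), (e : ℂ), x) = q at h ra re hq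
  subst hq
  obtain ⟨-, -, -, h4, h5, hB, hE, h2, h2t, h3, h3t, -, hdi, hkk⟩ := h
  have two : conj (2 : ℂ) = 2 := map_ofNat _ 2
  have B : conj (cB q.2.2) = cB q.2.2 := by
    simp only [cB, map_add, map_div₀, x4, x5]; field_simp; ring
  have J : conj (cJ q.2.2) = cJ q.2.2 := by
    simp only [cJ, map_sub, map_div₀, x4, x5, conj_I]; field_simp; ring
  have E : conj (cE q) = cE q := by
    simp only [cE, yy, yt, map_add, map_sub, map_mul, map_div₀, map_one, two, r0, r1, r2, r3, ra,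
      conj_I]
    ring
  have AA : conj (cAA q) = cAA q := by simp only [cAA, map_div₀, map_mul, B, E, re]
  have D : conj (cD q) = cDt q := by
    simp only [cD, cDt, map_mul, map_pow, map_sub, AA, x4, x5]
  have q2 : conj (cq2 q) = cq2t q := by
    simp only [cq2, cq2t, map_mul, map_sub, map_one, D, r2, ra]
  have q3 : conj (cq3 q) = cq3t q := by simp only [cq3, cq3t, map_mul, map_add, D, r2, ra]
  have q2t : conj (cq2t q) = cq2 q := by rw [← q2, conj_conj]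
  have q3t : conj (cq3t q) = cq3 q := by rw [← q3, conj_conj]
  have K : ∀ c, conj c = c → conj (cK q c) = cK q c := fun c hc => by
    simp only [cK, map_add, map_sub, map_mul, map_div₀, map_one, map_pow, two, r1, r2, r3, ra, re,
      hc, conj_sq h2, conj_sq h2t, conj_sq h3, conj_sq h3t, q2, q3, q2t, q3t]
    rw [mul_comm (sq (cq2t q)), mul_comm (sq (cq3t q))]
  have al : conj (cal q) = cal q := by
    simp only [cal, map_add, map_mul, map_div₀, map_one, map_pow, r0, r2, re, AA, J]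
  have ga : conj (cga q) = cga q := by
    simp only [cga, map_add, map_sub, map_mul, map_div₀, map_one, map_pow, r2, ra, re, AA, J]
  have a2 : conj (ca2 q) = ca2 q := by simp only [ca2, map_add, map_sub, map_mul, two, B, ga]
  have m : conj (cm q) = cm q := by simp only [cm, map_sub, map_mul, map_div₀, two, B, al, a2]
  have di : conj (cdi q) = cdi q := by
    simp only [cdi, map_add, map_sub, map_mul, map_div₀, map_pow, two, B, E, m, a2, K _ r0]
  have X : conj (cx q) = cx q := by simp only [cx, map_add, m, conj_sq hdi, di]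
  have cQ : conj (ccQ q) = ccQ q := by
    simp only [ccQ, map_sub, map_mul, map_one, r0, ra, AA, J, X]
  have kk : conj (sq (ckk q)) = sq (ckk q) := by rw [conj_sq hkk, ckk, K _ cQ]
  refine ⟨ra, r2, r3, x4, x5, q2, q3, D, cQ, kk, ?_, ?_⟩
  · rw [cnu, map_div₀, X, kk]
  · rw [cA, map_div₀, map_mul, map_one, conj_sq hB, conj_sq hE, B, E]

theorem realL (l : ℝ) (h : ((a : ℂ), (e : ℂ), x) ∈ Gd) (hx : RealXi x) :
    RealL (sc l (cen ((a : ℂ), (e : ℂ), x))) := by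
  have r := re h hx
  have h2 := h.2.2.2.2.2.2.2.1
  have h3 := h.2.2.2.2.2.2.2.2.2.1
  refine ⟨?_, ?_, ?_, ?_, ?_, ?_, rfl, ofReal_im a, ofReal_im e⟩
  · simp only [sc, cen, Prod.smul_fst, Prod.smul_snd, real_smul, map_mul, map_add, map_sub,
      conj_ofReal, r.cA, r.nu, r.x4, r.x5]
  · simp only [sc, cen, Prod.smul_fst, Prod.smul_snd, real_smul, map_mul, map_add, map_sub,
      conj_ofReal, r.cA, r.nu, r.x4, r.x5]
  · change (sq (ckk _) / 2).im = 0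
    rw [div_ofNat_im, conj_eq_iff_im.1 r.kk, zero_div]
  · change (_ - I * ccQ _) / _ = conj ((_ + I * ccQ _) / _)
    rw [map_div₀, map_add, map_mul, conj_I, r.x2, r.x3, r.cQ]
    ring
  · change sq (cq2t _) = conj (sq (cq2 _))
    rw [conj_sq h2, r.q2]
  · change sq (cq3t _) = conj (sq (cq3 _))
    rw [conj_sq h3, r.q3]

end CenB

open CenB

theorem cenBS : CenBStmt := by
  intro a e x he h
  refine ⟨?_, lev _ h (amp he), lw_eq _ _, fun hx => ⟨realL _ h hx, ?_⟩⟩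
  · obtain ⟨-, -, -, -, -, -, -, h2, h2t, h3, h3t, -, -, hkk⟩ := h
    exact ⟨div_ne_zero (sq_ne hkk) two_ne_zero, sq_ne h2, sq_ne h2t, sq_ne h3, sq_ne h3t⟩
  · change 0 < (sq (ckk _) / 2).re
    rw [div_ofNat_re]
    exact half_pos (sq_re h.2.2.2.2.2.2.2.2.2.2.2.2.2)

theorem cenCS : CenCStmt := by
  intro a e x s he h hx _ hs
  have r := re h hx
  have hq : ((a : ℂ), (e : ℂ), x).2.2 = x := rfl
  have ha : ((a : ℂ), (e : ℂ), x).1 = a := rfl
  have e0 : ((a : ℂ), (e : ℂ), mirXi s x).2.2 0 = x 0 := rfl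
  have e1 : ((a : ℂ), (e : ℂ), mirXi s x).2.2 1 = x 1 := rfl
  have e2 : ((a : ℂ), (e : ℂ), mirXi s x).2.2 2 = x 2 := rfl
  have e3 : ((a : ℂ), (e : ℂ), mirXi s x).2.2 3 = -x 3 := rfl
  have e4 : ((a : ℂ), (e : ℂ), mirXi s x).2.2 4 = s * conj (x 5) := rfl
  have e5 : ((a : ℂ), (e : ℂ), mirXi s x).2.2 5 = s * conj (x 4) := rfl
  have ea : ((a : ℂ), (e : ℂ), mirXi s x).1 = ((a : ℂ), (e : ℂ), x).1 := rfl
  have ee : ((a : ℂ), (e : ℂ), mirXi s x).2.1 = ((a : ℂ), (e : ℂ), x).2.1 := rfl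
  have l1 := amp (a := a) (x := x) he.le
  have l2 := amp (a := a) (x := mirXi s x) he.le
  unfold cen1
  generalize ((a : ℂ), (e : ℂ), mirXi s x) = q' at e0 e1 e2 e3 e4 e5 ea ee l2
  generalize ((a : ℂ), (e : ℂ), x) = q at h r hq ha ea ee l1
  generalize Real.sqrt e = l at l1 l2
  subst hq
  rw [r.x5] at e4
  rw [r.x4] at e5
  obtain ⟨-, -, -, h4, h5, -⟩ := h
  have s0 : s ≠ 0 := by rcases hs with rfl | rfl <;> norm_num
  have s2 : s ^ 2 = 1 := by rcases hs with rfl | rfl <;> norm_num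
  have B : cB q'.2.2 = cB q.2.2 := by rw [cB, cB, e4, e5]; field_simp
  have J : cJ q'.2.2 = cJ q.2.2 := by rw [cJ, cJ, e4, e5]; field_simp
  have E : cE q' = cE q := by
    simp only [cE, yy, yt, e0, e1, e2, e3, ea]; ring
  have AA : cAA q' = cAA q := by rw [cAA, cAA, B, E, ee]
  have A : cA q' = cA q := by rw [cA, cA, B, E]
  have D : cD q' = cDt q := by
    rw [cD, cDt, AA, e4, e5]
    linear_combination cAA q * (1 / q.2.2 4 - 1 / q.2.2 5) ^ 2 * s2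
  have Dt : cDt q' = cD q := by
    rw [cD, cDt, AA, e4, e5]
    rcases hs with rfl | rfl <;> simp <;> left <;> ring
  have q2 : cq2 q' = cq2t q := by rw [cq2, cq2t, e2, ea, D]
  have q2t : cq2t q' = cq2 q := by rw [cq2, cq2t, e2, ea, Dt]
  have q3 : cq3 q' = cq3t q := by rw [cq3, cq3t, e2, ea, D]
  have q3t : cq3t q' = cq3 q := by rw [cq3, cq3t, e2, ea, Dt]
  have K : ∀ c, cK q' c = cK q c := fun c => by
    rw [cK, cK, e1, e2, e3, ea, ee, q2, q2t, q3, q3t, neg_sq, mul_comm (sq (cq2t q)),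
      mul_comm (sq (cq3t q))]
  have al : cal q' = cal q := by rw [cal, cal, e0, e2, ee, AA, J]
  have ga : cga q' = cga q := by rw [cga, cga, e2, ea, ee, AA, J]
  have a2 : ca2 q' = ca2 q := by rw [ca2, ca2, B, ga]
  have m : cm q' = cm q := by rw [cm, cm, B, al, a2]
  have di : cdi q' = cdi q := by rw [cdi, cdi, m, B, E, K, e0, a2]
  have X : cx q' = cx q := by rw [cx, cx, m, di]
  have cQ : ccQ q' = ccQ q := by rw [ccQ, ccQ, e0, ea, AA, J, X]
  have kk : ckk q' = ckk q := by rw [ckk, ckk, K, cQ]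
  have nu : cnu q' = cnu q := by rw [cnu, cnu, X, kk]
  have P : ∀ q : Cq, physE a (projE (sc l (cen q))) =
      ((sq (cq2 q) ^ 2, sq (cq2 q) ^ 2 + lw (sc l (cen q)) ^ 2),
        ((q.2.2 3 + I * ccQ q) / q.2.2 2 - (1 - a) *
          (2 * (sq (ckk q) / 2) * lm (sc l (cen q)) / lwt (sc l (cen q))),
        (q.2.2 3 + I * ccQ q) / q.2.2 2 + a *
          (2 * (sq (ckk q) / 2) * lm (sc l (cen q)) / lwt (sc l (cen q))))) := fun _ => rfl
  have w1 : lw (sc l (cen q)) ^ 2 = cD q := by rw [lw_eq, mul_pow, l1, cD]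
  have w2 : lw (sc l (cen q')) ^ 2 = cD q' := by rw [lw_eq, mul_pow, l2, cD]
  have two : conj (2 : ℂ) = 2 := map_ofNat _ 2
  have v1 : (q'.2.2 3 + I * ccQ q') / q'.2.2 2 = -conj ((q.2.2 3 + I * ccQ q) / q.2.2 2) := by
    rw [map_div₀, map_add, map_mul, conj_I, r.x2, r.x3, r.cQ, e2, e3, cQ]
    ring
  have v2 : 2 * (sq (ckk q') / 2) * lm (sc l (cen q')) / lwt (sc l (cen q')) =
      -conj (2 * (sq (ckk q) / 2) * lm (sc l (cen q)) / lwt (sc l (cen q))) := by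
    simp only [lm_eq, lwt_eq, map_div₀, map_mul, map_add, map_sub, map_one, conj_ofReal, two, r.kk,
      r.cA, r.nu, r.x4, r.x5, kk, A, nu, e4, e5, one_div_one_div]
    rw [← div_neg]
    rcases hs with rfl | rfl
    · congr 1
      · ring
      · simp only [one_mul, one_div_one_div]; ring
    · rw [← neg_div_neg_eq]
      congr 1
      · ring
      · simp only [neg_mul, one_mul, div_neg, one_div_one_div]; ring
  rw [P, P, sq_sq, sq_sq, w1, w2, v1, v2, q2, D, mir]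
  simp only [cj, Prod.neg_mk, map_add, map_sub, map_mul, map_one, conj_ofReal, r.q2, r.d]
  congr 2 <;> ring

end Pool.Agent.MP_1ba41f_an.S2.FL
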