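import Pool.Agent.MP_1ba41f_an.S2.OD.Spec

/-! The flow of a holomorphic field as a definition, and the bridge to `IsFlow`. -/

noncomputable section
open Set Metric Filter Topology

namespace Pool.Agent.MP_1ba41f_an.S2

section
variable {E : Type} [NormedAddCommGroup E] [NormedSpace ℂ E] [NormedSpace ℝ E]

/-- `g` solves the equation of `X` in `Dm` from `z` along the segment `[0, T]` of complex time. -/
def IsTraj (X : E → E) (Dm : Set E) (z : E) (T : ℂ) (g : ℝ → E) : Prop :=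
  g 0 = z ∧ ∀ u ∈ Icc (0 : ℝ) 1, g u ∈ Dm ∧ HasDerivWithinAt g (T • X (g u)) (Icc 0 1) u

/-- The domain of the flow. -/
def flowDom (X : E → E) (Dm : Set E) : Set (E × ℂ) := {p | ∃ g, IsTraj X Dm p.1 p.2 g}

open Classical in
/-- The flow in complex time along segments. -/
def flow (X : E → E) (Dm : Set E) (p : E × ℂ) : E :=
  if h : ∃ g, IsTraj X Dm p.1 p.2 g then h.choose 1 else p.1

variable [IsScalarTower ℝ ℂ E]

theorem hasDerivAt_ofReal {F : ℂ → E} {v : E} {u : ℝ} (h : HasDerivAt F v (u : ℂ)) :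
    HasDerivAt (fun y : ℝ => F y) v u := by
  have h1 := (h.hasFDerivAt.restrictScalars ℝ).comp_hasDerivAt u Complex.ofRealCLM.hasDerivAt
  simpa [Function.comp_def] using h1

theorem IsFlow.traj {X : E → E} {Dm : Set E} {Ω : Set (E × ℂ)} {Φ : E × ℂ → E}
    (h : IsFlow X Dm Ω Φ) {p : E × ℂ} (hp : p ∈ Ω) :
    IsTraj X Dm p.1 p.2 (fun u : ℝ => Φ (p.1, (u : ℂ) * p.2)) := by
  refine ⟨?_, fun u hu => ?_⟩
  · simpa using (h.zero _ (h.mem p hp).1).2
  · have hm := h.star p hp u hu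
    refine ⟨(h.mem _ hm).2, ?_⟩
    have h1 : HasDerivAt (fun t : ℂ => Φ (p.1, t)) (X (Φ (p.1, (u : ℂ) * p.2))) ((u : ℂ) * p.2) :=
      h.der _ hm
    have h2 : HasDerivAt (fun t : ℂ => t * p.2) p.2 (u : ℂ) := by
      simpa using (hasDerivAt_id (u : ℂ)).mul_const p.2
    have h3 := hasDerivAt_ofReal (HasDerivAt.scomp (u : ℂ) h1 h2)
    exact h3.hasDerivWithinAt

theorem IsFlow.dom_eq {X : E → E} {Dm : Set E} {Ω : Set (E × ℂ)} {Φ : E × ℂ → E}
    (h : IsFlow X Dm Ω Φ) : flowDom X Dm = Ω := by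
  ext p
  constructor
  · rintro ⟨g, h0, hg⟩
    have := (h.max p.2 g hg).1
    rw [h0] at this
    exact this
  · intro hp
    exact ⟨_, h.traj hp⟩

theorem IsFlow.flow_eq {X : E → E} {Dm : Set E} {Ω : Set (E × ℂ)} {Φ : E × ℂ → E}
    (h : IsFlow X Dm Ω Φ) {p : E × ℂ} (hp : p ∈ Ω) : flow X Dm p = Φ p := by
  have he : ∃ g, IsTraj X Dm p.1 p.2 g := ⟨_, h.traj hp⟩
  rw [flow, dif_pos he]
  obtain ⟨h0, hg⟩ := he.choose_spec
  have := (h.max p.2 _ hg).2
  rw [h0] at this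
  exact this.symm

/-- The defined flow is a flow in the sense of `IsFlow` as soon as one exists. -/
theorem IsFlow.canon {X : E → E} {Dm : Set E} {Ω : Set (E × ℂ)} {Φ : E × ℂ → E}
    (h : IsFlow X Dm Ω Φ) : IsFlow X Dm (flowDom X Dm) (flow X Dm) := by
  rw [h.dom_eq]
  refine ⟨h.opU, h.holf, h.op, h.hol.congr fun p hp => h.flow_eq hp, fun p hp => ?_, h.star,
    fun x hx => ?_, fun p hp => ?_, fun τ γ hγ => ?_⟩
  · rw [h.flow_eq hp]; exact h.mem p hp
  · rw [h.flow_eq (h.zero x hx).1]; exact h.zero x hx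
  · rw [h.flow_eq hp]
    refine (h.der p hp).congr_of_eventuallyEq ?_
    have hc : Continuous fun t : ℂ => (p.1, t) := by fun_prop
    have : ∀ᶠ t in 𝓝 p.2, (p.1, t) ∈ Ω := hc.continuousAt.preimage_mem_nhds (h.op.mem_nhds hp)
    filter_upwards [this] with t ht using h.flow_eq ht
  · rw [h.flow_eq (h.max τ γ hγ).1]; exact h.max τ γ hγ

/-- The flow of a holomorphic field on an open set, from the existence statement. -/
theorem isFlow_flow [CompleteSpace E] (hF : FlowStmt) {X : E → E} {Dm : Set E} (ho : IsOpen Dm)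
    (hX : DifferentiableOn ℂ X Dm) : IsFlow X Dm (flowDom X Dm) (flow X Dm) := by
  obtain ⟨Ω, Φ, h⟩ := hF E X Dm ho hX
  exact h.canon

end

end Pool.Agent.MP_1ba41f_an.S2
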