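import Pool.Agent.MP_1ba41f_an.S2.FL.Spec
import Pool.Agent.MP_1ba41f_an.S2.FL.Soft

/-! The increment of `dd` along curves near a base arc, and the lower bound. -/

noncomputable section
open Set Complex

namespace Pool.Agent.MP_1ba41f_an.S2.FL

namespace Dir

theorem c_nn : Continuous nn := by unfold nn rr2 rr3; fun_prop
theorem c_dd : Continuous dd := by unfold dd; fun_prop
theorem c_ddt : Continuous ddt := by unfold ddt; fun_prop
theorem op_nn : IsOpen {z : Az | nn z ≠ 0} := isOpen_ne_fun c_nn continuous_const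

theorem c_dD : ContinuousOn dD {z : Az | nn z ≠ 0} := by
  refine ContinuousOn.div ?_ c_nn.continuousOn fun z hz => hz
  unfold rr2 rr3; fun_prop

theorem c_dDt : ContinuousOn dDt {z : Az | nn z ≠ 0} := by
  refine ContinuousOn.div ?_ c_nn.continuousOn fun z hz => hz
  unfold rr2 rr3; fun_prop

/-- Two curves with close derivatives. -/
theorem incr {f g f' g' : ℝ → ℂ} {η : ℝ} (h0 : g 0 = 0)
    (hf : ∀ u ∈ Icc (0 : ℝ) 1, HasDerivWithinAt f (f' u) (Icc 0 1) u)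
    (hg : ∀ u ∈ Icc (0 : ℝ) 1, HasDerivWithinAt g (g' u) (Icc 0 1) u)
    (hb : ∀ u ∈ Icc (0 : ℝ) 1, ‖f' u - g' u‖ ≤ η) :
    ∀ u ∈ Icc (0 : ℝ) 1, ‖f u - f 0 - g u‖ ≤ η * u := by
  intro u hu
  have h := norm_image_sub_le_of_norm_deriv_le_segment' (f := fun u => f u - g u)
    (fun x hx => (hf x hx).sub (hg x hx)) (fun x hx => hb x (Ico_subset_Icc_self hx)) u hu
  have e : f u - g u - (f 0 - g 0) = f u - f 0 - g u := by rw [h0]; ring
  simpa only [e, sub_zero] using h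

/-- The abstract lower bound. -/
theorem low {X : Type} [PseudoMetricSpace X] {K : Set X} (hK : IsCompact K) {α : X → ℂ}
    {ψ D : X × ℝ → ℂ} (hα : ContinuousOn α K) (hψ : ContinuousOn ψ (K ×ˢ Icc (0 : ℝ) 1))
    (hD : ContinuousOn D (K ×ˢ Icc (0 : ℝ) 1)) (pα : ∀ k ∈ K, 0 < (α k).re)
    (pD : ∀ k ∈ K, 0 < (D (k, 0)).re) (h0 : ∀ k ∈ K, ψ (k, 0) = 0)
    (hne : ∀ k ∈ K, ∀ u ∈ Icc (0 : ℝ) 1, 0 < u → ψ (k, u) ≠ 0)
    (hd : ∀ k ∈ K, ∀ u ∈ Icc (0 : ℝ) 1,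
      HasDerivWithinAt (fun u => ψ (k, u)) (D (k, u)) (Icc 0 1) u) :
    ∃ c > 0, ∃ R1 > 0, ∀ k ∈ K, ∀ u ∈ Icc (0 : ℝ) 1, ∀ R : ℝ, 0 < R → R ≤ R1 →
      c * (R + u) ≤ ‖R * α k + ψ (k, u)‖ := by
  have z01 : (0 : ℝ) ∈ Icc (0 : ℝ) 1 := ⟨le_rfl, zero_le_one⟩
  obtain ⟨c1, hc1, h1⟩ := hK.exists_forall_le' (f := fun k => (α k).re)
    (continuous_re.comp_continuousOn hα) pα
  have hD0 : ContinuousOn (fun k => D (k, 0)) K :=
    hD.comp (by fun_prop) fun k hk => ⟨hk, z01⟩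
  obtain ⟨c2, hc2, h2⟩ := hK.exists_forall_le' (f := fun k => (D (k, 0)).re)
    (continuous_re.comp_continuousOn hD0) pD
  have hu := (hK.prod isCompact_Icc).uniformContinuousOn_of_continuous hD
  obtain ⟨δ, hδ, h3⟩ := Metric.uniformContinuousOn_iff.1 hu (c2 / 2) (half_pos hc2)
  obtain ⟨d0, hd0, h4⟩ := (hK.prod (isCompact_Icc (a := min δ 1) (b := (1 : ℝ)))).exists_forall_le'
    (f := fun z => ‖ψ z‖) (a := 0)
    (hψ.mono (prod_mono_right (Icc_subset_Icc_left (le_min hδ.le zero_le_one)))).norm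
    (fun z hz => norm_pos_iff.2 (hne z.1 hz.1 z.2
      ⟨(le_min hδ.le zero_le_one).trans hz.2.1, hz.2.2⟩ ((lt_min hδ one_pos).trans_le hz.2.1)))
  obtain ⟨M, hM⟩ := hK.exists_bound_of_continuousOn hα
  have hM1 : 0 < |M| + 1 := by positivity
  refine ⟨min (min c1 (c2 / 2)) (d0 / 4), by positivity, min 1 (d0 / (2 * (|M| + 1))),
    by positivity, fun k hk u hu R hR hR1 => ?_⟩
  have hc : 0 < R + u := by linarith [hu.1]
  rcases lt_or_ge u (min δ 1) with hlt | hge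
  · have hs : Icc 0 u ⊆ Icc (0 : ℝ) 1 := Icc_subset_Icc_right hu.2
    have h5 := norm_image_sub_le_of_norm_deriv_le_segment' (a := 0) (b := u)
      (f := fun x : ℝ => ψ (k, x) - (x : ℂ) * D (k, 0)) (f' := fun x => D (k, x) - D (k, 0))
      (C := c2 / 2)
      (fun x hx => by
        have e : HasDerivAt (fun x : ℝ => (x : ℂ) * D (k, 0)) (D (k, 0)) x := by
          simpa using (Complex.ofRealCLM.hasDerivAt (x := x)).mul_const (D (k, 0))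
        exact ((hd k hk x (hs hx)).mono hs).sub e.hasDerivWithinAt)
      (fun x hx => by
        have := h3 (k, x) ⟨hk, hs (Ico_subset_Icc_self hx)⟩ (k, 0) ⟨hk, z01⟩ (by
          rw [Prod.dist_eq, dist_self, Real.dist_eq, sub_zero, abs_of_nonneg hx.1]
          exact max_lt hδ (hx.2.trans (hlt.trans_le (min_le_left _ _))))
        rw [dist_eq_norm] at this
        exact this.le) u ⟨hu.1, le_rfl⟩
    simp only [h0 k hk, ofReal_zero, zero_mul, sub_zero] at h5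
    have h6 := (neg_le_abs _).trans ((abs_re_le_norm _).trans h5)
    have h7 := re_le_norm (R * α k + ψ (k, u))
    simp only [sub_re, add_re, re_ofReal_mul] at h6 h7
    have a1 : min (min c1 (c2 / 2)) (d0 / 4) ≤ c1 := (min_le_left _ _).trans (min_le_left _ _)
    have a2 : min (min c1 (c2 / 2)) (d0 / 4) ≤ c2 / 2 :=
      (min_le_left _ _).trans (min_le_right _ _)
    have b1 := mul_le_mul_of_nonneg_left (a1.trans (h1 k hk)) hR.le
    have b2 := mul_le_mul_of_nonneg_left a2 hu.1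
    have b3 := mul_le_mul_of_nonneg_left (h2 k hk) hu.1
    nlinarith
  · have h5 := h4 (k, u) ⟨hk, hge, hu.2⟩
    have h6 : ‖(R : ℂ) * α k‖ ≤ d0 / 2 := by
      rw [norm_mul, norm_real, Real.norm_of_nonneg hR.le]
      have a1 : R * (2 * (|M| + 1)) ≤ d0 :=
        (le_div_iff₀ (by positivity)).1 (hR1.trans (min_le_right _ _))
      have a2 : ‖α k‖ ≤ |M| + 1 := by linarith [hM k hk, le_abs_self M]
      nlinarith [mul_le_mul_of_nonneg_left a2 hR.le]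
    have h7 : ‖ψ (k, u)‖ ≤ ‖R * α k + ψ (k, u)‖ + ‖(R : ℂ) * α k‖ := by
      simpa using norm_sub_le (R * α k + ψ (k, u)) ((R : ℂ) * α k)
    have a3 : R + u ≤ 2 := by linarith [hu.2, hR1.trans (min_le_left _ _)]
    have a4 := mul_le_mul (min_le_right (min c1 (c2 / 2)) (d0 / 4)) a3 hc.le (by positivity)
    linarith

/-- The lower bound with a factor. -/
theorem low' {X : Type} [PseudoMetricSpace X] {K : Set X} (hK : IsCompact K) {α w : X → ℂ}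
    {ψ D : X × ℝ → ℂ} (hα : ContinuousOn α K) (hw : ContinuousOn w K) (hw0 : ∀ k ∈ K, w k ≠ 0)
    (hψ : ContinuousOn ψ (K ×ˢ Icc (0 : ℝ) 1))
    (hD : ContinuousOn D (K ×ˢ Icc (0 : ℝ) 1)) (pα : ∀ k ∈ K, 0 < (α k).re)
    (pD : ∀ k ∈ K, 0 < (D (k, 0) / w k).re) (h0 : ∀ k ∈ K, ψ (k, 0) = 0)
    (hne : ∀ k ∈ K, ∀ u ∈ Icc (0 : ℝ) 1, 0 < u → ψ (k, u) ≠ 0)
    (hd : ∀ k ∈ K, ∀ u ∈ Icc (0 : ℝ) 1,
      HasDerivWithinAt (fun u => ψ (k, u)) (D (k, u)) (Icc 0 1) u) :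
    ∃ c > 0, ∃ R1 > 0, ∀ k ∈ K, ∀ u ∈ Icc (0 : ℝ) 1, ∀ R : ℝ, 0 < R → R ≤ R1 →
      c * (R + u) ≤ ‖R * α k * w k + ψ (k, u)‖ := by
  have hw1 : ContinuousOn (fun z : X × ℝ => w z.1) (K ×ˢ Icc (0 : ℝ) 1) :=
    hw.comp continuousOn_fst fun z hz => hz.1
  obtain ⟨c, hc, R1, hR1, h⟩ := low hK (ψ := fun z => ψ z / w z.1) (D := fun z => D z / w z.1) hα
    (hψ.div hw1 fun z hz => hw0 _ hz.1) (hD.div hw1 fun z hz => hw0 _ hz.1) pα pD
    (fun k hk => by simp [h0 k hk]) (fun k hk u hu hp => div_ne_zero (hne k hk u hu hp) (hw0 k hk))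
    (fun k hk u hu => (hd k hk u hu).div_const (w k))
  obtain ⟨c1, hc1, h1⟩ := hK.exists_forall_le' (f := fun k => ‖w k‖) (a := 0) hw.norm
    fun k hk => norm_pos_iff.2 (hw0 k hk)
  refine ⟨c * c1, by positivity, R1, hR1, fun k hk u hu R hR hR' => ?_⟩
  have e : R * α k * w k + ψ (k, u) = (R * α k + ψ (k, u) / w k) * w k := by
    field_simp [hw0 k hk]
  have := mul_le_mul (h k hk u hu R hR hR') (h1 k hk) hc1.le (norm_nonneg _)
  rw [e, norm_mul]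
  linarith

end Dir

open Dir

theorem dirS (hT : TubeStmt) (hA : AdmStmt) (hD : DdStmt) : DirStmt := by
  intro K hK hKA η hη
  obtain ⟨B, hB, hBg⟩ := hT
  have hG : IsCompact (B '' (K ×ˢ Icc (0 : ℝ) 1)) :=
    (hK.prod isCompact_Icc).image_of_continuousOn (hB.mono (prod_mono_left hKA))
  have hGV : B '' (K ×ˢ Icc (0 : ℝ) 1) ⊆ {z : Az | nn z ≠ 0} := by
    rintro _ ⟨⟨k, u⟩, ⟨hk, hu⟩, rfl⟩
    obtain ⟨g, hg⟩ := (hKA k hk).2.2.2.2.2.2.2.2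
    rw [← hBg k (hKA k hk) g hg u hu]
    exact (hg.2 u hu).1
  obtain ⟨M, hM⟩ := hK.exists_bound_of_continuousOn
    (f := fun k : ℝ × Xi × ℂ => k.2.2) (by fun_prop)
  have hM1 : 0 < |M| + 1 := by positivity
  obtain ⟨d1, hd1, -, h1⟩ := soft_unif hG op_nn hGV c_dD (div_pos hη hM1)
  obtain ⟨d2, hd2, -, h2⟩ := soft_unif hG op_nn hGV c_dDt (div_pos hη hM1)
  refine ⟨min d1 d2, lt_min hd1 hd2, fun k hk g hg γ l h a e hγ => ?_⟩
  have hk' := hKA k hk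
  have hm : ∀ u ∈ Icc (0 : ℝ) 1, g u ∈ B '' (K ×ˢ Icc (0 : ℝ) 1) := fun u hu =>
    ⟨(k, u), ⟨hk, hu⟩, (hBg k hk' g hg u hu).symm⟩
  have a1 := fun u hu => h1 _ (hm u hu) (γ u)
    (by rw [dist_eq_norm]; exact (hγ u hu).1.trans (min_le_left _ _))
  have a2 := fun u hu => h2 _ (hm u hu) (γ u)
    (by rw [dist_eq_norm]; exact (hγ u hu).1.trans (min_le_right _ _))
  have b1 := fun u hu => hD γ _ k.2.2 (Icc 0 1) u (a1 u hu).1 (Or.inl ⟨_, _, _, _, rfl⟩) (hγ u hu).2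
  have b2 := fun u hu => hD g _ k.2.2 (Icc 0 1) u (hg.2 u hu).1 (Or.inr ⟨_, _, rfl⟩) (hg.2 u hu).2.2
  have bd : ∀ x y : ℂ, dist x y ≤ η / (|M| + 1) → ‖k.2.2 * x - k.2.2 * y‖ ≤ η := by
    intro x y hxy
    rw [← mul_sub, norm_mul, ← dist_eq_norm]
    have a : ‖k.2.2‖ ≤ |M| + 1 := by linarith [hM k hk, le_abs_self M]
    calc _ ≤ (|M| + 1) * (η / (|M| + 1)) := mul_le_mul a hxy dist_nonneg hM1.le
      _ = η := by field_simp
  obtain ⟨-, -, -, -, z1, z2, -⟩ := hA.2.2.2 k hk'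
  intro u hu
  exact ⟨incr (f := fun u => dd (γ u)) (g := fun u => dd (g u)) (by simp only [hg.1, z1])
      (fun u hu => (b1 u hu).1) (fun u hu => (b2 u hu).1) (fun u hu => bd _ _ (a1 u hu).2) u hu,
    incr (f := fun u => ddt (γ u)) (g := fun u => ddt (g u)) (by simp only [hg.1, z2])
      (fun u hu => (b1 u hu).2) (fun u hu => (b2 u hu).2) (fun u hu => bd _ _ (a2 u hu).2) u hu⟩

theorem lowS (hT : TubeStmt) (hA : AdmStmt) (hD : DdStmt) : LowStmt := by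
  intro K hK hKA
  obtain ⟨B, hB, hBg⟩ := hT
  have z01 : (0 : ℝ) ∈ Icc (0 : ℝ) 1 := ⟨le_rfl, zero_le_one⟩
  have hBK : ContinuousOn B (K ×ˢ Icc (0 : ℝ) 1) := hB.mono (prod_mono_left hKA)
  have ex : ∀ k ∈ K, ∃ g, BaseArc k.1 k.2.1 k.2.2 g ∧ ∀ u ∈ Icc (0 : ℝ) 1, B (k, u) = g u :=
    fun k hk => by
      obtain ⟨g, hg⟩ := (hKA k hk).2.2.2.2.2.2.2.2
      exact ⟨g, hg, fun u hu => (hBg k (hKA k hk) g hg u hu).symm⟩
  have hV : MapsTo B (K ×ˢ Icc (0 : ℝ) 1) {z : Az | nn z ≠ 0} := by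
    rintro ⟨k, u⟩ ⟨hk, hu⟩
    obtain ⟨g, hg, e⟩ := ex k hk
    rw [e u hu]
    exact (hg.2 u hu).1
  have hB0 : ∀ k ∈ K, B (k, 0) = coll k.1 k.2.1 := fun k hk => by
    obtain ⟨g, hg, e⟩ := ex k hk
    rw [e 0 z01, hg.1]
  have hne : ∀ k ∈ K, ∀ u ∈ Icc (0 : ℝ) 1, 0 < u → dd (B (k, u)) ≠ 0 ∧ ddt (B (k, u)) ≠ 0 :=
    fun k hk u hu hp => by
      obtain ⟨g, hg, e⟩ := ex k hk
      rw [e u hu]
      exact (hg.2 u hu).2.1 hp
  have hd : ∀ k ∈ K, ∀ u ∈ Icc (0 : ℝ) 1,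
      HasDerivWithinAt (fun u => dd (B (k, u))) (k.2.2 * dD (B (k, u))) (Icc 0 1) u ∧
      HasDerivWithinAt (fun u => ddt (B (k, u))) (k.2.2 * dDt (B (k, u))) (Icc 0 1) u :=
    fun k hk u hu => by
      obtain ⟨g, hg, e⟩ := ex k hk
      have b := hD g _ k.2.2 (Icc 0 1) u (hg.2 u hu).1 (Or.inr ⟨_, _, rfl⟩) (hg.2 u hu).2.2
      rw [e u hu]
      exact ⟨b.1.congr (fun x hx => by rw [e x hx]) (by rw [e u hu]),
        b.2.congr (fun x hx => by rw [e x hx]) (by rw [e u hu])⟩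
  have hα : ContinuousOn (fun k : ℝ × Xi × ℂ => am k.1 k.2.1 ^ 2) K := (hA.1.mono hKA).pow 2
  have h4 : ∀ k ∈ K, k.2.1 4 ^ 2 ≠ 0 := fun k hk => pow_ne_zero 2 (hKA k hk).2.2.2.2.1
  have hw : ContinuousOn (fun k : ℝ × Xi × ℂ => k.2.1 4 ^ 2) K := by fun_prop
  have hT' : ContinuousOn (fun z : (ℝ × Xi × ℂ) × ℝ => z.1.2.2) (K ×ˢ Icc (0 : ℝ) 1) := by fun_prop
  obtain ⟨c1, hc1, R1, hR1, h1⟩ := low' hK (ψ := fun z => dd (B z))
    (D := fun z => z.1.2.2 * dD (B z)) hα hw h4 (c_dd.comp_continuousOn hBK)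
    (hT'.mul (c_dD.comp hBK hV)) (fun k hk => (hA.2.2.2 k (hKA k hk)).2.1)
    (fun k hk => by simpa only [hB0 k hk] using (hA.2.2.2 k (hKA k hk)).2.2.1)
    (fun k hk => by simpa only [hB0 k hk] using (hA.2.2.2 k (hKA k hk)).2.2.2.2.1)
    (fun k hk u hu hp => (hne k hk u hu hp).1) (fun k hk u hu => (hd k hk u hu).1)
  obtain ⟨c2, hc2, R2, hR2, h2⟩ := low' hK (w := fun k => (k.2.1 4 ^ 2)⁻¹)
    (ψ := fun z => ddt (B z)) (D := fun z => z.1.2.2 * dDt (B z)) hα (hw.inv₀ h4)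
    (fun k hk => inv_ne_zero (h4 k hk)) (c_ddt.comp_continuousOn hBK)
    (hT'.mul (c_dDt.comp hBK hV)) (fun k hk => (hA.2.2.2 k (hKA k hk)).2.1)
    (fun k hk => by simpa only [hB0 k hk, div_inv_eq_mul] using (hA.2.2.2 k (hKA k hk)).2.2.2.1)
    (fun k hk => by simpa only [hB0 k hk] using (hA.2.2.2 k (hKA k hk)).2.2.2.2.2.1)
    (fun k hk u hu hp => (hne k hk u hu hp).2) (fun k hk u hu => (hd k hk u hu).2)
  refine ⟨min c1 c2, lt_min hc1 hc2, min R1 R2, lt_min hR1 hR2,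
    fun k hk g hg u hu R hR hR' => ?_⟩
  have hc : 0 ≤ R + u := by linarith [hu.1]
  rw [hBg k (hKA k hk) g hg u hu, div_eq_mul_inv]
  exact ⟨(mul_le_mul_of_nonneg_right (min_le_left _ _) hc).trans
      (h1 k hk u hu R hR (hR'.trans (min_le_left _ _))),
    (mul_le_mul_of_nonneg_right (min_le_right _ _) hc).trans
      (h2 k hk u hu R hR (hR'.trans (min_le_right _ _)))⟩

end Pool.Agent.MP_1ba41f_an.S2.FL
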