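import Pool.Agent.MP_1ba41f_an.S2.FL.Spec
import Pool.Agent.MP_1ba41f_an.S2.FL.Soft

/-! The second half of an encounter. -/

noncomputable section
open Set Complex

namespace Pool.Agent.MP_1ba41f_an.S2.FL

namespace Enc

theorem der_lw {γ : ℂ → Lc} {p : Lc} {t : ℂ} (h : HasDerivAt γ (XL p) t) :
    HasDerivAt (fun t => lw (γ t)) (lm p) t := by
  have h1 := h.hasFDerivAt.fst.fst.hasDerivAt
  have h2 := h.hasFDerivAt.snd.fst.fst.hasDerivAt
  refine ((h1.add h2).div_const 2).congr_deriv ?_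
  simp [lm, XL, hypF]
  ring

theorem wb (F : IsFlow XL DL OL FLc) (p : Lc) {T C : ℝ}
    (h : ∀ s ∈ Icc 0 T, (p, (s : ℂ)) ∈ OL ∧
      ‖(FLc (p, (s : ℂ))).1.1 - Real.exp s * p.1.1‖ ≤ C * Real.exp (2 * s) ∧
      ‖(FLc (p, (s : ℂ))).2.1.1 - Real.exp (-s) * p.2.1.1‖ ≤ C * Real.exp (2 * s))
    {s : ℝ} (hs : s ∈ Icc 0 T) :
    ‖lw (FLc (p, (s : ℂ))) - (Real.exp s * p.1.1 + Real.exp (-s) * p.2.1.1) / 2‖
      ≤ C * (Real.exp (2 * s) - 1) / 2 := by
  have d : ∀ s ∈ Icc 0 T, HasDerivAt (fun s : ℝ => lw (FLc (p, (s : ℂ))) -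
      (Real.exp s * p.1.1 + Real.exp (-s) * p.2.1.1) / 2) (lm (FLc (p, (s : ℂ))) -
      (Real.exp s * p.1.1 - Real.exp (-s) * p.2.1.1) / 2) s := fun s hs => by
    have a := (der_lw (F.der _ (h s hs).1)).comp_ofReal
    have b := (Real.hasDerivAt_exp s).ofReal_comp.mul_const p.1.1
    have c := (hasDerivAt_neg s).exp.ofReal_comp.mul_const p.2.1.1
    refine (a.sub ((b.add c).div_const 2)).congr_deriv ?_
    push_cast
    ring
  refine image_norm_le_of_norm_deriv_right_le_deriv_boundary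
    (B := fun s => C * (Real.exp (2 * s) - 1) / 2) (B' := fun s => C * Real.exp (2 * s))
    (fun s hs => (d s hs).continuousAt.continuousWithinAt)
    (fun s hs => (d s (Ico_subset_Icc_self hs)).hasDerivWithinAt) ?_ (fun s => ?_)
    (fun s hs => ?_) hs
  · have m := (F.mem _ (h 0 ⟨le_rfl, hs.1.trans hs.2⟩).1).1
    simp [(F.zero p m).2, lw]
  · refine ((((((hasDerivAt_id s).const_mul 2).exp.sub_const 1).const_mul C).div_const
      2).congr_deriv ?_)
    simp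
    ring
  · obtain ⟨-, a, b⟩ := h s (Ico_subset_Icc_self hs)
    have := (norm_sub_le _ _).trans (add_le_add a b)
    rw [show lm (FLc (p, (s : ℂ))) - (Real.exp s * p.1.1 - Real.exp (-s) * p.2.1.1) / 2 =
      ((FLc (p, (s : ℂ))).1.1 - Real.exp s * p.1.1 -
        ((FLc (p, (s : ℂ))).2.1.1 - Real.exp (-s) * p.2.1.1)) / 2 by rw [lm]; ring, norm_div]
    simp only [Complex.norm_ofNat]
    linarith

theorem nlw (p : Lc) : ‖lw p‖ ≤ (‖p.1‖ + ‖p.2.1‖) / 2 := by
  rw [lw, norm_div]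
  simp only [Complex.norm_ofNat]
  linarith [norm_add_le p.1.1 p.2.1.1, norm_fst_le p.1, norm_fst_le p.2.1]

theorem nlm (p : Lc) : ‖lm p‖ ≤ ‖p‖ := by
  rw [lm, norm_div]
  simp only [Complex.norm_ofNat]
  linarith [norm_sub_le p.1.1 p.2.1.1, norm_fst_le p.1, norm_fst_le p.2.1, norm_fst_le p,
    norm_fst_le p.2, norm_snd_le p]

end Enc

open Enc in
theorem encS (hF : FlowsStmt) (hV : VolStmt) (hB : BndStmt) (hC : CenAStmt) (hA : AdmStmt)
    (hL : CenBStmt) : EncStmt := by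
  intro K cK ad η η0
  obtain ⟨c, c0, d, d0, R0, R00, bd⟩ := hB _
    (cK.image_of_continuousOn (hA.2.1.mono fun k hk => ad k hk))
    (by rintro _ ⟨k, hk, rfl⟩; exact (hA.2.2.2 k (ad k hk)).1)
  have cQ : IsCompact ((fun k : ℝ × Xi × ℂ => (((k.1 : ℂ), 0, k.2.1) : Cq)) '' K) :=
    cK.image (by fun_prop)
  have sQ : (fun k : ℝ × Xi × ℂ => (((k.1 : ℂ), 0, k.2.1) : Cq)) '' K ⊆ Gd := by
    rintro _ ⟨k, hk, rfl⟩; exact (hC.2.2 k (ad k hk)).1
  obtain ⟨M0, hM0⟩ := cQ.exists_bound_of_continuousOn (hC.2.1.continuousOn.mono sQ)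
  obtain ⟨M, M1, hM⟩ : ∃ M : ℝ, 1 ≤ M ∧ M0 + 1 ≤ M := ⟨_, le_max_left _ _, le_max_right _ _⟩
  obtain ⟨θ, θ0, θ1, θ2⟩ : ∃ θ : ℝ, 0 < θ ∧ θ ≤ 1 ∧ θ * (2 * M + 1) ≤ η :=
    ⟨min 1 (η / (2 * M + 1)), by positivity, min_le_left _ _,
      (le_div_iff₀ (by positivity)).1 (min_le_right _ _)⟩
  have θη : θ ≤ η := by nlinarith
  obtain ⟨d1, d10, -, un⟩ := soft_unif cQ hC.1 sQ hC.2.1.continuousOn
    (lt_min (half_pos θ0) (half_pos d0))
  refine ⟨min 1 (min (θ / (8 * c * M ^ 2)) (min (R0 / (2 * M)) (min (d / (16 * c * M ^ 2))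
    (η / (2 * M))))), by positivity, fun r r0 hr => ?_⟩
  simp only [le_min_iff] at hr
  obtain ⟨r1, r2, r3, r4, r5⟩ := hr
  rw [le_div_iff₀ (by positivity)] at r2 r3 r4 r5
  refine ⟨min d1 (min (r ^ 2) (θ * r ^ 2 / (2 * M))), by positivity, fun e e0 he => ?_⟩
  simp only [lt_min_iff] at he
  obtain ⟨e1, e2', e3⟩ := he
  rw [lt_div_iff₀ (by positivity)] at e3
  have q0 := Real.sqrt_pos.2 e0
  have qr : Real.sqrt e < r := (Real.sqrt_lt' r0).2 e2'
  have qq := Real.mul_self_sqrt e0.le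
  refine ⟨qr, fun k hk => ?_⟩
  obtain ⟨g1, g2⟩ := un _ ⟨k, hk, rfl⟩ ((k.1 : ℂ), (e : ℂ), k.2.1) (by
    simp [Prod.dist_eq, d10.le, abs_of_pos e0, e1.le])
  have b0 := hM0 _ ⟨k, hk, rfl⟩
  have lwc := (hL k.1 e k.2.1 e0.le g1).2.2.1
  rw [dist_eq_norm, le_min_iff] at g2
  simp only [(hC.2.2 k (ad k hk)).2] at g2 b0
  refine ⟨g1, ?_⟩
  unfold cen1 at lwc ⊢
  generalize cen ((k.1 : ℂ), (e : ℂ), k.2.1) = v at g2 lwc ⊢
  generalize hv0 : (((2 * am k.1 k.2.1 * k.2.1 4, 2 * am k.1 k.2.1 / k.2.1 4),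
      (-(2 * am k.1 k.2.1 * k.2.1 5), -(2 * am k.1 k.2.1 / k.2.1 5)), ze k.1 k.2.1) : Lc) = v0
    at g2 b0
  have z0 : v0.2.2 = ze k.1 k.2.1 := by rw [← hv0]
  have nv : ‖v‖ ≤ M := by linarith [norm_le_norm_add_norm_sub' v v0, g2.1]
  have n1 : ‖v.1‖ ≤ M := (norm_fst_le v).trans nv
  have n2 : ‖v.2.1‖ ≤ M := ((norm_fst_le v.2).trans (norm_snd_le v)).trans nv
  have n3 : ‖v.2.2 - ze k.1 k.2.1‖ ≤ ‖v - v0‖ := by
    rw [← z0]; exact (norm_snd_le (v - v0).2).trans (norm_snd_le (v - v0))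
  generalize hT : Real.log (r / Real.sqrt e) = T
  have eT : Real.exp T = r / Real.sqrt e := by rw [← hT, Real.exp_log (by positivity)]
  have eT' : Real.exp (-T) = Real.sqrt e / r := by rw [Real.exp_neg, eT, inv_div]
  have T0 : 0 ≤ T := hT ▸ Real.log_nonneg ((one_le_div q0).2 qr.le)
  have cM : 0 < c * M := by positivity
  have k1 : 8 * c * (M * r) ≤ 1 := by nlinarith [mul_pos cM r0]
  have k2 : 4 * c * (M * r) ^ 2 ≤ θ / 2 * r := by nlinarith
  have V := hV (ℂ × ℂ) (Fin 10 → ℂ) ln lN DL OL FLc hF.2.2 c (M * r) (d / 2) v.2.2 c0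
    (by positivity) k1 (by nlinarith [mul_pos (mul_pos cM cM) r0, mul_pos c0 (pow_pos (by linarith : 0 < M) 2)])
    (fun p a b z => bd _ ⟨k, hk, rfl⟩ p (by linarith) (by linarith) (by
      linarith [norm_sub_le_norm_sub_add_norm_sub p.2.2 v.2.2 (ze k.1 k.2.1), g2.2]))
    T (r • v.1) (r • v.2.1) T0
    (by rw [norm_smul, Real.norm_of_nonneg r0.le, mul_comm]; gcongr)
    (by rw [norm_smul, Real.norm_of_nonneg r0.le, mul_comm]; gcongr)
  have st : (Real.exp (-T) • r • v.1, Real.exp (-T) • r • v.2.1, v.2.2) = sc (Real.sqrt e) v := by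
    rw [smul_smul, smul_smul, eT', div_mul_cancel₀ _ r0.ne', sc]
  rw [st] at V
  have ex : ∀ s : ℝ, Real.exp (s - T) * r = Real.exp s * Real.sqrt e := fun s => by
    rw [sub_eq_add_neg, Real.exp_add, eT']; field_simp
  have le1 : ∀ {t : ℝ}, t ≤ 0 → Real.exp t ≤ 1 := fun h => Real.exp_le_one_iff.2 h
  have sm : ∀ {s : ℝ}, s ≤ T → 4 * c * (M * r) ^ 2 * Real.exp (2 * (s - T)) ≤ θ / 2 * r :=
    fun h => (mul_le_of_le_one_right (by positivity) (le1 (by linarith))).trans k2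
  have nsm : ∀ (t : ℝ) (u : ℂ × ℂ), ‖u‖ ≤ M → ‖Real.exp t • r • u‖ ≤ Real.exp t * (r * M) :=
    fun t u h => by
      rw [norm_smul, norm_smul, Real.norm_of_nonneg r0.le, Real.norm_of_nonneg (Real.exp_pos t).le]
      gcongr
  have rM : 0 < r * M := by positivity
  refine ⟨fun s hs => ?_, ?_, ?_⟩
  · obtain ⟨m, a1, a2, a3⟩ := V s hs
    have s1 := sm hs.2
    have a4 : ‖(FLc (sc (Real.sqrt e) v, (s : ℂ))).2.2 - ze k.1 k.2.1‖ ≤ θ := by
      nlinarith [norm_sub_le_norm_sub_add_norm_sub (FLc (sc (Real.sqrt e) v, (s : ℂ))).2.2 v.2.2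
        (ze k.1 k.2.1), g2.1]
    refine ⟨m, a4.trans θη, ?_, ?_, ?_⟩
    · have u1 := (norm_le_pi_norm _ 3).trans a4
      have u2 : ‖ze k.1 k.2.1 3‖ ≤ M := by
        rw [← z0]
        linarith [norm_le_pi_norm v0.2.2 3, norm_snd_le v0.2, norm_snd_le v0]
      have u3 : ze k.1 k.2.1 3 ^ 2 = k.2.1 2 := by
        simp [ze, sq, one_div]
      rw [Pi.sub_apply] at u1
      rw [← u3]
      generalize (FLc (sc (Real.sqrt e) v, (s : ℂ))).2.2 3 = x at u1 ⊢
      generalize ze k.1 k.2.1 3 = y at u1 u2 ⊢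
      rw [show x ^ 2 - y ^ 2 = (x - y) * (x - y + y + y) by ring, norm_mul]
      refine le_trans (mul_le_mul u1 ?_ (norm_nonneg _) θ0.le) θ2
      linarith [norm_add_le (x - y + y) y, norm_add_le (x - y) y]
    · have b1 := (nsm (s - T) _ n1).trans (mul_le_of_le_one_left rM.le (le1 (by linarith [hs.2])))
      have b2 := (nsm (-s - T) _ n2).trans
        (mul_le_of_le_one_left rM.le (le1 (by linarith [hs.1])))
      refine (nlw _).trans ?_
      nlinarith [norm_le_norm_add_norm_sub' (FLc (sc (Real.sqrt e) v, (s : ℂ))).1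
        (Real.exp (s - T) • r • v.1), norm_le_norm_add_norm_sub'
        (FLc (sc (Real.sqrt e) v, (s : ℂ))).2.1 (Real.exp (-s - T) • r • v.2.1)]
    · have w := wb hF.2.2 (sc (Real.sqrt e) v) (T := T) (C := 4 * c * M ^ 2 * e) (fun s hs => by
        obtain ⟨m, a1, a2, -⟩ := V s hs
        have e4 : 4 * c * (M * r) ^ 2 * Real.exp (2 * (s - T))
            = 4 * c * M ^ 2 * e * Real.exp (2 * s) := by
          rw [two_mul (s - T), two_mul s, Real.exp_add, Real.exp_add]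
          linear_combination 4 * c * M ^ 2 * ((Real.exp (s - T) * r + Real.exp s * Real.sqrt e)
            * ex s + Real.exp s ^ 2 * qq)
        rw [e4, smul_smul, ex] at a1 a2
        refine ⟨m, le_trans (le_of_eq ?_) ((norm_fst_le _).trans a1),
          le_trans (le_of_eq ?_) ((norm_fst_le _).trans a2)⟩ <;>
        simp [sc, mul_assoc]) hs
      have sh := Real.sinh_nonneg_iff.2 hs.1
      have es : Real.exp s * Real.sqrt e ≤ r := by
        rw [← ex]; exact mul_le_of_le_one_left r0.le (le1 (by linarith [hs.2]))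
      have w1 : 4 * c * M ^ 2 * e * (Real.exp (2 * s) - 1) / 2
          ≤ θ / 2 * Real.sqrt e * Real.sinh s := by
        have : e * (Real.exp (2 * s) - 1) / 2
            = Real.exp s * Real.sqrt e * (Real.sqrt e * Real.sinh s) := by
          rw [Real.sinh_eq, two_mul s, Real.exp_add, Real.exp_neg]
          have := mul_inv_cancel₀ (Real.exp_pos s).ne'
          linear_combination (Real.exp s * Real.exp s - 1) / 2 * (-qq)
            + Real.sqrt e * Real.sqrt e / 2 * this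
        rw [mul_assoc, mul_div_assoc, this, ← mul_assoc, mul_assoc (θ / 2)]
        refine mul_le_mul_of_nonneg_right ?_ (by positivity)
        nlinarith [mul_le_mul_of_nonneg_left es (by positivity : 0 ≤ 4 * c * M ^ 2)]
      have w2 : ((Real.exp s : ℂ) * (sc (Real.sqrt e) v).1.1 +
          Real.exp (-s) * (sc (Real.sqrt e) v).2.1.1) / 2 - Real.sqrt e * am k.1 k.2.1 *
          (k.2.1 4 * Real.exp s - k.2.1 5 * Real.exp (-s))
          = ((Real.sqrt e * Real.sinh s : ℝ) : ℂ) * lm (v - v0) := by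
        simp only [lw, sc, Prod.smul_fst, real_smul] at lwc
        simp only [lm, sc, Prod.smul_fst, real_smul, ← hv0, Prod.fst_sub, Prod.snd_sub,
          Real.sinh_eq]
        push_cast
        linear_combination (cexp s + cexp (-s)) / 2 * lwc
      have w3 := congrArg norm w2
      rw [norm_mul, norm_real, Real.norm_of_nonneg (by positivity)] at w3
      have w4 := mul_le_mul_of_nonneg_left ((nlm (v - v0)).trans g2.1)
        (by positivity : 0 ≤ Real.sqrt e * Real.sinh s)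
      refine (norm_sub_le_norm_sub_add_norm_sub _ _ _).trans ((add_le_add (w.trans w1)
        (w3.trans_le w4)).trans ?_)
      nlinarith [mul_le_mul_of_nonneg_right θη (by positivity : 0 ≤ Real.sqrt e * Real.sinh s)]
  · obtain ⟨-, a1, -⟩ := V T ⟨T0, le_rfl⟩
    have s1 := sm (le_refl T)
    rw [sub_self T, Real.exp_zero, one_smul] at a1
    rw [sub_self T] at s1
    have u : ‖r • v.1 - r • (2 * am k.1 k.2.1 * k.2.1 4, 2 * am k.1 k.2.1 / k.2.1 4)‖
        ≤ r * (θ / 2) := by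
      rw [← smul_sub, norm_smul, Real.norm_of_nonneg r0.le]
      refine mul_le_mul_of_nonneg_left (le_trans ?_ g2.1) r0.le
      have := norm_fst_le (v - v0)
      rw [Prod.fst_sub] at this
      nth_rewrite 1 [← hv0] at this
      exact this
    refine (norm_sub_le_norm_sub_add_norm_sub _ _ _).trans ((add_le_add (a1.trans s1) u).trans ?_)
    nlinarith
  · obtain ⟨-, -, a2, -⟩ := V T ⟨T0, le_rfl⟩
    have b2 := nsm (-T - T) _ n2
    have e5 : Real.exp (-T - T) * (r * M) ≤ θ / 2 * r := by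
      rw [sub_eq_add_neg, Real.exp_add, eT', div_mul_div_comm, qq, div_mul_eq_mul_div,
        div_le_iff₀ (by positivity)]
      nlinarith
    nlinarith [norm_le_norm_add_norm_sub' (FLc (sc (Real.sqrt e) v, (T : ℂ))).2.1
      (Real.exp (-T - T) • r • v.2.1), sm (le_refl T)]

end Pool.Agent.MP_1ba41f_an.S2.FL
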