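import Pool.Agent.MP_1ba41f_an.S2.FL.Spec
import Pool.Agent.MP_1ba41f_an.S2.FL.Soft

/-! The exit point of an encounter is near the collision state. -/

noncomputable section
open Set Complex

namespace Pool.Agent.MP_1ba41f_an.S2.FL

namespace Exit

theorem lw_sc (r : ℝ) (p : Lc) : lw (sc r p) = r * lw p := by
  simp only [lw, sc, Prod.smul_fst, Complex.real_smul]; ring

theorem lwt_sc (r : ℝ) (p : Lc) : lwt (sc r p) = r * lwt p := by
  simp only [lwt, sc, Prod.smul_snd, Complex.real_smul]; ring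

theorem lm_sc (r : ℝ) (p : Lc) : lm (sc r p) = r * lm p := by
  simp only [lm, sc, Prod.smul_fst, Complex.real_smul]; ring

theorem lmt_sc (r : ℝ) (p : Lc) : lmt (sc r p) = r * lmt p := by
  simp only [lmt, sc, Prod.smul_snd, Complex.real_smul]; ring

theorem exZ_sc {r : ℝ} (hr : r ≠ 0) (p : Lc) : exZ (sc r p) = exZ p := by
  have hr' : (r : ℂ) ≠ 0 := by exact_mod_cast hr
  have h : ∀ a b c : ℂ, a * (r * b) / (r * c) = a * b / c := by
    intro a b c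
    rw [mul_left_comm, mul_div_mul_left _ _ hr']
  have h2 : (sc r p).2.2 = p.2.2 := rfl
  simp only [exZ, lw_sc, lwt_sc, lm_sc, lmt_sc, h, h2]

/-- The limit of the rescaled exit point. -/
def P0 (k : ℝ × Xi × ℂ) : Lc :=
  ((2 * am k.1 k.2.1 * k.2.1 4, 2 * am k.1 k.2.1 / k.2.1 4), (0, 0), ze k.1 k.2.1)

theorem lw_P0 (k : ℝ × Xi × ℂ) : lw (P0 k) = am k.1 k.2.1 * k.2.1 4 := by
  simp only [lw, P0]; ring

theorem lm_P0 (k : ℝ × Xi × ℂ) : lm (P0 k) = am k.1 k.2.1 * k.2.1 4 := by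
  simp only [lm, P0]; ring

theorem lwt_P0 (k : ℝ × Xi × ℂ) : lwt (P0 k) = am k.1 k.2.1 / k.2.1 4 := by
  simp only [lwt, P0]; ring

theorem lmt_P0 (k : ℝ × Xi × ℂ) : lmt (P0 k) = am k.1 k.2.1 / k.2.1 4 := by
  simp only [lmt, P0]; ring

theorem exZ_P0 (k : ℝ × Xi × ℂ) (h1 : am k.1 k.2.1 ≠ 0) (h2 : k.2.1 4 ≠ 0) :
    exZ (P0 k) = coll k.1 k.2.1 := by
  have h : (P0 k).2.2 = ze k.1 k.2.1 := rfl
  simp only [exZ, lw_P0, lm_P0, lwt_P0, lmt_P0, h]
  funext i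
  fin_cases i <;> simp [ze, coll, uu, ut] <;> left <;> field_simp

theorem cont_lw : Continuous lw := by unfold lw; fun_prop
theorem cont_lwt : Continuous lwt := by unfold lwt; fun_prop
theorem cont_lm : Continuous lm := by unfold lm; fun_prop
theorem cont_lmt : Continuous lmt := by unfold lmt; fun_prop

theorem cont_exZ : ContinuousOn exZ {p | lw p ≠ 0 ∧ lwt p ≠ 0} := by
  have h1 := cont_lw
  have h2 := cont_lwt
  have h3 := cont_lm
  have h4 := cont_lmt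
  refine continuousOn_pi.2 fun i => ?_
  fin_cases i <;> simp only [exZ] <;> simp <;>
    fun_prop (disch := intro x hx; first | exact hx.1 | exact hx.2)

end Exit

theorem exitS (hA : AdmStmt) : ExitStmt := by
  intro K hK hadm d hd
  obtain ⟨c1, c2, -, hA⟩ := hA
  have ham : ∀ k ∈ K, am k.1 k.2.1 ≠ 0 := by
    intro k hk h
    have := (hA k (hadm k hk)).2.1
    rw [h] at this
    simp at this
  have h4 : ∀ k ∈ K, k.2.1 4 ≠ 0 := fun k hk => (hadm k hk).2.2.2.2.1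
  have hc : ContinuousOn Exit.P0 K := by
    have a1 : ContinuousOn (fun k : ℝ × Xi × ℂ => am k.1 k.2.1) K := c1.mono hadm
    have a2 : ContinuousOn (fun k : ℝ × Xi × ℂ => ze k.1 k.2.1) K := c2.mono hadm
    have a3 : ContinuousOn (fun k : ℝ × Xi × ℂ => k.2.1 4) K := by fun_prop
    exact (((continuousOn_const.mul a1).mul a3).prodMk
      ((continuousOn_const.mul a1).div a3 h4)).prodMk (continuousOn_const.prodMk a2)
  have hV : IsOpen {p : Lc | lw p ≠ 0 ∧ lwt p ≠ 0} :=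
    (isOpen_ne_fun Exit.cont_lw continuous_const).inter
      (isOpen_ne_fun Exit.cont_lwt continuous_const)
  have hf : ContinuousOn (fun p : Lc => (exZ p, lw p ^ 2, lwt p ^ 2))
      {p : Lc | lw p ≠ 0 ∧ lwt p ≠ 0} :=
    Exit.cont_exZ.prodMk ((Exit.cont_lw.pow 2).continuousOn.prodMk
      (Exit.cont_lwt.pow 2).continuousOn)
  obtain ⟨η, hη, -, H⟩ := soft_unif (hK.image_of_continuousOn hc) hV (by
    rintro _ ⟨k, hk, rfl⟩
    exact ⟨by rw [Exit.lw_P0]; exact mul_ne_zero (ham k hk) (h4 k hk),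
      by rw [Exit.lwt_P0]; exact div_ne_zero (ham k hk) (h4 k hk)⟩) hf hd
  refine ⟨η, hη, fun k hk r p hr e1 e2 e3 => ?_⟩
  obtain ⟨q, rfl⟩ : ∃ q, p = sc r q :=
    ⟨sc r⁻¹ p, by simp only [sc, smul_inv_smul₀ hr.ne']⟩
  have hr' : (r : ℂ) ≠ 0 := by exact_mod_cast hr.ne'
  have hq : dist q (Exit.P0 k) ≤ η := by
    have n1 : ∀ v : ℂ × ℂ, ‖r • v‖ ≤ η * r → ‖v‖ ≤ η := by
      intro v hv
      rw [norm_smul, Real.norm_of_nonneg hr.le, mul_comm] at hv
      exact le_of_mul_le_mul_right hv hr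
    rw [dist_eq_norm, Prod.norm_def, Prod.norm_def (q - Exit.P0 k).2]
    refine max_le (n1 (q.1 - (Exit.P0 k).1) ?_) (max_le (n1 (q.2.1 - (Exit.P0 k).2.1) ?_) e1)
    · rw [smul_sub]; exact e2
    · have : (Exit.P0 k).2.1 = 0 := rfl
      rw [this, sub_zero]; exact e3
  obtain ⟨⟨v1, v2⟩, v3⟩ := H _ ⟨k, hk, rfl⟩ q hq
  rw [Prod.dist_eq, Prod.dist_eq, dist_eq_norm, dist_eq_norm, dist_eq_norm, max_le_iff,
    max_le_iff] at v3
  obtain ⟨w1, w2, w3⟩ := v3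
  simp only [Exit.exZ_P0 k (ham k hk) (h4 k hk), Exit.lw_P0, Exit.lwt_P0] at w1 w2 w3
  have n2 : ∀ v : ℂ, ‖v‖ ≤ d → ‖((r ^ 2 : ℝ) : ℂ) * v‖ ≤ d * r ^ 2 := by
    intro v hv
    rw [norm_mul, Complex.norm_real, Real.norm_of_nonneg (sq_nonneg r), mul_comm]
    exact mul_le_mul_of_nonneg_right hv (sq_nonneg r)
  rw [Exit.lw_sc, Exit.lwt_sc, Exit.exZ_sc hr.ne']
  refine ⟨mul_ne_zero hr' v1, mul_ne_zero hr' v2, w1, ?_, ?_⟩
  · convert n2 _ w2 using 2
    push_cast; ring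
  · convert n2 _ w3 using 2
    push_cast; ring

end Pool.Agent.MP_1ba41f_an.S2.FL
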