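import Pool.Agent.MP_1ba41f_an.S2.FL.Spec

/-! The three flows exist; continuation along a complex segment. -/

noncomputable section
open Set Complex
open scoped ComplexConjugate

namespace Pool.Agent.MP_1ba41f_an.S2.FL

namespace Flows

theorem XA_diffAt {P : Type} [NormedAddCommGroup P] [NormedSpace ℂ P] {l h a e : P → ℂ}
    {z : P → Az} {p : P} (hl : DifferentiableAt ℂ l p) (hh : DifferentiableAt ℂ h p)
    (ha : DifferentiableAt ℂ a p) (he : DifferentiableAt ℂ e p) (hz : DifferentiableAt ℂ z p)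
    (h1 : nn (z p) ≠ 0) (h2 : l p ≠ 0) (h3 : a p ≠ 0) (h4 : a p ≠ 1) :
    DifferentiableAt ℂ (fun q => XA (l q) (h q) (a q) (e q) (z q)) p := by
  have hi : ∀ i, DifferentiableAt ℂ (fun q => z q i) p := differentiableAt_pi.1 hz
  have h5 : 1 - a p ≠ 0 := sub_ne_zero.2 h4.symm
  have h6 : l p ^ 3 ≠ 0 := pow_ne_zero _ h2
  have h7 : 2 * nn (z p) ≠ 0 := mul_ne_zero two_ne_zero h1
  have g2 : DifferentiableAt ℂ (fun q => rr2 (z q)) p := (hi 0).mul (hi 1)
  have g3 : DifferentiableAt ℂ (fun q => rr3 (z q)) p := (hi 4).mul (hi 5)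
  have gn : DifferentiableAt ℂ (fun q => nn (z q)) p := g2.add g3
  have gd : DifferentiableAt ℂ (fun q => dd (z q)) p := ((hi 4).pow 2).sub ((hi 0).pow 2)
  have gt : DifferentiableAt ℂ (fun q => ddt (z q)) p := ((hi 5).pow 2).sub ((hi 1).pow 2)
  have i0 := hi 0
  have i1 := hi 1
  have i2 := hi 2
  have i3 := hi 3
  have i4 := hi 4
  have i5 := hi 5
  have i6 := hi 6
  have i7 := hi 7
  refine differentiableAt_pi.2 fun i => ?_
  fin_cases i <;> simp only [XA, Fin.zero_eta, Fin.mk_one, Fin.reduceFinMk, Matrix.cons_val] <;>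
    fun_prop (disch := assumption)

theorem nn_cont : Continuous nn := by
  unfold nn rr2 rr3
  fun_prop

theorem DY_open : IsOpen DY := by
  have h1 : IsOpen {y : Yz | nn y.1 ≠ 0} :=
    isOpen_ne_fun (nn_cont.comp continuous_fst) continuous_const
  have h2 : IsOpen {y : Yz | y.2.1 ≠ 0} := isOpen_ne_fun (by fun_prop) continuous_const
  have h3 : IsOpen {y : Yz | y.2.2.2.1 ≠ 0} := isOpen_ne_fun (by fun_prop) continuous_const
  have h4 : IsOpen {y : Yz | y.2.2.2.1 ≠ 1} := isOpen_ne_fun (by fun_prop) continuous_const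
  exact h1.inter (h2.inter (h3.inter h4))

theorem DR_open : IsOpen DR := by
  have h1 : IsOpen {y : Rz | nn y.1 ≠ 0} :=
    isOpen_ne_fun (nn_cont.comp continuous_fst) continuous_const
  have h3 : IsOpen {y : Rz | y.2.2 ≠ 0} := isOpen_ne_fun (by fun_prop) continuous_const
  have h4 : IsOpen {y : Rz | y.2.2 ≠ 1} := isOpen_ne_fun (by fun_prop) continuous_const
  exact h1.inter (h3.inter h4)

theorem DZ_open : IsOpen DZ := by
  have h : ∀ i : Fin 10, IsOpen {z : Fin 10 → ℂ | z i ≠ 0} := fun i =>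
    isOpen_ne_fun (continuous_apply i) continuous_const
  exact (h 0).inter ((h 3).inter ((h 4).inter ((h 5).inter (h 6))))

theorem DL_open : IsOpen DL := DZ_open.preimage (by fun_prop : Continuous fun p : Lc => p.2.2)

theorem XY_diff : DifferentiableOn ℂ XY DY := by
  intro y hy
  obtain ⟨h1, h2, h3, h4⟩ := hy
  refine DifferentiableAt.differentiableWithinAt ?_
  have hA : DifferentiableAt ℂ (fun q : Yz => XA q.2.1 q.2.2.1 q.2.2.2.1 q.2.2.2.2 q.1) y :=
    XA_diffAt (by fun_prop) (by fun_prop) (by fun_prop) (by fun_prop) (by fun_prop) h1 h2 h3 h4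
  have h7 : 2 * y.2.1 ≠ 0 := mul_ne_zero two_ne_zero h2
  have h8 : y.1 0 * y.1 1 + y.1 4 * y.1 5 ≠ 0 := h1
  refine hA.prodMk (DifferentiableAt.prodMk ?_ (differentiableAt_const _))
  simp only [ddt, dD, dd, dDt, nn, rr2, rr3]
  fun_prop (disch := assumption)

theorem XR_diff : DifferentiableOn ℂ XR DR := by
  intro y hy
  obtain ⟨h1, h3, h4⟩ := hy
  refine DifferentiableAt.differentiableWithinAt ?_
  have hA : DifferentiableAt ℂ (fun q : Rz => XA 1 q.2.1 q.2.2 0 q.1) y :=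
    XA_diffAt (l := fun _ => 1) (e := fun _ => 0) (by fun_prop) (by fun_prop) (by fun_prop)
      (by fun_prop) (by fun_prop) h1 one_ne_zero h3 h4
  exact hA.prodMk (differentiableAt_const _)

theorem ln_lN_diffAt {p : Lc} (hp : p ∈ DL) :
    DifferentiableAt ℂ ln p ∧ DifferentiableAt ℂ lN p := by
  obtain ⟨h0, h3, h4, h5, h6⟩ := hp
  have a1 : p.2.2 3 * p.2.2 4 ^ 3 ≠ 0 := mul_ne_zero h3 (pow_ne_zero _ h4)
  have a2 : p.2.2 5 * p.2.2 6 ^ 3 ≠ 0 := mul_ne_zero h5 (pow_ne_zero _ h6)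
  have a3 : p.2.2 4 * p.2.2 3 ^ 3 ≠ 0 := mul_ne_zero h4 (pow_ne_zero _ h3)
  have a4 : p.2.2 6 * p.2.2 5 ^ 3 ≠ 0 := mul_ne_zero h6 (pow_ne_zero _ h5)
  have a5 : 4 * p.2.2 0 ≠ 0 := mul_ne_zero (by norm_num) h0
  have a6 : 2 * p.2.2 0 ^ 2 ≠ 0 := mul_ne_zero two_ne_zero (pow_ne_zero _ h0)
  have a7 : 2 * p.2.2 3 ≠ 0 := mul_ne_zero two_ne_zero h3
  have a8 : 2 * p.2.2 4 ≠ 0 := mul_ne_zero two_ne_zero h4
  have a9 : 2 * p.2.2 5 ≠ 0 := mul_ne_zero two_ne_zero h5
  have a10 : 2 * p.2.2 6 ≠ 0 := mul_ne_zero two_ne_zero h6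
  have g1 : DifferentiableAt ℂ lw p := by unfold lw; fun_prop
  have g2 : DifferentiableAt ℂ lwt p := by unfold lwt; fun_prop
  have g3 : DifferentiableAt ℂ lm p := by unfold lm; fun_prop
  have g4 : DifferentiableAt ℂ lmt p := by unfold lmt; fun_prop
  have g5 : DifferentiableAt ℂ lF p := by unfold lF; fun_prop (disch := assumption)
  have g6 : DifferentiableAt ℂ lFt p := by unfold lFt; fun_prop (disch := assumption)
  have g7 : DifferentiableAt ℂ lk p := by unfold lk; fun_prop (disch := assumption)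
  refine ⟨by unfold ln; fun_prop (disch := assumption), differentiableAt_pi.2 fun i => ?_⟩
  fin_cases i <;> simp only [lN, Fin.zero_eta, Fin.mk_one, Fin.reduceFinMk, Matrix.cons_val] <;>
    fun_prop (disch := assumption)

theorem XL_diff : DifferentiableOn ℂ XL DL := by
  intro p hp
  obtain ⟨h1, h2⟩ := ln_lN_diffAt hp
  refine DifferentiableAt.differentiableWithinAt ?_
  unfold XL hypF
  fun_prop

/-- Rescaling of the time by a complex factor. -/
theorem rescale {E : Type} [NormedAddCommGroup E] [NormedSpace ℂ E] [NormedSpace ℝ E]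
    {f : E → E} {U : Set E} {Ω : Set (E × ℂ)} {Φ : E × ℂ → E} (h : IsFlow f U Ω Φ) (τ : ℂ) :
    IsFlow (fun x => τ • f x) U {p | (p.1, p.2 * τ) ∈ Ω} (fun p => Φ (p.1, p.2 * τ)) := by
  have hm : Differentiable ℂ (fun p : E × ℂ => (p.1, p.2 * τ)) := by fun_prop
  refine ⟨h.opU, h.holf.const_smul τ, h.op.preimage hm.continuous,
    h.hol.comp hm.differentiableOn fun p hp => hp, fun p hp => h.mem _ hp, fun p hp s hs => ?_,
    fun x hx => ?_, fun p hp => ?_, fun σ γ hγ => ?_⟩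
  · have := h.star _ hp s hs
    simpa [mul_assoc] using this
  · simpa using h.zero x hx
  · have h1 : HasDerivAt (fun t : ℂ => Φ (p.1, t)) (f (Φ (p.1, p.2 * τ))) (p.2 * τ) := h.der _ hp
    have h2 : HasDerivAt (fun t : ℂ => t * τ) τ p.2 := by
      simpa using (hasDerivAt_id p.2).mul_const τ
    exact HasDerivAt.scomp p.2 h1 h2
  · exact h.max (σ * τ) γ fun s hs => ⟨(hγ s hs).1, by simpa [mul_smul] using (hγ s hs).2⟩

end Flows

theorem flowsS (hF : FlowStmt) : FlowsStmt :=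
  ⟨isFlow_flow hF Flows.DY_open Flows.XY_diff, isFlow_flow hF Flows.DR_open Flows.XR_diff,
    isFlow_flow hF Flows.DL_open Flows.XL_diff⟩

theorem extCS (hE : ExtStmt) : ExtCStmt := by
  intro E _ _ _ _ f U Ω Φ h K hK hKU x hx τ hb
  have := (hE E _ U _ _ (Flows.rescale h τ) K hK hKU x hx 1 zero_le_one).1
    (fun s hs hm => hb s hs hm)
  simpa using this

end Pool.Agent.MP_1ba41f_an.S2.FL
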