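import Pool.Agent.MP_1ba41f_an.S2.FL.Spec

/-! First integrals at the encounters. -/

noncomputable section
open Set Complex
open scoped ComplexConjugate

namespace Pool.Agent.MP_1ba41f_an.S2.FL

namespace IntL

theorem const01 {f : ℝ → ℂ} (h : ∀ u ∈ Icc (0 : ℝ) 1, HasDerivWithinAt f 0 (Icc 0 1) u) :
    ∀ u ∈ Icc (0 : ℝ) 1, f u = f 0 :=
  constant_of_derivWithin_zero (fun u hu => (h u hu).differentiableWithinAt) fun u hu =>
    (h u (Ico_subset_Icc_self hu)).derivWithin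
      (uniqueDiffOn_Icc one_pos u (Ico_subset_Icc_self hu))

variable {γ : ℝ → Lc} {v : Lc} {T : ℂ} {J : Set ℝ} {u : ℝ}

theorem d1 (h : HasDerivWithinAt γ v J u) :
    HasDerivWithinAt (fun u => (γ u).1.1) v.1.1 J u ∧
    HasDerivWithinAt (fun u => (γ u).1.2) v.1.2 J u ∧
    HasDerivWithinAt (fun u => (γ u).2.1.1) v.2.1.1 J u ∧
    HasDerivWithinAt (fun u => (γ u).2.1.2) v.2.1.2 J u ∧
    ∀ i, HasDerivWithinAt (fun u => (γ u).2.2 i) (v.2.2 i) J u := by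
  have h0 := h.hasFDerivWithinAt
  refine ⟨?_, ?_, ?_, ?_, fun i => ?_⟩
  · simpa using h0.fst.fst.hasDerivWithinAt
  · simpa using h0.fst.snd.hasDerivWithinAt
  · simpa using h0.snd.fst.fst.hasDerivWithinAt
  · simpa using h0.snd.fst.snd.hasDerivWithinAt
  · have h1 : HasDerivWithinAt (fun u => (γ u).2.2) v.2.2 J u := by
      simpa using h0.snd.snd.hasDerivWithinAt
    exact hasDerivWithinAt_pi.1 h1 i

theorem dz (h : HasDerivWithinAt γ (T • XL (γ u)) J u) (i : Fin 10) :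
    HasDerivWithinAt (fun u => (γ u).2.2 i) (T * lN (γ u) i) J u :=
  (d1 h).2.2.2.2 i

theorem dw (h : HasDerivWithinAt γ (T • XL (γ u)) J u) :
    HasDerivWithinAt (fun u => lw (γ u)) (T * lm (γ u)) J u := by
  have := ((d1 h).1.add (d1 h).2.2.1).div_const 2
  refine this.congr_deriv ?_
  simp only [XL, hypF, lm, Prod.smul_fst, Prod.smul_snd, Prod.fst_add, Prod.fst_sub,
    Prod.fst_neg, smul_eq_mul]
  ring

theorem dwt (h : HasDerivWithinAt γ (T • XL (γ u)) J u) :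
    HasDerivWithinAt (fun u => lwt (γ u)) (T * lmt (γ u)) J u := by
  have := ((d1 h).2.1.add (d1 h).2.2.2.1).div_const 2
  refine this.congr_deriv ?_
  simp only [XL, hypF, lmt, Prod.smul_fst, Prod.smul_snd, Prod.snd_add, Prod.snd_sub,
    Prod.snd_neg, smul_eq_mul]
  ring

theorem dm (h : HasDerivWithinAt γ (T • XL (γ u)) J u) :
    HasDerivWithinAt (fun u => lm (γ u)) (T * (lw (γ u) + (ln (γ u)).1)) J u := by
  have := ((d1 h).1.sub (d1 h).2.2.1).div_const 2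
  refine this.congr_deriv ?_
  simp only [XL, hypF, lw, Prod.smul_fst, Prod.smul_snd, Prod.fst_add, Prod.fst_sub,
    Prod.fst_neg, smul_eq_mul]
  ring

theorem dmt (h : HasDerivWithinAt γ (T • XL (γ u)) J u) :
    HasDerivWithinAt (fun u => lmt (γ u)) (T * (lwt (γ u) + (ln (γ u)).2)) J u := by
  have := ((d1 h).2.1.sub (d1 h).2.2.2.1).div_const 2
  refine this.congr_deriv ?_
  simp only [XL, hypF, lwt, Prod.smul_fst, Prod.smul_snd, Prod.snd_add, Prod.snd_sub,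
    Prod.snd_neg, smul_eq_mul]
  ring

theorem dC (hD : γ u ∈ DL) (h : HasDerivWithinAt γ (T • XL (γ u)) J u) :
    HasDerivWithinAt (fun u => CL (γ u)) 0 J u := by
  obtain ⟨h0, h3, h4, h5, h6⟩ := hD
  have := (((dz h 0).pow 2).const_mul 2).mul
    (((dm h).mul (dmt h)).sub ((dw h).mul (dwt h)))
  refine this.congr_deriv ?_
  simp only [lN, ln, lk, Matrix.cons_val_zero, Pi.mul_apply, Pi.sub_apply, Pi.pow_apply]
  field_simp
  ring

theorem dU (hD : γ u ∈ DL) (h : HasDerivWithinAt γ (T • XL (γ u)) J u) :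
    HasDerivWithinAt (fun u => (γ u).2.2 5 ^ 2 - (γ u).2.2 3 ^ 2 - lw (γ u) ^ 2) 0 J u := by
  obtain ⟨h0, h3, h4, h5, h6⟩ := hD
  have := (((dz h 5).pow 2).sub ((dz h 3).pow 2)).sub ((dw h).pow 2)
  refine this.congr_deriv ?_
  simp only [lN, Matrix.cons_val]
  field_simp
  ring

theorem dUt (hD : γ u ∈ DL) (h : HasDerivWithinAt γ (T • XL (γ u)) J u) :
    HasDerivWithinAt (fun u => (γ u).2.2 6 ^ 2 - (γ u).2.2 4 ^ 2 - lwt (γ u) ^ 2) 0 J u := by
  obtain ⟨h0, h3, h4, h5, h6⟩ := hD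
  have := (((dz h 6).pow 2).sub ((dz h 4).pow 2)).sub ((dwt h).pow 2)
  refine this.congr_deriv ?_
  simp only [lN, Matrix.cons_val]
  field_simp
  ring

theorem d8 (h : HasDerivWithinAt γ (T • XL (γ u)) J u) :
    HasDerivWithinAt (fun u => (γ u).2.2 8) 0 J u := by
  refine (dz h 8).congr_deriv ?_
  simp only [lN, Matrix.cons_val, mul_zero]

theorem d9 (h : HasDerivWithinAt γ (T • XL (γ u)) J u) :
    HasDerivWithinAt (fun u => (γ u).2.2 9) 0 J u := by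
  refine (dz h 9).congr_deriv ?_
  simp only [lN, Matrix.cons_val, mul_zero]

theorem dH (hD : γ u ∈ DL) (h : HasDerivWithinAt γ (T • XL (γ u)) J u) :
    HasDerivWithinAt (fun u => HL (γ u)) 0 J u := by
  obtain ⟨h0, h3, h4, h5, h6⟩ := hD
  have := ((((((d9 h).const_add 1).mul (dz h 1)).mul (dz h 2)).div_const 2).add
    ((((d8 h).const_mul 2).mul ((d8 h).const_sub 1)).mul ((dz h 0).pow 2))).sub
    ((d8 h).div ((dz h 3).mul (dz h 4)) (mul_ne_zero h3 h4)) |>.sub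
    (((d8 h).const_sub 1).div ((dz h 5).mul (dz h 6)) (mul_ne_zero h5 h6))
  refine this.congr_deriv ?_
  simp only [lN, lk, lF, lFt, Matrix.cons_val, Pi.mul_apply, Pi.pow_apply]
  field_simp
  ring

theorem dA (hD : γ u ∈ DL) (h : HasDerivWithinAt γ (T • XL (γ u)) J u)
    (e1 : (γ u).2.2 5 ^ 2 - (γ u).2.2 3 ^ 2 = lw (γ u) ^ 2)
    (e2 : (γ u).2.2 6 ^ 2 - (γ u).2.2 4 ^ 2 = lwt (γ u) ^ 2) :
    HasDerivWithinAt (fun u => AL (γ u)) 0 J u := by
  obtain ⟨h0, h3, h4, h5, h6⟩ := hD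
  have := ((((((d8 h).mul ((dz h 4).pow 2)).add (((d8 h).const_sub 1).mul ((dz h 6).pow 2))).mul
    (dz h 1)).sub ((((d8 h).mul ((dz h 3).pow 2)).add
      (((d8 h).const_sub 1).mul ((dz h 5).pow 2))).mul (dz h 2))).add
    (((((d8 h).const_mul 2).mul ((d8 h).const_sub 1)).mul (dz h 0)).mul
      (((dwt h).mul (dm h)).sub ((dw h).mul (dmt h))))).div_const (2 * I)
  refine this.congr_deriv ?_
  rw [div_eq_zero_iff]
  left
  have key : T * (γ u).2.2 8 * (1 - (γ u).2.2 8) * (lw (γ u) * lwt (γ u) / (γ u).2.2 0) *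
      ((lwt (γ u) ^ 2 - ((γ u).2.2 6 ^ 2 - (γ u).2.2 4 ^ 2)) * lF (γ u) -
        (lw (γ u) ^ 2 - ((γ u).2.2 5 ^ 2 - (γ u).2.2 3 ^ 2)) * lFt (γ u)) = 0 := by
    rw [e1, e2]; ring
  refine Eq.trans ?_ key
  simp only [lN, ln, lk, lF, lFt, Matrix.cons_val, Pi.mul_apply, Pi.pow_apply, Pi.add_apply,
    Pi.sub_apply]
  field_simp
  ring

end IntL

open IntL in
theorem intLS (hF : FlowsStmt) : IntLStmt := by
  intro h c a e p τ hp hL
  obtain ⟨h0, hg⟩ := hF.2.2.traj hp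
  simp only at h0 hg
  set γ : ℝ → Lc := fun u : ℝ => FLc (p, (u : ℂ) * τ) with hγ
  have h1 : FLc (p, τ) = γ 1 := by simp [hγ]
  have h0' : γ 0 = p := h0
  have hg' : ∀ u ∈ Icc (0 : ℝ) 1, γ u ∈ DL ∧ HasDerivWithinAt γ (τ • XL (γ u)) (Icc 0 1) u := hg
  have o : (1 : ℝ) ∈ Icc (0 : ℝ) 1 := ⟨zero_le_one, le_rfl⟩
  obtain ⟨l1, l2, l3, l4, l5, l6, l7⟩ := hL
  have k4 : ∀ u ∈ Icc (0 : ℝ) 1, (γ u).2.2 5 ^ 2 - (γ u).2.2 3 ^ 2 = lw (γ u) ^ 2 := by
    intro u hu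
    have := const01 (fun u hu => dU (hg' u hu).1 (hg' u hu).2) u hu
    rw [h0', l4, sub_self] at this
    exact sub_eq_zero.1 this
  have k5 : ∀ u ∈ Icc (0 : ℝ) 1, (γ u).2.2 6 ^ 2 - (γ u).2.2 4 ^ 2 = lwt (γ u) ^ 2 := by
    intro u hu
    have := const01 (fun u hu => dUt (hg' u hu).1 (hg' u hu).2) u hu
    rw [h0', l5, sub_self] at this
    exact sub_eq_zero.1 this
  rw [h1]
  refine ⟨?_, ?_, ?_, k4 1 o, k5 1 o, ?_, ?_⟩
  · rw [const01 (fun u hu => d8 (hg' u hu).2) 1 o, h0', l1]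
  · rw [const01 (fun u hu => d9 (hg' u hu).2) 1 o, h0', l2]
  · rw [const01 (fun u hu => dC (hg' u hu).1 (hg' u hu).2) 1 o, h0', l3]
  · rw [const01 (fun u hu => dH (hg' u hu).1 (hg' u hu).2) 1 o, h0', l6]
  · rw [const01 (fun u hu => dA (hg' u hu).1 (hg' u hu).2 (k4 u hu) (k5 u hu)) 1 o, h0', l7]

end Pool.Agent.MP_1ba41f_an.S2.FL
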