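import Pool.Agent.MP_1ba41f_an.S2.FL.Spec

/-! First integrals on the arcs. -/

noncomputable section
open Set Complex

namespace Pool.Agent.MP_1ba41f_an.S2.FL

namespace IntY

lemma const (hF : IsFlow XY DY OY FY) (J : Yz → ℂ)
    (hJ : ∀ (γ : ℂ → Yz) (t : ℂ), γ t ∈ DY → HasDerivAt γ (XY (γ t)) t →
      HasDerivAt (fun s => J (γ s)) 0 t) {y : Yz} {τ : ℂ} (h : (y, τ) ∈ OY) :
    J (FY (y, τ)) = J y := by
  have hd : ∀ u ∈ Icc (0 : ℝ) 1, HasDerivAt (fun u : ℝ => J (FY (y, (u : ℂ) * τ))) 0 u := by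
    intro u hu
    have hm := hF.star _ h u hu
    have h1 := hJ (fun t => FY (y, t)) ((u : ℂ) * τ) (hF.mem _ hm).2 (hF.der _ hm)
    have h2 : HasDerivAt (fun t : ℂ => t * τ) τ (u : ℂ) := by
      simpa using (hasDerivAt_id (u : ℂ)).mul_const τ
    have h3 := hasDerivAt_ofReal (HasDerivAt.scomp (u : ℂ) h1 h2)
    simpa [Function.comp_def] using h3
  have := constant_of_has_deriv_right_zero (f := fun u : ℝ => J (FY (y, (u : ℂ) * τ)))
    (fun u hu => (hd u hu).continuousAt.continuousWithinAt)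
    (fun u hu => (hd u (Ico_subset_Icc_self hu)).hasDerivWithinAt) 1 (by simp)
  simpa [(hF.zero y (hF.mem _ h).1).2] using this

section
variable {γ : ℂ → Yz} {t : ℂ} {v : Yz}

lemma dz (h : HasDerivAt γ v t) (i : Fin 9) : HasDerivAt (fun s => (γ s).1 i) (v.1 i) t :=
  hasDerivAt_pi.1 ((ContinuousLinearMap.fst ℂ Az (ℂ × ℂ × ℂ × ℂ)).hasFDerivAt.comp_hasDerivAt t h) i

lemma d2 (h : HasDerivAt γ v t) : HasDerivAt (fun s => (γ s).2) v.2 t :=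
  (ContinuousLinearMap.snd ℂ Az (ℂ × ℂ × ℂ × ℂ)).hasFDerivAt.comp_hasDerivAt t h

lemma dl (h : HasDerivAt γ v t) : HasDerivAt (fun s => (γ s).2.1) v.2.1 t :=
  (ContinuousLinearMap.fst ℂ ℂ (ℂ × ℂ × ℂ)).hasFDerivAt.comp_hasDerivAt t (d2 h)

lemma d22 (h : HasDerivAt γ v t) : HasDerivAt (fun s => (γ s).2.2) v.2.2 t :=
  (ContinuousLinearMap.snd ℂ ℂ (ℂ × ℂ × ℂ)).hasFDerivAt.comp_hasDerivAt t (d2 h)

lemma dh (h : HasDerivAt γ v t) : HasDerivAt (fun s => (γ s).2.2.1) v.2.2.1 t :=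
  (ContinuousLinearMap.fst ℂ ℂ (ℂ × ℂ)).hasFDerivAt.comp_hasDerivAt t (d22 h)

lemma d222 (h : HasDerivAt γ v t) : HasDerivAt (fun s => (γ s).2.2.2) v.2.2.2 t :=
  (ContinuousLinearMap.snd ℂ ℂ (ℂ × ℂ)).hasFDerivAt.comp_hasDerivAt t (d22 h)

lemma da (h : HasDerivAt γ v t) : HasDerivAt (fun s => (γ s).2.2.2.1) v.2.2.2.1 t :=
  (ContinuousLinearMap.fst ℂ ℂ ℂ).hasFDerivAt.comp_hasDerivAt t (d222 h)

lemma de (h : HasDerivAt γ v t) : HasDerivAt (fun s => (γ s).2.2.2.2) v.2.2.2.2 t :=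
  (ContinuousLinearMap.snd ℂ ℂ ℂ).hasFDerivAt.comp_hasDerivAt t (d222 h)

end

section
variable (l h a e : ℂ) (z : Az)

lemma x0 : XA l h a e z 0 =
    ((1 + e * a) * z 2 * rr3 z + e * (1 - a) * z 6 * z 4 * z 1) / (2 * nn z) := rfl
lemma x1 : XA l h a e z 1 =
    ((1 + e * a) * z 3 * rr3 z + e * (1 - a) * z 7 * z 5 * z 0) / (2 * nn z) := rfl
lemma x2 : XA l h a e z 2 =
    (z 0 * (h * rr3 z - (1 - a) * ((1 + e * (1 - a)) * z 6 * z 7 / 2 - 1)) / a +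
      e * (1 - a) * (z 0 * rr3 z / l - z 3 * z 6 * z 4 / 2 + rr2 z * rr3 z * z 1 * dd z / l ^ 3)) /
      nn z := rfl
lemma x3 : XA l h a e z 3 =
    (z 1 * (h * rr3 z - (1 - a) * ((1 + e * (1 - a)) * z 6 * z 7 / 2 - 1)) / a +
      e * (1 - a) * (z 1 * rr3 z / l - z 2 * z 7 * z 5 / 2 + rr2 z * rr3 z * z 0 * ddt z / l ^ 3)) /
      nn z := rfl
lemma x4 : XA l h a e z 4 =
    ((1 + e * (1 - a)) * z 6 * rr2 z + e * a * z 2 * z 0 * z 5) / (2 * nn z) := rfl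
lemma x5 : XA l h a e z 5 =
    ((1 + e * (1 - a)) * z 7 * rr2 z + e * a * z 3 * z 1 * z 4) / (2 * nn z) := rfl
lemma x6 : XA l h a e z 6 =
    (z 4 * (h * rr2 z - a * ((1 + e * a) * z 2 * z 3 / 2 - 1)) / (1 - a) +
      e * a * (z 4 * rr2 z / l - z 7 * z 2 * z 0 / 2 - rr2 z * rr3 z * z 5 * dd z / l ^ 3)) /
      nn z := rfl
lemma x7 : XA l h a e z 7 =
    (z 5 * (h * rr2 z - a * ((1 + e * a) * z 2 * z 3 / 2 - 1)) / (1 - a) +
      e * a * (z 5 * rr2 z / l - z 6 * z 3 * z 1 / 2 - rr2 z * rr3 z * z 4 * ddt z / l ^ 3)) /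
      nn z := rfl

end

variable {γ : ℂ → Yz} {t : ℂ}

lemma intC (hm : γ t ∈ DY) (h : HasDerivAt γ (XY (γ t)) t) :
    HasDerivAt (fun s => (γ s).2.1 ^ 2 - dd (γ s).1 * ddt (γ s).1) 0 t := by
  obtain ⟨hn, hl, -, -⟩ := hm
  have H := ((dl h).fun_pow 2).fun_sub
    ((((dz h 4).fun_pow 2).fun_sub ((dz h 0).fun_pow 2)).fun_mul
      (((dz h 5).fun_pow 2).fun_sub ((dz h 1).fun_pow 2)))
  refine HasDerivAt.congr_deriv H ?_
  simp only [XY, x0, x1, x4, x5, dD, dDt]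
  generalize nn (γ t).1 = N at hn ⊢
  simp only [dd, ddt, rr2, rr3]
  field_simp
  ring

lemma intG (hm : γ t ∈ DY) (h : HasDerivAt γ (XY (γ t)) t) :
    HasDerivAt (fun s => GA (γ s).2.2.2.1 (γ s).1) 0 t := by
  obtain ⟨hn, hl, ha, ha1⟩ := hm
  have hb : 1 - (γ t).2.2.2.1 ≠ 0 := sub_ne_zero.2 (Ne.symm ha1)
  have H := (((da h).fun_mul (((dz h 1).fun_mul (dz h 2)).fun_sub ((dz h 0).fun_mul (dz h 3)))).fun_add
    (((da h).const_sub 1).fun_mul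
      (((dz h 5).fun_mul (dz h 6)).fun_sub ((dz h 4).fun_mul (dz h 7))))).div_const (2 * I)
  refine HasDerivAt.congr_deriv H ?_
  rw [div_eq_zero_iff]
  left
  simp only [XY, x0, x1, x2, x3, x4, x5, x6, x7]
  generalize nn (γ t).1 = N at hn ⊢
  simp only [dd, ddt, rr2, rr3]
  field_simp
  ring

lemma intK (hm : γ t ∈ DY) (h : HasDerivAt γ (XY (γ t)) t) :
    HasDerivAt (fun s => KA (γ s).2.1 (γ s).2.2.1 (γ s).2.2.2.1 (γ s).2.2.2.2 (γ s).1) 0 t := by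
  obtain ⟨hn, hl, ha, ha1⟩ := hm
  have hb : 1 - (γ t).2.2.2.1 ≠ 0 := sub_ne_zero.2 (Ne.symm ha1)
  have r2 := (dz h 0).fun_mul (dz h 1)
  have r3 := (dz h 4).fun_mul (dz h 5)
  have b := (da h).const_sub 1
  have c := ((de h).fun_mul (da h)).fun_mul b
  have t1 := (r3.fun_mul (da h)).fun_mul
    ((((((((de h).fun_mul (da h)).const_add 1).fun_mul (dz h 2)).fun_mul (dz h 3)).div_const
      2).sub_const 1))
  have t2 := (r2.fun_mul b).fun_mul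
    ((((((((de h).fun_mul b).const_add 1).fun_mul (dz h 6)).fun_mul (dz h 7)).div_const
      2).sub_const 1))
  have t3 := (c.fun_mul
    (((((dz h 2).fun_mul (dz h 0)).fun_mul (dz h 7)).fun_mul (dz h 5)).fun_add
      ((((dz h 3).fun_mul (dz h 1)).fun_mul (dz h 6)).fun_mul (dz h 4)))).div_const 2
  have t4 := ((c.fun_mul r2).fun_mul r3).fun_div (dl h) hl
  have t5 := ((dh h).fun_mul r2).fun_mul r3
  have H := (((t1.fun_add t2).fun_add t3).fun_sub t4).fun_sub t5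
  refine HasDerivAt.congr_deriv H ?_
  simp only [XY, x0, x1, x2, x3, x4, x5, x6, x7, dD, dDt]
  generalize nn (γ t).1 = N at hn ⊢
  simp only [dd, ddt, rr2, rr3]
  field_simp
  ring

end IntY

theorem intYS (hF : FlowsStmt) : IntYStmt := by
  intro y τ hy
  have eh := IntY.const hF.1 (fun y => y.2.2.1) (fun γ t _ h => IntY.dh h) hy
  have ea := IntY.const hF.1 (fun y => y.2.2.2.1) (fun γ t _ h => IntY.da h) hy
  have ee := IntY.const hF.1 (fun y => y.2.2.2.2) (fun γ t _ h => IntY.de h) hy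
  have eC := IntY.const hF.1 (fun y => y.2.1 ^ 2 - dd y.1 * ddt y.1)
    (fun γ t hm h => IntY.intC hm h) hy
  have eG := IntY.const hF.1 (fun y => GA y.2.2.2.1 y.1) (fun γ t hm h => IntY.intG hm h) hy
  have eK := IntY.const hF.1 (fun y => KA y.2.1 y.2.2.1 y.2.2.2.1 y.2.2.2.2 y.1)
    (fun γ t hm h => IntY.intK hm h) hy
  refine ⟨Prod.ext eh (Prod.ext ea ee), eC, ?_⟩
  rintro h c a e ⟨h1, h2, h3, h4, h5, h6⟩
  refine ⟨eh.trans h1, ea.trans h2, ee.trans h3, ?_, ?_, ?_⟩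
  · rw [h4, sub_self] at eC
    exact sub_eq_zero.1 eC
  · rw [eh, ea, ee, h1, h2, h3] at eK
    exact eK.trans h5
  · rw [ea, h2] at eG
    exact eG.trans h6

end Pool.Agent.MP_1ba41f_an.S2.FL
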