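import Pool.Agent.MP_1ba41f_an.S2.FL.Spec

/-! The encounter chart: physical meaning and the passage to the arc chart. -/

noncomputable section
open Set Complex
open scoped ComplexConjugate

namespace Pool.Agent.MP_1ba41f_an.S2.FL

namespace PhysL

theorem norm_sq (u ut : ℂ) (h : ut = conj u) : ((‖u ^ 2‖ : ℝ) : ℂ) = u * ut := by
  rw [h, Complex.mul_conj, norm_pow, Complex.normSq_eq_norm_sq]

theorem lwt_conj {p : Lc} (h : RealL p) : lwt p = conj (lw p) := by
  unfold lwt lw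
  rw [h.1, h.2.1]
  simp only [map_div₀, map_add, map_ofNat]

theorem lmt_conj {p : Lc} (h : RealL p) : lmt p = conj (lm p) := by
  unfold lmt lm
  rw [h.1, h.2.1]
  simp only [map_div₀, map_sub, map_ofNat]

theorem dfst {E F : Type} [NormedAddCommGroup E] [NormedSpace ℝ E] [NormedAddCommGroup F]
    [NormedSpace ℝ F] {γ : ℝ → E × F} {v : E × F} {s : ℝ} (h : HasDerivAt γ v s) :
    HasDerivAt (fun t => (γ t).1) v.1 s :=
  (ContinuousLinearMap.fst ℝ E F).hasFDerivAt.comp_hasDerivAt s h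

theorem dsnd {E F : Type} [NormedAddCommGroup E] [NormedSpace ℝ E] [NormedAddCommGroup F]
    [NormedSpace ℝ F] {γ : ℝ → E × F} {v : E × F} {s : ℝ} (h : HasDerivAt γ v s) :
    HasDerivAt (fun t => (γ t).2) v.2 s :=
  (ContinuousLinearMap.snd ℝ E F).hasFDerivAt.comp_hasDerivAt s h

theorem d_lw {γ : ℝ → Lc} {p : Lc} {s : ℝ} (h : HasDerivAt γ (XL p) s) :
    HasDerivAt (fun t => lw (γ t)) (lm p) s := by
  refine (((dfst (dfst h)).add (dfst (dfst (dsnd h)))).div_const 2).congr_deriv ?_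
  simp only [XL, hypF, lm, Prod.fst_add, Prod.fst_sub, Prod.fst_neg]
  ring

theorem d_lwt {γ : ℝ → Lc} {p : Lc} {s : ℝ} (h : HasDerivAt γ (XL p) s) :
    HasDerivAt (fun t => lwt (γ t)) (lmt p) s := by
  refine (((dsnd (dfst h)).add (dsnd (dfst (dsnd h)))).div_const 2).congr_deriv ?_
  simp only [XL, hypF, lmt, Prod.snd_add, Prod.snd_sub, Prod.snd_neg]
  ring

theorem d_lm {γ : ℝ → Lc} {p : Lc} {s : ℝ} (h : HasDerivAt γ (XL p) s) :
    HasDerivAt (fun t => lm (γ t)) (lw p + (ln p).1) s := by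
  refine (((dfst (dfst h)).sub (dfst (dfst (dsnd h)))).div_const 2).congr_deriv ?_
  simp only [XL, hypF, lw, Prod.fst_add, Prod.fst_sub, Prod.fst_neg]
  ring

theorem d_z {γ : ℝ → Lc} {p : Lc} {s : ℝ} (h : HasDerivAt γ (XL p) s) (i : Fin 10) :
    HasDerivAt (fun t => (γ t).2.2 i) (lN p i) s :=
  hasDerivAt_pi.1 (dsnd (dsnd h)) i

theorem d_U {γ : ℝ → Lc} {p : Lc} {s : ℝ} (h : HasDerivAt γ (XL p) s) (hs : γ s = p)
    (hw : lwt p ≠ 0) (hk : p.2.2 0 ≠ 0) :
    HasDerivAt (fun t => 2 * (γ t).2.2 0 * lm (γ t) / lwt (γ t))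
      (lw p * lwt p / p.2.2 0 * (lF p - CL p / (lw p * lwt p ^ 3))) s ∨ lw p = 0 := by
  by_cases h0 : lw p = 0
  · exact Or.inr h0
  left
  have h1 := (((d_z h 0).const_mul 2).mul (d_lm h)).div (d_lwt h) (by rw [hs]; exact hw)
  refine h1.congr_deriv ?_
  simp only [Pi.mul_apply, hs, lN, Matrix.cons_val_zero, ln, CL]
  field_simp
  ring

end PhysL

open PhysL

theorem physLS : PhysLStmt := by
  intro h c a e p hD hR hL hk
  obtain ⟨k0, k3, k4, k5, k6⟩ := hD
  obtain ⟨ha, he, hC, h53, -, -, -⟩ := hL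
  have hwt := lwt_conj hR
  have hmt := lmt_conj hR
  have hkr : conj (p.2.2 0) = p.2.2 0 := Complex.conj_eq_iff_im.2 hR.2.2.1
  refine ⟨⟨?_, ?_, ?_, ?_, ?_⟩, fun hw => ?_⟩
  · simp [projE, hR.2.2.2.2.1]
  · simpa [projE] using hwt
  · simp [projE, hmt, hkr, map_ofNat]
  · simpa [projE] using hR.2.2.2.1
  · simpa [projE] using hR.2.2.2.2.2.2.1
  have hw' : lwt p ≠ 0 := by rw [hwt]; simpa using hw
  have hg : ((Complex.normSq (lw p) / (p.2.2 0).re : ℝ) : ℂ) = lw p * lwt p / p.2.2 0 := by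
    rw [hwt, Complex.mul_conj, Complex.ofReal_div, Complex.conj_eq_iff_re.1 hkr]
  refine ⟨Complex.normSq (lw p) / (p.2.2 0).re, div_pos (Complex.normSq_pos.2 hw) hk, ?_, ?_⟩
  · rw [hg]; simp [XL, hypF, lN]
  intro γ s hs hγ
  have hU := (d_U hγ hs hw' k0).resolve_right hw
  have hu := (d_z hγ 3).pow 2
  have hw2 := (d_lw hγ).pow 2
  have hV := d_z hγ 1
  have h3 : p.2.2 3 ^ 2 + lw p ^ 2 = p.2.2 5 ^ 2 := by linear_combination -h53
  have h4 : p.2.2 5 ^ 2 - p.2.2 3 ^ 2 = lw p ^ 2 := h53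
  have n2 := norm_sq _ _ hR.2.2.2.2.1
  have n3 := norm_sq _ _ hR.2.2.2.2.2.1
  have nw := norm_sq _ _ hwt
  have H := (hu.prodMk (hu.add hw2)).prodMk
    ((hV.sub (hU.const_mul (1 - (a : ℂ)))).prodMk (hV.add (hU.const_mul (a : ℂ))))
  refine HasDerivAt.congr_deriv H ?_
  have e1 : physE a (projE p) = ((p.2.2 3 ^ 2, p.2.2 5 ^ 2),
      (p.2.2 1 - (1 - a) * (2 * p.2.2 0 * lm p / lwt p),
        p.2.2 1 + a * (2 * p.2.2 0 * lm p / lwt p))) := by
    rw [← h3]; rfl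
  rw [e1]
  simp only [NF, Prod.smul_mk, Complex.real_smul, hg, h4, n2, n3, nw, hs, hC]
  refine Prod.ext (Prod.ext ?_ ?_) (Prod.ext ?_ ?_)
  · simp only [lN, Matrix.cons_val, ha, he]
    push_cast
    field_simp
    ring
  · simp only [lN, Matrix.cons_val, ha, he]
    push_cast
    field_simp
    ring
  · simp only [lN, lF, Matrix.cons_val, ha, he]
    push_cast
    field_simp
    ring
  · simp only [lN, lF, Matrix.cons_val, ha, he]
    push_cast
    field_simp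
    ring

theorem chartS : ChartStmt := by
  have dw : Differentiable ℂ lw := by unfold lw; fun_prop
  have dwt : Differentiable ℂ lwt := by unfold lwt; fun_prop
  have dm : Differentiable ℂ lm := by unfold lm; fun_prop
  have dmt : Differentiable ℂ lmt := by unfold lmt; fun_prop
  refine ⟨?_, dw, dwt, ?_, ?_⟩
  · refine differentiable_pi.2 fun i => ?_
    fin_cases i <;> simp [projE] <;> fun_prop
  · intro x hx
    refine DifferentiableAt.differentiableWithinAt ?_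
    have h1 := hx.1
    have h2 := hx.2
    unfold exY
    refine DifferentiableAt.prodMk ?_ (by fun_prop)
    refine differentiableAt_pi.2 fun i => ?_
    fin_cases i <;> simp [exZ] <;> fun_prop (disch := assumption)
  intro h c a e p hD hL hw hw'
  obtain ⟨k0, k3, k4, k5, k6⟩ := hD
  obtain ⟨ha, he, hC, h53, h64, hH, hA⟩ := hL
  subst ha he
  have hd : dd (exZ p) = lw p ^ 2 := by simpa [dd, exZ] using h53
  have hdt : ddt (exZ p) = lwt p ^ 2 := by simpa [ddt, exZ] using h64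
  refine ⟨⟨rfl, rfl, rfl, ?_, ?_, ?_⟩, hd, hdt, ?_, ?_⟩
  · show (lw p * lwt p) ^ 2 = dd (exZ p) * ddt (exZ p)
    rw [hd, hdt]; ring
  · show KA (lw p * lwt p) h (p.2.2 8) (p.2.2 9) (exZ p) = 0
    have : KA (lw p * lwt p) h (p.2.2 8) (p.2.2 9) (exZ p) =
        p.2.2 3 * p.2.2 4 * p.2.2 5 * p.2.2 6 * ((HL p - h) +
          p.2.2 8 * (1 - p.2.2 8) * (CL p - p.2.2 9) / (lw p * lwt p)) := by
      simp only [KA, rr2, rr3, exZ, HL, CL, Matrix.cons_val]
      field_simp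
      ring
    rw [this, hH, hC]; simp
  · show GA (p.2.2 8) (exZ p) = c
    rw [← hA]
    simp only [GA, AL, exZ, Matrix.cons_val]
    congr 1
    have a1 : lw p * (lmt p / lw p) = lmt p := by field_simp
    have a2 : lwt p * (lm p / lwt p) = lm p := by field_simp
    linear_combination
      2 * p.2.2 8 * (1 - p.2.2 8) * p.2.2 0 * (lm p / lwt p) * h64
      + 2 * p.2.2 8 * (1 - p.2.2 8) * p.2.2 0 * lwt p * a2
      - 2 * p.2.2 8 * (1 - p.2.2 8) * p.2.2 0 * (lmt p / lw p) * h53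
      - 2 * p.2.2 8 * (1 - p.2.2 8) * p.2.2 0 * lw p * a1
  · intro b hb
    simp only [physE, physA, projE, exZ, Matrix.cons_val, ← hb]
    refine Prod.ext (Prod.ext rfl ?_) (Prod.ext ?_ ?_)
    · show p.2.2 3 ^ 2 + lw p ^ 2 = p.2.2 5 ^ 2
      linear_combination -h53
    · simp only []
      field_simp
    · simp only []
      field_simp
  · intro hR hh
    have hwt := lwt_conj hR
    have hmt := lmt_conj hR
    have hkr : conj (p.2.2 0) = p.2.2 0 := Complex.conj_eq_iff_im.2 hR.2.2.1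
    have har : conj (p.2.2 8) = p.2.2 8 := Complex.conj_eq_iff_im.2 hR.2.2.2.2.2.2.2.1
    have hn : lw p * lwt p = (Complex.normSq (lw p) : ℂ) := by rw [hwt, Complex.mul_conj]
    refine ⟨⟨⟨?_, ?_, ?_, ?_, ?_⟩, ?_, hh, hR.2.2.2.2.2.2.2.1, hR.2.2.2.2.2.2.2.2⟩, ?_⟩
    · simpa [exY, exZ] using hR.2.2.2.2.1
    · simp [exY, exZ, hwt, hmt, hkr, har, hR.2.2.2.2.1, hR.2.2.2.1, map_ofNat]
    · simpa [exY, exZ] using hR.2.2.2.2.2.1
    · simp [exY, exZ, hwt, hmt, hkr, har, hR.2.2.2.2.2.1, hR.2.2.2.1, map_ofNat]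
    · simp [exY, exZ]
    · show (lw p * lwt p).im = 0
      rw [hn]; simp
    · rw [hn]; simpa using Complex.normSq_pos.2 hw

end Pool.Agent.MP_1ba41f_an.S2.FL
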