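import Pool.Agent.MP_1ba41f_an.S2.FL.Spec

/-! The arcs are solutions of the Newton equations after a change of time. -/

noncomputable section
open Set Complex
open scoped ComplexConjugate

namespace Pool.Agent.MP_1ba41f_an.S2.FL

namespace PhysY

variable {l h a e : ℂ} {z : Az}

lemma x0 : XA l h a e z 0 =
    ((1 + e * a) * z 2 * rr3 z + e * (1 - a) * z 6 * z 4 * z 1) / (2 * nn z) := rfl
lemma x1 : XA l h a e z 1 =
    ((1 + e * a) * z 3 * rr3 z + e * (1 - a) * z 7 * z 5 * z 0) / (2 * nn z) := rfl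
lemma x2 : XA l h a e z 2 =
    (z 0 * (h * rr3 z - (1 - a) * ((1 + e * (1 - a)) * z 6 * z 7 / 2 - 1)) / a +
      e * (1 - a) * (z 0 * rr3 z / l - z 3 * z 6 * z 4 / 2 + rr2 z * rr3 z * z 1 * dd z / l ^ 3)) /
      nn z := rfl
lemma x4 : XA l h a e z 4 =
    ((1 + e * (1 - a)) * z 6 * rr2 z + e * a * z 2 * z 0 * z 5) / (2 * nn z) := rfl
lemma x5 : XA l h a e z 5 =
    ((1 + e * (1 - a)) * z 7 * rr2 z + e * a * z 3 * z 1 * z 4) / (2 * nn z) := rfl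
lemma x6 : XA l h a e z 6 =
    (z 4 * (h * rr2 z - a * ((1 + e * a) * z 2 * z 3 / 2 - 1)) / (1 - a) +
      e * a * (z 4 * rr2 z / l - z 7 * z 2 * z 0 / 2 - rr2 z * rr3 z * z 5 * dd z / l ^ 3)) /
      nn z := rfl
lemma x8 : XA l h a e z 8 = rr2 z * rr3 z / nn z := rfl

lemma solve_h (h0 : z 0 ≠ 0) (h1 : z 1 ≠ 0) (h4 : z 4 ≠ 0) (h5 : z 5 ≠ 0)
    (hK : KA l h a e z = 0) :
    h = (rr3 z * a * ((1 + e * a) * z 2 * z 3 / 2 - 1) +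
      rr2 z * (1 - a) * ((1 + e * (1 - a)) * z 6 * z 7 / 2 - 1) +
      e * a * (1 - a) * (z 2 * z 0 * z 7 * z 5 + z 3 * z 1 * z 6 * z 4) / 2 -
      e * a * (1 - a) * rr2 z * rr3 z / l) / (rr2 z * rr3 z) := by
  have hr : rr2 z * rr3 z ≠ 0 := mul_ne_zero (mul_ne_zero h0 h1) (mul_ne_zero h4 h5)
  rw [eq_div_iff hr]
  unfold KA at hK
  linear_combination -hK

lemma c1 (h1 : z 1 ≠ 0) (h5 : z 5 ≠ 0) (hn : nn z ≠ 0) :
    XA l h a e z 0 * z 0 + z 0 * XA l h a e z 0 = rr2 z * rr3 z / nn z *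
      (z 2 / z 1 + (e * a * (z 2 / z 1) + e * (1 - a) * (z 6 / z 5))) := by
  rw [x0]
  unfold rr2 rr3
  field_simp
  ring

lemma c2 (h1 : z 1 ≠ 0) (h5 : z 5 ≠ 0) (hn : nn z ≠ 0) :
    XA l h a e z 4 * z 4 + z 4 * XA l h a e z 4 = rr2 z * rr3 z / nn z *
      (z 6 / z 5 + (e * a * (z 2 / z 1) + e * (1 - a) * (z 6 / z 5))) := by
  rw [x4]
  unfold rr2 rr3
  field_simp
  ring

lemma c3 (h0 : z 0 ≠ 0) (h1 : z 1 ≠ 0) (h4 : z 4 ≠ 0) (h5 : z 5 ≠ 0) (hn : nn z ≠ 0)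
    (hl : l ≠ 0) (ha : a ≠ 0) (hK : KA l h a e z = 0) :
    (XA l h a e z 2 * z 1 - z 2 * XA l h a e z 1) / z 1 ^ 2 = rr2 z * rr3 z / nn z *
      (-z 0 ^ 2 / (z 0 * z 1) ^ 3 + e * (1 - a) * (z 4 ^ 2 - z 0 ^ 2) / l ^ 3) := by
  rw [x2, x1, solve_h h0 h1 h4 h5 hK]
  unfold rr2 rr3 dd
  field_simp
  ring

lemma c4 (h0 : z 0 ≠ 0) (h1 : z 1 ≠ 0) (h4 : z 4 ≠ 0) (h5 : z 5 ≠ 0) (hn : nn z ≠ 0)
    (hl : l ≠ 0) (ha : 1 - a ≠ 0) (hK : KA l h a e z = 0) :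
    (XA l h a e z 6 * z 5 - z 6 * XA l h a e z 5) / z 5 ^ 2 = rr2 z * rr3 z / nn z *
      (-z 4 ^ 2 / (z 4 * z 5) ^ 3 - e * a * (z 4 ^ 2 - z 0 ^ 2) / l ^ 3) := by
  rw [x6, x5, solve_h h0 h1 h4 h5 hK]
  unfold rr2 rr3 dd
  field_simp
  ring

lemma nsq (w : ℂ) : ((‖w‖ : ℝ) : ℂ) ^ 2 = w * conj w := (Complex.mul_conj' w).symm

lemma nsq2 (w : ℂ) : ((‖w ^ 2‖ : ℝ) : ℂ) = w * conj w := by
  rw [norm_pow, Complex.ofReal_pow, nsq]

end PhysY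

open PhysY in
theorem physYS : PhysYStmt := by
  rintro h c a e ⟨z, l, h', a', e'⟩ ⟨hn, hl, ha0, ha1⟩ ⟨⟨r1, r3, r5, r7, -⟩, hli, -⟩
    ⟨rfl, rfl, rfl, hl2, hK, hG⟩ hlp
  simp only at hn hl ha0 ha1 r1 r3 r5 r7 hli hl2 hK hG hlp
  have ha1' : (1 : ℂ) - a ≠ 0 := sub_ne_zero.2 (Ne.symm ha1)
  have hXY : (XY (z, l, (h : ℂ), (a : ℂ), (e : ℂ))).1 = XA l h a e z := rfl
  have hd : dd z ≠ 0 := by
    intro h0
    rw [h0, zero_mul] at hl2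
    exact hl (pow_eq_zero_iff two_ne_zero |>.1 hl2)
  rw [hXY]
  refine ⟨hd, fun h0 => ?_, fun h4 => ?_, fun h0 h4 => ?_⟩
  · simp only at h0
    have h1 : z 1 = 0 := by rw [r1, h0, map_zero]
    have hr : rr2 z = 0 := by rw [rr2, h0, zero_mul]
    have h3 : rr3 z ≠ 0 := by rwa [nn, hr, zero_add] at hn
    rw [x0, h1, mul_zero, add_zero]
    refine div_ne_zero (mul_ne_zero (fun h2 => ?_) h3) (mul_ne_zero two_ne_zero hn)
    rw [KA, hr, h0, h1, h2] at hK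
    exact mul_ne_zero h3 ha0 (by linear_combination -hK)
  · simp only at h4
    have h5 : z 5 = 0 := by rw [r5, h4, map_zero]
    have hr : rr3 z = 0 := by rw [rr3, h4, zero_mul]
    have h3 : rr2 z ≠ 0 := by rwa [nn, hr, add_zero] at hn
    rw [x4, h5, mul_zero, add_zero]
    refine div_ne_zero (mul_ne_zero (fun h2 => ?_) h3) (mul_ne_zero two_ne_zero hn)
    rw [KA, hr, h4, h5, h2] at hK
    exact mul_ne_zero h3 ha1' (by linear_combination -hK)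
  simp only at h0 h4
  have h1 : z 1 ≠ 0 := by rw [r1]; exact (map_ne_zero _).2 h0
  have h5 : z 5 ≠ 0 := by rw [r5]; exact (map_ne_zero _).2 h4
  have s1 : conj (z 1) = z 0 := by rw [r1, conj_conj]
  have s5 : conj (z 5) = z 4 := by rw [r5, conj_conj]
  have n0 : ((‖z 0 ^ 2‖ : ℝ) : ℂ) = z 0 * z 1 := by rw [nsq2, r1]
  have n4 : ((‖z 4 ^ 2‖ : ℝ) : ℂ) = z 4 * z 5 := by rw [nsq2, r5]
  have nl : ((‖z 4 ^ 2 - z 0 ^ 2‖ : ℝ) : ℂ) = l := by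
    have e1 : l = (l.re : ℂ) := Complex.ext rfl (by simpa using hli)
    have e2 : ((‖z 4 ^ 2 - z 0 ^ 2‖ : ℝ) : ℂ) ^ 2 = l ^ 2 := by
      rw [nsq, hl2, dd, ddt, r1, r5, map_sub, map_pow, map_pow]
    rw [e1] at e2 ⊢
    have e3 : ‖z 4 ^ 2 - z 0 ^ 2‖ ^ 2 = l.re ^ 2 := by exact_mod_cast e2
    rw [(pow_left_inj₀ (norm_nonneg _) hlp.le two_ne_zero).1 e3]
  refine ⟨?_, ?_, ‖z 0 ^ 2‖ * ‖z 4 ^ 2‖ / (‖z 0 ^ 2‖ + ‖z 4 ^ 2‖), ?_, ?_, ?_⟩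
  · apply Complex.ofReal_injective
    rw [solve_h h0 h1 h4 h5 hK]
    simp only [ham, physA, ofReal_add, ofReal_sub, ofReal_mul, ofReal_div, ofReal_pow, ofReal_one,
      ofReal_ofNat, nsq, n0, n4, nl, map_add, map_mul, map_div₀, map_sub, map_one, conj_ofReal,
      s1, s5, ← r3, ← r7]
    unfold rr2 rr3
    field_simp
    ring
  · apply Complex.ofReal_injective
    rw [← hG]
    simp only [ang, physA, ofReal_add, ofReal_sub, ofReal_mul, ofReal_one, Complex.im_eq_sub_conj,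
      map_mul, map_div₀, map_pow, conj_conj, s1, s5, ← r3, ← r7, ← r1, ← r5, GA]
    field_simp
  · have p0 : 0 < ‖z 0 ^ 2‖ := norm_pos_iff.2 (pow_ne_zero _ h0)
    have p4 : 0 < ‖z 4 ^ 2‖ := norm_pos_iff.2 (pow_ne_zero _ h4)
    positivity
  · rw [x8]
    simp only [ofReal_div, ofReal_mul, ofReal_add, n0, n4, nn, rr2, rr3]
  · intro γ s hs hγ
    simp only at hs
    have hc : ∀ i, HasDerivAt (fun s => γ s i) (XA l h a e z i) s := hasDerivAt_pi.1 hγ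
    have hv : ∀ i, γ s i = z i := fun i => by rw [hs]
    have d1 := (hc 0).fun_mul (hc 0)
    have d2 := (hc 4).fun_mul (hc 4)
    have d3 := (hc 2).fun_div (hc 1) (by rw [hv]; exact h1)
    have d4 := (hc 6).fun_div (hc 5) (by rw [hv]; exact h5)
    simp only [hv] at d1 d2 d3 d4
    rw [c1 h1 h5 hn] at d1
    rw [c2 h1 h5 hn] at d2
    rw [c3 h0 h1 h4 h5 hn hl ha0 hK] at d3
    rw [c4 h0 h1 h4 h5 hn hl ha1' hK] at d4
    have hg : ((‖z 0 ^ 2‖ * ‖z 4 ^ 2‖ / (‖z 0 ^ 2‖ + ‖z 4 ^ 2‖) : ℝ) : ℂ) =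
        rr2 z * rr3 z / nn z := by
      simp only [ofReal_div, ofReal_mul, ofReal_add, n0, n4, nn, rr2, rr3]
    have D := (d1.prodMk d2).prodMk (d3.prodMk d4)
    convert D using 1
    · funext t
      simp only [physA, pow_two]
    · simp only [NF, physA, Prod.smul_mk, Complex.real_smul, hg, n0, n4, nl, ofReal_mul,
        ofReal_sub, ofReal_one]

end Pool.Agent.MP_1ba41f_an.S2.FL
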