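import Pool.Agent.MP_1ba41f_an.S2.FL.Spec
import Pool.Agent.MP_1ba41f_an.S2.OD.Sym

/-! Real points stay real. -/

noncomputable section
open Set Complex
open scoped ComplexConjugate

namespace Pool.Agent.MP_1ba41f_an.S2.FL

namespace RealS

theorem gen {E : Type} [NormedAddCommGroup E] [NormedSpace ℂ E] [NormedSpace ℝ E]
    [IsScalarTower ℝ ℂ E] {f : E → E} {U : Set E} {Ω : Set (E × ℂ)} {Φ : E × ℂ → E}
    (h : IsFlow f U Ω Φ) (J : E →L[ℝ] E) (hU : ∀ y ∈ U, J y ∈ U) (hf : ∀ y, J (f y) = f (J y))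
    {l : E → ℂ} (hl : Continuous l) (h0 : ∀ y ∈ U, l y ≠ 0) (hr : ∀ y, J y = y → (l y).im = 0)
    {x : E} (hx : J x = x) {s : ℝ} (hs : (x, (s : ℂ)) ∈ Ω) :
    J (Φ (x, (s : ℂ))) = Φ (x, (s : ℂ)) ∧ (0 < (l x).re → 0 < (l (Φ (x, (s : ℂ)))).re) := by
  have sm : ∀ (t : ℝ) (v : E), (t : ℂ) • v = t • v := fun t v => by
    rw [← smul_one_smul ℂ t v, Complex.real_smul, mul_one]
  have fx : ∀ t : ℝ, (x, (t : ℂ)) ∈ Ω → J (Φ (x, (t : ℂ))) = Φ (x, (t : ℂ)) := fun t ht => by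
    have := ((symS E E f U Ω Φ h).1 f U Ω Φ h J x t t ht fun u hu =>
      ⟨hU _ (h.mem _ (h.star _ ht u hu)).2, J, J.hasFDerivAt, by rw [sm, sm, map_smul, hf]⟩).2
    rw [← this, hx]
  refine ⟨fx s hs, fun hp => by_contra fun hn => ?_⟩
  obtain ⟨e0, hg⟩ := h.traj hs
  have hc : ContinuousOn (fun u : ℝ => (l (Φ (x, (u : ℂ) * s))).re) (Icc 0 1) :=
    (continuous_re.comp hl).comp_continuousOn fun u hu => (hg u hu).2.continuousWithinAt
  obtain ⟨u, hu, e⟩ := intermediate_value_Icc' zero_le_one hc (a := 0) (b := 1)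
    (show (0 : ℝ) ∈ _ from ⟨by simpa using hn, by
      simp only at e0
      simp only [e0]
      exact hp.le⟩)
  have hm := h.star _ hs u hu
  refine h0 _ (h.mem _ hm).2 (Complex.ext e (hr _ ?_))
  rw [← ofReal_mul] at hm ⊢
  exact fx _ hm

/-- complex conjugation -/
def cj : ℂ →L[ℝ] ℂ := conjCLE

/-- conjugation composed with a permutation of the coordinates -/
def cP {n : ℕ} (σ : Fin n → Fin n) : (Fin n → ℂ) →L[ℝ] Fin n → ℂ :=
  ContinuousLinearMap.pi fun i => cj.comp (ContinuousLinearMap.proj (σ i))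

/-- conjugation of a pair -/
def sw : ℂ × ℂ →L[ℝ] ℂ × ℂ :=
  (cj.comp (ContinuousLinearMap.snd ℝ ℂ ℂ)).prod (cj.comp (ContinuousLinearMap.fst ℝ ℂ ℂ))

/-- the real structure on the arcs -/
def JY : Yz →L[ℝ] Yz :=
  (cP ![1, 0, 3, 2, 5, 4, 7, 6, 8]).prodMap (cj.prodMap (cj.prodMap (cj.prodMap cj)))

/-- the real structure at the encounters -/
def JL : Lc →L[ℝ] Lc := sw.prodMap (sw.prodMap (cP ![0, 2, 1, 4, 3, 6, 5, 7, 8, 9]))

theorem JY_eq (y : Yz) : JY y = (![conj (y.1 1), conj (y.1 0), conj (y.1 3), conj (y.1 2),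
    conj (y.1 5), conj (y.1 4), conj (y.1 7), conj (y.1 6), conj (y.1 8)], conj y.2.1,
    conj y.2.2.1, conj y.2.2.2.1, conj y.2.2.2.2) := by
  refine Prod.ext (funext fun i => ?_) rfl
  fin_cases i <;> rfl

theorem JL_eq (p : Lc) : JL p = ((conj p.1.2, conj p.1.1), (conj p.2.1.2, conj p.2.1.1),
    ![conj (p.2.2 0), conj (p.2.2 2), conj (p.2.2 1), conj (p.2.2 4), conj (p.2.2 3),
      conj (p.2.2 6), conj (p.2.2 5), conj (p.2.2 7), conj (p.2.2 8), conj (p.2.2 9)]) := by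
  refine Prod.ext rfl (Prod.ext rfl (funext fun i => ?_))
  fin_cases i <;> rfl

theorem realY (y : Yz) : RealY y ↔ JY y = y := by
  rw [JY_eq]
  constructor
  · rintro ⟨⟨h1, h3, h5, h7, h8⟩, a, b, c, d⟩
    rw [← conj_eq_iff_im] at h8 a b c d
    refine Prod.ext (funext fun i => ?_) (Prod.ext a (Prod.ext b (Prod.ext c d)))
    fin_cases i <;> simp [h1, h3, h5, h7, h8]
  · intro h
    have h1 := congrFun (congrArg Prod.fst h)
    have h2 := congrArg Prod.snd h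
    exact ⟨⟨(h1 1).symm, (h1 3).symm, (h1 5).symm, (h1 7).symm, conj_eq_iff_im.1 (h1 8)⟩,
      conj_eq_iff_im.1 (congrArg (·.1) h2), conj_eq_iff_im.1 (congrArg (·.2.1) h2),
      conj_eq_iff_im.1 (congrArg (·.2.2.1) h2), conj_eq_iff_im.1 (congrArg (·.2.2.2) h2)⟩

theorem realL (p : Lc) : RealL p ↔ JL p = p := by
  rw [JL_eq]
  constructor
  · rintro ⟨a, b, h0, h2, h4, h6, h7, h8, h9⟩
    rw [← conj_eq_iff_im] at h0 h7 h8 h9
    refine Prod.ext (Prod.ext (by simp [a]) a.symm) (Prod.ext (Prod.ext (by simp [b]) b.symm)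
      (funext fun i => ?_))
    fin_cases i <;> simp [h0, h2, h4, h6, h7, h8, h9]
  · intro h
    have h1 := congrFun (congrArg (·.2.2) h)
    exact ⟨(congrArg (·.1.2) h).symm, (congrArg (·.2.1.2) h).symm, conj_eq_iff_im.1 (h1 0),
      (h1 2).symm, (h1 4).symm, (h1 6).symm, conj_eq_iff_im.1 (h1 7), conj_eq_iff_im.1 (h1 8),
      conj_eq_iff_im.1 (h1 9)⟩

theorem two : conj (2 : ℂ) = 2 := map_ofNat _ 2
theorem four : conj (4 : ℂ) = 4 := map_ofNat _ 4

theorem XY_J (y : Yz) : JY (XY y) = XY (JY y) := by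
  rw [JY_eq, JY_eq]
  refine Prod.ext (funext fun i => ?_) (Prod.ext ?_ (by simp [XY]))
  · fin_cases i <;> simp [XY, XA, rr2, rr3, nn, dd, ddt, two] <;> ring
  · simp [XY, dD, dDt, rr2, rr3, nn, dd, ddt, two]
    ring

theorem XL_J (p : Lc) : JL (XL p) = XL (JL p) := by
  rw [JL_eq, JL_eq]
  refine Prod.ext (Prod.ext ?_ ?_) (Prod.ext (Prod.ext ?_ ?_) (funext fun i => ?_))
  rotate_right
  · fin_cases i <;> simp [XL, hypF, lN, lk, lw, lwt, lm, lmt, lF, lFt, two, four,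
      -mul_eq_mul_right_iff] <;> ring
  all_goals
    simp [XL, hypF, ln, lk, lw, lwt, lm, lmt, lF, lFt, two, four]
    ring

end RealS

open RealS in
theorem realS (hF : FlowsStmt) : RealStmt := by
  refine ⟨fun y s hy hs => ?_, fun p s hp hs => ?_⟩
  · rw [realY] at hy ⊢
    refine gen hF.1 JY (fun y hy => ?_) XY_J (l := fun y => y.2.1) (by fun_prop)
      (fun y hy => hy.2.1) (fun y hy => ((realY y).2 hy).2.1) hy hs
    rw [JY_eq]
    refine ⟨fun e => hy.1 ?_, by simpa using hy.2.1, by simpa using hy.2.2.1, fun e => hy.2.2.2 ?_⟩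
    · have := congrArg conj e
      simp [nn, rr2, rr3] at this ⊢
      linear_combination this
    · simpa using congrArg conj e
  · rw [realL] at hp ⊢
    refine gen hF.2.2 JL (fun p hp => ?_) XL_J (l := fun p => p.2.2 0) (by fun_prop)
      (fun p hp => hp.1) (fun p hp => ((realL p).2 hp).2.2.1) hp hs
    rw [JL_eq]
    obtain ⟨a, b, c, d, e⟩ := hp
    exact ⟨by simpa using a, by simpa using c, by simpa using b, by simpa using e, by simpa using d⟩

end Pool.Agent.MP_1ba41f_an.S2.FL
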