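import Pool.Agent.MP_1ba41f_an.S2.OD.All
import Pool.Agent.MP_1ba41f_an.S2.FL.Asm
import Pool.Agent.MP_1ba41f_an.S2.FL.Flows
import Pool.Agent.MP_1ba41f_an.S2.FL.IntY
import Pool.Agent.MP_1ba41f_an.S2.FL.Real
import Pool.Agent.MP_1ba41f_an.S2.FL.PhysY
import Pool.Agent.MP_1ba41f_an.S2.FL.IntL
import Pool.Agent.MP_1ba41f_an.S2.FL.PhysL
import Pool.Agent.MP_1ba41f_an.S2.FL.Bnd
import Pool.Agent.MP_1ba41f_an.S2.FL.CenA
import Pool.Agent.MP_1ba41f_an.S2.FL.Adm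
import Pool.Agent.MP_1ba41f_an.S2.FL.CenB
import Pool.Agent.MP_1ba41f_an.S2.FL.Base
import Pool.Agent.MP_1ba41f_an.S2.FL.Dir
import Pool.Agent.MP_1ba41f_an.S2.FL.Arc0
import Pool.Agent.MP_1ba41f_an.S2.FL.Arc
import Pool.Agent.MP_1ba41f_an.S2.FL.Enc
import Pool.Agent.MP_1ba41f_an.S2.FL.Exit

/-! Existence of the half arcs. -/

namespace Pool.Agent.MP_1ba41f_an.S2

open FL in
theorem halfS : HalfStmt :=
  have hF := flowsS flowT
  have hB := baseS hF
  have hT := tubeS hF admS hB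
  have hD := dirS hT admS ddS
  halfOf hF (intYS hF) (realS hF) physYS (intLS hF) physLS chartS cenAS admS cenBS cenCS hD
    (arcS hF admS (arc0S hF (extCS extT) (intYS hF) admS hB hD (lowS hT admS ddS)))
    (encS hF volT bndS cenAS admS cenBS) (exitS admS)

end Pool.Agent.MP_1ba41f_an.S2
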