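import Pool.Agent.MP_1ba41f_an.S2.Defs
import Pool.Agent.MP_1ba41f_an.S2.FL.Defs

/-! Charts and vector fields for the arcs and for the encounters. -/

noncomputable section
open Set Complex
open scoped ComplexConjugate

namespace Pool.Agent.MP_1ba41f_an.S2.FL

/-! ### Arcs -/

/-- The regularised field on an arc; `l` stands for `|q3 - q2|`, `h` for the energy. -/
def XA (l h a e : ℂ) (z : Az) : Az :=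
  ![((1 + e * a) * z 2 * rr3 z + e * (1 - a) * z 6 * z 4 * z 1) / (2 * nn z),
    ((1 + e * a) * z 3 * rr3 z + e * (1 - a) * z 7 * z 5 * z 0) / (2 * nn z),
    (z 0 * (h * rr3 z - (1 - a) * ((1 + e * (1 - a)) * z 6 * z 7 / 2 - 1)) / a +
      e * (1 - a) * (z 0 * rr3 z / l - z 3 * z 6 * z 4 / 2 + rr2 z * rr3 z * z 1 * dd z / l ^ 3)) /
      nn z,
    (z 1 * (h * rr3 z - (1 - a) * ((1 + e * (1 - a)) * z 6 * z 7 / 2 - 1)) / a +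
      e * (1 - a) * (z 1 * rr3 z / l - z 2 * z 7 * z 5 / 2 + rr2 z * rr3 z * z 0 * ddt z / l ^ 3)) /
      nn z,
    ((1 + e * (1 - a)) * z 6 * rr2 z + e * a * z 2 * z 0 * z 5) / (2 * nn z),
    ((1 + e * (1 - a)) * z 7 * rr2 z + e * a * z 3 * z 1 * z 4) / (2 * nn z),
    (z 4 * (h * rr2 z - a * ((1 + e * a) * z 2 * z 3 / 2 - 1)) / (1 - a) +
      e * a * (z 4 * rr2 z / l - z 7 * z 2 * z 0 / 2 - rr2 z * rr3 z * z 5 * dd z / l ^ 3)) / nn z,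
    (z 5 * (h * rr2 z - a * ((1 + e * a) * z 2 * z 3 / 2 - 1)) / (1 - a) +
      e * a * (z 5 * rr2 z / l - z 6 * z 3 * z 1 / 2 - rr2 z * rr3 z * z 4 * ddt z / l ^ 3)) / nn z,
    rr2 z * rr3 z / nn z]

/-- Derivative of `dd` along the arcs. -/
def dD (z : Az) : ℂ := (z 6 * z 4 * rr2 z - z 2 * z 0 * rr3 z) / nn z
/-- Derivative of `ddt` along the arcs. -/
def dDt (z : Az) : ℂ := (z 7 * z 5 * rr2 z - z 3 * z 1 * rr3 z) / nn z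

/-- Full state on an arc: `z, l, h, a, e`. -/
abbrev Yz : Type := Az × ℂ × ℂ × ℂ × ℂ

def XY (y : Yz) : Yz :=
  (XA y.2.1 y.2.2.1 y.2.2.2.1 y.2.2.2.2 y.1,
    (ddt y.1 * dD y.1 + dd y.1 * dDt y.1) / (2 * y.2.1), 0, 0, 0)

def DY : Set Yz := {y | nn y.1 ≠ 0 ∧ y.2.1 ≠ 0 ∧ y.2.2.2.1 ≠ 0 ∧ y.2.2.2.1 ≠ 1}

/-- Unperturbed state on an arc: `z, h, a`. -/
abbrev Rz : Type := Az × ℂ × ℂ

def XR (y : Rz) : Rz := (XA 1 y.2.1 y.2.2 0 y.1, 0, 0)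

def DR : Set Rz := {y | nn y.1 ≠ 0 ∧ y.2.2 ≠ 0 ∧ y.2.2 ≠ 1}

/-- `r2 r3 (H - h)`. -/
def KA (l h a e : ℂ) (z : Az) : ℂ :=
  rr3 z * a * ((1 + e * a) * z 2 * z 3 / 2 - 1) +
    rr2 z * (1 - a) * ((1 + e * (1 - a)) * z 6 * z 7 / 2 - 1) +
    e * a * (1 - a) * (z 2 * z 0 * z 7 * z 5 + z 3 * z 1 * z 6 * z 4) / 2 -
    e * a * (1 - a) * rr2 z * rr3 z / l - h * rr2 z * rr3 z

/-- Angular momentum. -/
def GA (a : ℂ) (z : Az) : ℂ :=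
  (a * (z 1 * z 2 - z 0 * z 3) + (1 - a) * (z 5 * z 6 - z 4 * z 7)) / (2 * I)

def RealY (y : Yz) : Prop :=
  RealZ y.1 ∧ y.2.1.im = 0 ∧ y.2.2.1.im = 0 ∧ y.2.2.2.1.im = 0 ∧ y.2.2.2.2.im = 0

/-- The level set that carries the true motion. -/
def LevY (h c a e : ℂ) (y : Yz) : Prop :=
  y.2.2.1 = h ∧ y.2.2.2.1 = a ∧ y.2.2.2.2 = e ∧ y.2.1 ^ 2 = dd y.1 * ddt y.1 ∧
    KA y.2.1 h a e y.1 = 0 ∧ GA a y.1 = c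

/-! ### Encounters -/

/-- State at an encounter: `(A, A~), (B, B~)` with `A = w + m`, `B = w - m`, and
`k, V, V~, u2, u2~, u3, u3~, t, a, e`. -/
abbrev Lc : Type := (ℂ × ℂ) × (ℂ × ℂ) × (Fin 10 → ℂ)

def lw (p : Lc) : ℂ := (p.1.1 + p.2.1.1) / 2
def lwt (p : Lc) : ℂ := (p.1.2 + p.2.1.2) / 2
def lm (p : Lc) : ℂ := (p.1.1 - p.2.1.1) / 2
def lmt (p : Lc) : ℂ := (p.1.2 - p.2.1.2) / 2
def lF (p : Lc) : ℂ := 1 / (p.2.2 3 * p.2.2 4 ^ 3) - 1 / (p.2.2 5 * p.2.2 6 ^ 3)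
def lFt (p : Lc) : ℂ := 1 / (p.2.2 4 * p.2.2 3 ^ 3) - 1 / (p.2.2 6 * p.2.2 5 ^ 3)
def lk (p : Lc) : ℂ := (lwt p * lmt p * lF p + lw p * lm p * lFt p) / (4 * p.2.2 0)

def ln (p : Lc) : ℂ × ℂ :=
  (lw p * lwt p ^ 2 * lF p / (2 * p.2.2 0 ^ 2) - lm p * lk p / p.2.2 0,
    lwt p * lw p ^ 2 * lFt p / (2 * p.2.2 0 ^ 2) - lmt p * lk p / p.2.2 0)

def lN (p : Lc) : Fin 10 → ℂ :=
  ![lk p,
    -(lw p * lwt p / p.2.2 0) *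
      (p.2.2 8 / (p.2.2 3 * p.2.2 4 ^ 3) + (1 - p.2.2 8) / (p.2.2 5 * p.2.2 6 ^ 3)),
    -(lw p * lwt p / p.2.2 0) *
      (p.2.2 8 / (p.2.2 4 * p.2.2 3 ^ 3) + (1 - p.2.2 8) / (p.2.2 6 * p.2.2 5 ^ 3)),
    ((1 + p.2.2 9) * p.2.2 1 * lw p * lwt p / p.2.2 0 - 2 * (1 - p.2.2 8) * lm p * lw p) /
      (2 * p.2.2 3),
    ((1 + p.2.2 9) * p.2.2 2 * lw p * lwt p / p.2.2 0 - 2 * (1 - p.2.2 8) * lmt p * lwt p) /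
      (2 * p.2.2 4),
    ((1 + p.2.2 9) * p.2.2 1 * lw p * lwt p / p.2.2 0 + 2 * p.2.2 8 * lm p * lw p) / (2 * p.2.2 5),
    ((1 + p.2.2 9) * p.2.2 2 * lw p * lwt p / p.2.2 0 + 2 * p.2.2 8 * lmt p * lwt p) /
      (2 * p.2.2 6),
    lw p * lwt p / p.2.2 0, 0, 0]

def XL : Lc → Lc := hypF ln lN

/-- Admissible values of the slow variables. -/
def DZ : Set (Fin 10 → ℂ) := {z | z 0 ≠ 0 ∧ z 3 ≠ 0 ∧ z 4 ≠ 0 ∧ z 5 ≠ 0 ∧ z 6 ≠ 0}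

def DL : Set Lc := {p | p.2.2 ∈ DZ}

def CL (p : Lc) : ℂ := 2 * p.2.2 0 ^ 2 * (lm p * lmt p - lw p * lwt p)

def HL (p : Lc) : ℂ :=
  (1 + p.2.2 9) * p.2.2 1 * p.2.2 2 / 2 + 2 * p.2.2 8 * (1 - p.2.2 8) * p.2.2 0 ^ 2 -
    p.2.2 8 / (p.2.2 3 * p.2.2 4) - (1 - p.2.2 8) / (p.2.2 5 * p.2.2 6)

def AL (p : Lc) : ℂ :=
  ((p.2.2 8 * p.2.2 4 ^ 2 + (1 - p.2.2 8) * p.2.2 6 ^ 2) * p.2.2 1 -
    (p.2.2 8 * p.2.2 3 ^ 2 + (1 - p.2.2 8) * p.2.2 5 ^ 2) * p.2.2 2 +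
    2 * p.2.2 8 * (1 - p.2.2 8) * p.2.2 0 * (lwt p * lm p - lw p * lmt p)) / (2 * I)

/-- The level set that carries the true motion. -/
def LevL (h c a e : ℂ) (p : Lc) : Prop :=
  p.2.2 8 = a ∧ p.2.2 9 = e ∧ CL p = e ∧ p.2.2 5 ^ 2 - p.2.2 3 ^ 2 = lw p ^ 2 ∧
    p.2.2 6 ^ 2 - p.2.2 4 ^ 2 = lwt p ^ 2 ∧ HL p = h ∧ AL p = c

def RealL (p : Lc) : Prop :=
  p.1.2 = conj p.1.1 ∧ p.2.1.2 = conj p.2.1.1 ∧ (p.2.2 0).im = 0 ∧ p.2.2 2 = conj (p.2.2 1) ∧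
    p.2.2 4 = conj (p.2.2 3) ∧ p.2.2 6 = conj (p.2.2 5) ∧ (p.2.2 7).im = 0 ∧ (p.2.2 8).im = 0 ∧
    (p.2.2 9).im = 0

/-- The state `En` of a point of the encounter chart. -/
def projE (p : Lc) : En :=
  ![p.2.2 3 ^ 2, p.2.2 4 ^ 2, lw p, lwt p, 2 * p.2.2 0 * lm p, 2 * p.2.2 0 * lmt p, p.2.2 1,
    p.2.2 2, p.2.2 7]

/-- Passage from the encounter chart to the arc chart. -/
def exZ (p : Lc) : Az :=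
  ![p.2.2 3, p.2.2 4, p.2.2 4 * (p.2.2 1 - 2 * (1 - p.2.2 8) * p.2.2 0 * lm p / lwt p),
    p.2.2 3 * (p.2.2 2 - 2 * (1 - p.2.2 8) * p.2.2 0 * lmt p / lw p),
    p.2.2 5, p.2.2 6, p.2.2 6 * (p.2.2 1 + 2 * p.2.2 8 * p.2.2 0 * lm p / lwt p),
    p.2.2 5 * (p.2.2 2 + 2 * p.2.2 8 * p.2.2 0 * lmt p / lw p), 0]

def exY (h : ℂ) (p : Lc) : Yz := (exZ p, lw p * lwt p, h, p.2.2 8, p.2.2 9)

/-! ### Centre of an encounter -/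

/-- Parameters `a, e` and centre data. -/
abbrev Cq : Type := ℂ × ℂ × Xi

def cE (q : Cq) : ℂ := 2 * (q.2.2 1 - yy q.2.2 * yt q.2.2 / 2 + 1 / q.2.2 2) / (q.1 * (1 - q.1))
def cB (x : Xi) : ℂ := x 4 / x 5 + x 5 / x 4
def cJ (x : Xi) : ℂ := (x 5 / x 4 - x 4 / x 5) / I
/-- amplitude divided by the square root of `e` -/
def cA (q : Cq) : ℂ := 1 / (sq (cB q.2.2) * sq (cE q))
def cAA (q : Cq) : ℂ := q.2.1 / (cB q.2.2 * cE q)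
def cD (q : Cq) : ℂ := cAA q * (q.2.2 4 - q.2.2 5) ^ 2
def cDt (q : Cq) : ℂ := cAA q * (1 / q.2.2 4 - 1 / q.2.2 5) ^ 2
def cq2 (q : Cq) : ℂ := q.2.2 2 - (1 - q.1) * cD q
def cq2t (q : Cq) : ℂ := q.2.2 2 - (1 - q.1) * cDt q
def cq3 (q : Cq) : ℂ := q.2.2 2 + q.1 * cD q
def cq3t (q : Cq) : ℂ := q.2.2 2 + q.1 * cDt q
/-- `4 k ^ 2` as a function of the angular momentum `c` of the centre of mass of the pair -/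
def cK (q : Cq) (c : ℂ) : ℂ :=
  2 * (q.2.2 1 - (1 + q.2.1) * (q.2.2 3 ^ 2 + c ^ 2) / (2 * q.2.2 2 ^ 2) +
    q.1 / (sq (cq2 q) * sq (cq2t q)) + (1 - q.1) / (sq (cq3 q) * sq (cq3t q))) / (q.1 * (1 - q.1))
def cal (q : Cq) : ℂ := (1 + q.2.1) * q.2.2 0 * cAA q * cJ q.2.2 / q.2.2 2 ^ 2
def cga (q : Cq) : ℂ := (1 + q.2.1) * q.1 * (1 - q.1) * (cAA q * cJ q.2.2) ^ 2 / q.2.2 2 ^ 2
def ca2 (q : Cq) : ℂ := 2 + cB q.2.2 + (2 - cB q.2.2) * cga q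
def cm (q : Cq) : ℂ := (2 - cB q.2.2) * cal q / ca2 q
def cdi (q : Cq) : ℂ :=
  cm q ^ 2 + (2 * cB q.2.2 * cE q + (2 - cB q.2.2) * cK q (q.2.2 0)) / ca2 q
def cx (q : Cq) : ℂ := cm q + sq (cdi q)
def ccQ (q : Cq) : ℂ := q.2.2 0 - q.1 * (1 - q.1) * cAA q * cJ q.2.2 * cx q
def ckk (q : Cq) : ℂ := cK q (ccQ q)
def cnu (q : Cq) : ℂ := cx q / sq (ckk q)

/-- The centre, with the fast variables divided by the square root of `e`. -/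
def cen (q : Cq) : Lc :=
  ((cA q * ((q.2.2 4 - q.2.2 5) + cnu q * (q.2.2 4 + q.2.2 5)),
      cA q * ((1 / q.2.2 4 - 1 / q.2.2 5) + cnu q * (1 / q.2.2 4 + 1 / q.2.2 5))),
    (cA q * ((q.2.2 4 - q.2.2 5) - cnu q * (q.2.2 4 + q.2.2 5)),
      cA q * ((1 / q.2.2 4 - 1 / q.2.2 5) - cnu q * (1 / q.2.2 4 + 1 / q.2.2 5))),
    ![sq (ckk q) / 2, (q.2.2 3 + I * ccQ q) / q.2.2 2, (q.2.2 3 - I * ccQ q) / q.2.2 2,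
      sq (cq2 q), sq (cq2t q), sq (cq3 q), sq (cq3t q), 0, q.1, q.2.1])

/-- Where the centre is defined. -/
def Gd : Set Cq := {q | q.1 ≠ 0 ∧ q.1 ≠ 1 ∧ q.2.2 2 ≠ 0 ∧ q.2.2 4 ≠ 0 ∧ q.2.2 5 ≠ 0 ∧
  cB q.2.2 ∈ slitPlane ∧ cE q ∈ slitPlane ∧ cq2 q ∈ slitPlane ∧ cq2t q ∈ slitPlane ∧
  cq3 q ∈ slitPlane ∧ cq3t q ∈ slitPlane ∧ ca2 q ≠ 0 ∧ cdi q ∈ slitPlane ∧ ckk q ∈ slitPlane}

/-- Scaling of the fast variables. -/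
def sc (l : ℝ) (p : Lc) : Lc := (l • p.1, l • p.2.1, p.2.2)

/-- The true centre. -/
def cen1 (a e : ℝ) (x : Xi) : Lc := sc (Real.sqrt e) (cen ((a : ℂ), (e : ℂ), x))

/-- The amplitude at `e = 0` (it does not depend on `e`). -/
def am (a : ℝ) (x : Xi) : ℂ := cA ((a : ℂ), 0, x)

/-- The slow variables at the collision. -/
def ze (a : ℝ) (x : Xi) : Fin 10 → ℂ :=
  ![sq (e2 a x) / 2, yy x, yt x, sq (x 2), sq (x 2), sq (x 2), sq (x 2), 0, a, 0]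

end Pool.Agent.MP_1ba41f_an.S2.FL
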