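import Pool.Agent.MP_1ba41f_an.S2.FL.Mech

/-! Statements of the rows that give `HalfStmt`. -/

noncomputable section
open Set Complex
open scoped ComplexConjugate

namespace Pool.Agent.MP_1ba41f_an.S2.FL

abbrev OY : Set (Yz × ℂ) := flowDom XY DY
abbrev FY : Yz × ℂ → Yz := flow XY DY
abbrev OR : Set (Rz × ℂ) := flowDom XR DR
abbrev FR : Rz × ℂ → Rz := flow XR DR
abbrev OL : Set (Lc × ℂ) := flowDom XL DL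
abbrev FLc : Lc × ℂ → Lc := flow XL DL

/-- The three flows exist. -/
def FlowsStmt : Prop := IsFlow XY DY OY FY ∧ IsFlow XR DR OR FR ∧ IsFlow XL DL OL FLc

/-- Continuation along a complex segment. -/
def ExtCStmt : Prop := ∀ (E : Type) [NormedAddCommGroup E] [NormedSpace ℂ E] [NormedSpace ℝ E]
  [IsScalarTower ℝ ℂ E] (f : E → E) (U : Set E) (Ω : Set (E × ℂ)) (Φ : E × ℂ → E),
  IsFlow f U Ω Φ → ∀ (K : Set E), IsCompact K → K ⊆ U → ∀ x ∈ U, ∀ τ : ℂ,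
    (∀ s ∈ Icc (0 : ℝ) 1, (x, (s : ℂ) * τ) ∈ Ω → Φ (x, (s : ℂ) * τ) ∈ K) → (x, τ) ∈ Ω

/-- First integrals on the arcs. -/
def IntYStmt : Prop := ∀ (y : Yz) (τ : ℂ), (y, τ) ∈ OY →
  (FY (y, τ)).2.2 = y.2.2 ∧
  (FY (y, τ)).2.1 ^ 2 - dd (FY (y, τ)).1 * ddt (FY (y, τ)).1 = y.2.1 ^ 2 - dd y.1 * ddt y.1 ∧
  ∀ h c a e : ℂ, LevY h c a e y → LevY h c a e (FY (y, τ))

/-- Real points stay real on the arcs and at the encounters. -/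
def RealStmt : Prop :=
  (∀ (y : Yz) (s : ℝ), RealY y → (y, (s : ℂ)) ∈ OY →
    RealY (FY (y, (s : ℂ))) ∧ (0 < y.2.1.re → 0 < (FY (y, (s : ℂ))).2.1.re)) ∧
  (∀ (p : Lc) (s : ℝ), RealL p → (p, (s : ℂ)) ∈ OL →
    RealL (FLc (p, (s : ℂ))) ∧ (0 < (p.2.2 0).re → 0 < ((FLc (p, (s : ℂ))).2.2 0).re))

/-- The arcs are solutions of the Newton equations after a change of time. -/
def PhysYStmt : Prop := ∀ (h c a e : ℝ) (y : Yz), y ∈ DY → RealY y → LevY h c a e y →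
  0 < y.2.1.re →
    dd y.1 ≠ 0 ∧ (y.1 0 = 0 → (XY y).1 0 ≠ 0) ∧ (y.1 4 = 0 → (XY y).1 4 ≠ 0) ∧
    (y.1 0 ≠ 0 → y.1 4 ≠ 0 → ham a e (physA y.1) = h ∧ ang a (physA y.1) = c ∧
      ∃ g : ℝ, 0 < g ∧ (XY y).1 8 = g ∧ ∀ (γ : ℝ → Az) (s : ℝ), γ s = y.1 →
        HasDerivAt γ (XY y).1 s → HasDerivAt (fun s => physA (γ s))
          (g • NF (e * a) (e * (1 - a)) (physA y.1)) s)

/-- First integrals at the encounters. -/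
def IntLStmt : Prop := ∀ (h c a e : ℂ) (p : Lc) (τ : ℂ), (p, τ) ∈ OL → LevL h c a e p →
  LevL h c a e (FLc (p, τ))

/-- The encounters are solutions of the Newton equations after a change of time. -/
def PhysLStmt : Prop := ∀ (h c a e : ℝ) (p : Lc), p ∈ DL → RealL p → LevL h c a e p →
  0 < (p.2.2 0).re → RealZ (projE p) ∧ (lw p ≠ 0 → ∃ g : ℝ, 0 < g ∧ (XL p).2.2 7 = g ∧
    ∀ (γ : ℝ → Lc) (s : ℝ), γ s = p → HasDerivAt γ (XL p) s →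
      HasDerivAt (fun s => physE a (projE (γ s)))
        (g • NF (e * a) (e * (1 - a)) (physE a (projE p))) s)

/-- Change of chart: algebra and holomorphy. -/
def ChartStmt : Prop :=
  Differentiable ℂ projE ∧ Differentiable ℂ lw ∧ Differentiable ℂ lwt ∧
  DifferentiableOn ℂ (fun x : ℂ × Lc => exY x.1 x.2) {x | lw x.2 ≠ 0 ∧ lwt x.2 ≠ 0} ∧
  ∀ (h c a e : ℂ) (p : Lc), p ∈ DL → LevL h c a e p → lw p ≠ 0 → lwt p ≠ 0 →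
    LevY h c a e (exY h p) ∧ dd (exZ p) = lw p ^ 2 ∧ ddt (exZ p) = lwt p ^ 2 ∧
    (∀ b : ℝ, a = b → physE b (projE p) = physA (exZ p)) ∧
    (RealL p → h.im = 0 → RealY (exY h p) ∧ 0 < (lw p * lwt p).re)

/-- The nonlinear terms are quadratic in the fast variables. -/
def BndStmt : Prop := ∀ K : Set (Fin 10 → ℂ), IsCompact K → K ⊆ DZ →
  ∃ c > 0, ∃ d > 0, ∃ R > 0, ∀ ζ ∈ K, ∀ p : Lc, ‖p.1‖ ≤ R → ‖p.2.1‖ ≤ R → ‖p.2.2 - ζ‖ ≤ d →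
    p ∈ DL ∧ ‖ln p‖ ≤ c * max ‖p.1‖ ‖p.2.1‖ ^ 2 ∧ ‖lN p‖ ≤ c * max ‖p.1‖ ‖p.2.1‖ ^ 2

/-- The centre is holomorphic; its value at `e = 0`. -/
def CenAStmt : Prop := IsOpen Gd ∧ DifferentiableOn ℂ cen Gd ∧ ∀ k : ℝ × Xi × ℂ, Adm k →
  ((k.1 : ℂ), (0 : ℂ), k.2.1) ∈ Gd ∧ cen ((k.1 : ℂ), 0, k.2.1) =
    ((2 * am k.1 k.2.1 * k.2.1 4, 2 * am k.1 k.2.1 / k.2.1 4),
      (-(2 * am k.1 k.2.1 * k.2.1 5), -(2 * am k.1 k.2.1 / k.2.1 5)), ze k.1 k.2.1)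

/-- Elementary facts on admissible data. -/
def AdmStmt : Prop :=
  ContinuousOn (fun k : ℝ × Xi × ℂ => am k.1 k.2.1) {k | Adm k} ∧
  ContinuousOn (fun k : ℝ × Xi × ℂ => ze k.1 k.2.1) {k | Adm k} ∧
  ContinuousOn (fun k : ℝ × Xi × ℂ => coll k.1 k.2.1) {k | Adm k} ∧
  ∀ k : ℝ × Xi × ℂ, Adm k → ze k.1 k.2.1 ∈ DZ ∧ 0 < (am k.1 k.2.1 ^ 2).re ∧
    0 < (k.2.2 * dD (coll k.1 k.2.1) / k.2.1 4 ^ 2).re ∧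
    0 < (k.2.2 * dDt (coll k.1 k.2.1) * k.2.1 4 ^ 2).re ∧
    dd (coll k.1 k.2.1) = 0 ∧ ddt (coll k.1 k.2.1) = 0 ∧
    (RealXi k.2.1 → ∃ A : ℝ, 0 < A ∧ am k.1 k.2.1 = A)

/-- The centre lies on the level set and is real for real data. -/
def CenBStmt : Prop := ∀ (a e : ℝ) (x : Xi), 0 ≤ e → ((a : ℂ), (e : ℂ), x) ∈ Gd →
  cen1 a e x ∈ DL ∧ LevL (x 1) (x 0) a e (cen1 a e x) ∧
  lw (cen1 a e x) = Real.sqrt e * am a x * (x 4 - x 5) ∧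
  (RealXi x → RealL (cen1 a e x) ∧ 0 < ((cen1 a e x).2.2 0).re)

/-- Mirror symmetry of the centre. -/
def CenCStmt : Prop := ∀ (a e : ℝ) (x : Xi) (s : ℂ), 0 < e → ((a : ℂ), (e : ℂ), x) ∈ Gd →
  RealXi x → x 4 ≠ x 5 → (s = 1 ∨ s = -1) →
    physE a (projE (cen1 a e (mirXi s x))) = mir (physE a (projE (cen1 a e x)))

/-- Derivative of `dd`, `ddt` along both fields. -/
def DdStmt : Prop := ∀ (γ : ℝ → Az) (v : Az) (T : ℂ) (J : Set ℝ) (u : ℝ), nn (γ u) ≠ 0 →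
  ((∃ l h a e, v = XA l h a e (γ u)) ∨ ∃ k2 k3, v = X0 k2 k3 (γ u)) →
  HasDerivWithinAt γ (T • v) J u →
    HasDerivWithinAt (fun u => dd (γ u)) (T * dD (γ u)) J u ∧
    HasDerivWithinAt (fun u => ddt (γ u)) (T * dDt (γ u)) J u

/-- The base arc is an orbit of the unperturbed flow. -/
def BaseStmt : Prop := ∀ k : ℝ × Xi × ℂ, Adm k → ∀ g, BaseArc k.1 k.2.1 k.2.2 g →
  ∀ u ∈ Icc (0 : ℝ) 1, ((coll k.1 k.2.1, k.2.1 1, (k.1 : ℂ)), (u : ℂ) * k.2.2) ∈ OR ∧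
    FR ((coll k.1 k.2.1, k.2.1 1, (k.1 : ℂ)), (u : ℂ) * k.2.2) = (g u, k.2.1 1, (k.1 : ℂ))

/-- The base arcs depend continuously on the data. -/
def TubeStmt : Prop := ∃ B : (ℝ × Xi × ℂ) × ℝ → Az,
  ContinuousOn B ({k | Adm k} ×ˢ Icc (0 : ℝ) 1) ∧ ∀ k : ℝ × Xi × ℂ, Adm k →
    ∀ g, BaseArc k.1 k.2.1 k.2.2 g → ∀ u ∈ Icc (0 : ℝ) 1, g u = B (k, u)

/-- Curves near a base arc: the increment of `dd`. -/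
def DirStmt : Prop := ∀ K : Set (ℝ × Xi × ℂ), IsCompact K → (∀ k ∈ K, Adm k) → ∀ η : ℝ, 0 < η →
  ∃ d > 0, ∀ k ∈ K, ∀ g, BaseArc k.1 k.2.1 k.2.2 g → ∀ (γ : ℝ → Az) (l : ℝ → ℂ) (h a e : ℂ),
    (∀ u ∈ Icc (0 : ℝ) 1, ‖γ u - g u‖ ≤ d ∧
      HasDerivWithinAt γ (k.2.2 • XA (l u) h a e (γ u)) (Icc 0 1) u) →
    ∀ u ∈ Icc (0 : ℝ) 1, ‖dd (γ u) - dd (γ 0) - dd (g u)‖ ≤ η * u ∧
      ‖ddt (γ u) - ddt (γ 0) - ddt (g u)‖ ≤ η * u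

/-- Lower bound for the distance of the small bodies along a shifted base arc. -/
def LowStmt : Prop := ∀ K : Set (ℝ × Xi × ℂ), IsCompact K → (∀ k ∈ K, Adm k) →
  ∃ c > 0, ∃ R1 > 0, ∀ k ∈ K, ∀ g, BaseArc k.1 k.2.1 k.2.2 g → ∀ u ∈ Icc (0 : ℝ) 1, ∀ R : ℝ,
    0 < R → R ≤ R1 → c * (R + u) ≤ ‖R * am k.1 k.2.1 ^ 2 * k.2.1 4 ^ 2 + dd (g u)‖ ∧
      c * (R + u) ≤ ‖R * am k.1 k.2.1 ^ 2 / k.2.1 4 ^ 2 + ddt (g u)‖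

/-- Starting points of the arcs. -/
def Start (d R : ℝ) (k : ℝ × Xi × ℂ) (z : Az) (l : ℂ) : Prop :=
  ‖z - coll k.1 k.2.1‖ ≤ d ∧ l ^ 2 = dd z * ddt z ∧
    ‖dd z - R * am k.1 k.2.1 ^ 2 * k.2.1 4 ^ 2‖ ≤ d * R ∧
    ‖ddt z - R * am k.1 k.2.1 ^ 2 / k.2.1 4 ^ 2‖ ≤ d * R

/-- The arcs of the full field at `e = 0`. -/
def Arc0Stmt : Prop := ∀ K : Set (ℝ × Xi × ℂ), IsCompact K → (∀ k ∈ K, Adm k) → ∀ η : ℝ, 0 < η →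
  ∃ d > 0, ∀ R : ℝ, 0 < R → R ≤ d → ∀ k ∈ K, ∀ (z : Az) (l : ℂ), Start d R k z l →
    ∀ u ∈ Icc (0 : ℝ) 1, ((z, l, k.2.1 1, (k.1 : ℂ), (0 : ℂ)), (u : ℂ) * k.2.2) ∈ OY ∧
      ∀ g, BaseArc k.1 k.2.1 k.2.2 g →
        ‖(FY ((z, l, k.2.1 1, (k.1 : ℂ), (0 : ℂ)), (u : ℂ) * k.2.2)).1 - g u‖ ≤ η

/-- The arcs for small `e`. -/
def ArcStmt : Prop := ∀ K : Set (ℝ × Xi × ℂ), IsCompact K → (∀ k ∈ K, Adm k) → ∀ η : ℝ, 0 < η →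
  ∃ d > 0, ∀ R : ℝ, 0 < R → R ≤ d → ∃ e0 > 0, ∀ e : ℂ, ‖e‖ ≤ e0 → ∀ k ∈ K, ∀ (z : Az) (l : ℂ),
    Start d R k z l → ∀ u ∈ Icc (0 : ℝ) 1,
      ((z, l, k.2.1 1, (k.1 : ℂ), e), (u : ℂ) * k.2.2) ∈ OY ∧ ∀ g, BaseArc k.1 k.2.1 k.2.2 g →
        ‖(FY ((z, l, k.2.1 1, (k.1 : ℂ), e), (u : ℂ) * k.2.2)).1 - g u‖ ≤ η

/-- The second half of an encounter. -/
def EncStmt : Prop := ∀ K : Set (ℝ × Xi × ℂ), IsCompact K → (∀ k ∈ K, Adm k) → ∀ η : ℝ, 0 < η →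
  ∃ r1 > 0, ∀ r : ℝ, 0 < r → r ≤ r1 → ∃ e0 > 0, ∀ e : ℝ, 0 < e → e < e0 → Real.sqrt e < r ∧
    ∀ k ∈ K, ((k.1 : ℂ), (e : ℂ), k.2.1) ∈ Gd ∧
      (∀ s ∈ Icc (0 : ℝ) (Real.log (r / Real.sqrt e)), (cen1 k.1 e k.2.1, (s : ℂ)) ∈ OL ∧
        ‖(FLc (cen1 k.1 e k.2.1, (s : ℂ))).2.2 - ze k.1 k.2.1‖ ≤ η ∧
        ‖(FLc (cen1 k.1 e k.2.1, (s : ℂ))).2.2 3 ^ 2 - k.2.1 2‖ ≤ η ∧
        ‖lw (FLc (cen1 k.1 e k.2.1, (s : ℂ)))‖ ≤ η ∧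
        ‖lw (FLc (cen1 k.1 e k.2.1, (s : ℂ))) - Real.sqrt e * am k.1 k.2.1 *
          (k.2.1 4 * Real.exp s - k.2.1 5 * Real.exp (-s))‖ ≤ η * Real.sqrt e * Real.sinh s) ∧
      ‖(FLc (cen1 k.1 e k.2.1, (Real.log (r / Real.sqrt e) : ℝ))).1 -
        r • (2 * am k.1 k.2.1 * k.2.1 4, 2 * am k.1 k.2.1 / k.2.1 4)‖ ≤ η * r ∧
      ‖(FLc (cen1 k.1 e k.2.1, (Real.log (r / Real.sqrt e) : ℝ))).2.1‖ ≤ η * r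

/-- The exit point of an encounter is near the collision state. -/
def ExitStmt : Prop := ∀ K : Set (ℝ × Xi × ℂ), IsCompact K → (∀ k ∈ K, Adm k) → ∀ d : ℝ, 0 < d →
  ∃ η > 0, ∀ k ∈ K, ∀ (r : ℝ) (p : Lc), 0 < r → ‖p.2.2 - ze k.1 k.2.1‖ ≤ η →
    ‖p.1 - r • (2 * am k.1 k.2.1 * k.2.1 4, 2 * am k.1 k.2.1 / k.2.1 4)‖ ≤ η * r →
    ‖p.2.1‖ ≤ η * r → lw p ≠ 0 ∧ lwt p ≠ 0 ∧ ‖exZ p - coll k.1 k.2.1‖ ≤ d ∧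
      ‖lw p ^ 2 - (r ^ 2 : ℝ) * am k.1 k.2.1 ^ 2 * k.2.1 4 ^ 2‖ ≤ d * r ^ 2 ∧
      ‖lwt p ^ 2 - (r ^ 2 : ℝ) * am k.1 k.2.1 ^ 2 / k.2.1 4 ^ 2‖ ≤ d * r ^ 2

end Pool.Agent.MP_1ba41f_an.S2.FL
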